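import Mathlib

set_option autoImplicit false

/-!
# The prime factors of `(p ^ (2 m) - 1) / (p ^ 2 - 1)`
-/

namespace Pool.Agent.Lib.MP_2a564b_nt

open Finset

/-- The number `1 + p ^ 2 + ... + p ^ (2 (m - 1))`. -/
def cof (p m : ℕ) : ℕ := ∑ i ∈ range m, (p ^ 2) ^ i

theorem cof_mul (p m : ℕ) (hp : 1 ≤ p) : (p ^ 2 - 1) * cof p m = (p ^ m) ^ 2 - 1 := by
  have h1 : 1 ≤ p ^ 2 := Nat.one_le_pow _ _ hp
  have h2 : (p ^ m) ^ 2 = (p ^ 2) ^ m := by rw [← pow_mul, ← pow_mul, mul_comm]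
  have h3 : 1 ≤ (p ^ 2) ^ m := Nat.one_le_pow _ _ h1
  rw [h2, cof]
  zify [h1, h3]
  have h4 := mul_geom_sum ((p : ℤ) ^ 2) m
  rw [h4]

theorem cof_modEq (p m : ℕ) {d : ℕ} (h : p ^ 2 ≡ 1 [MOD d]) : cof p m ≡ m [MOD d] := by
  unfold cof
  induction m with
  | zero => exact Nat.ModEq.refl _
  | succ m ih =>
    rw [sum_range_succ]
    have h1 := (h.pow m)
    rw [one_pow] at h1
    exact ih.add h1

theorem cof_coprime {p m : ℕ} (hp : p.Prime) (hm : m.Prime) (hpm : p ^ 2 ≤ m) :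
    Nat.Coprime (p ^ 2 - 1) (cof p m) := by
  have h1 : p ^ 2 ≡ 1 [MOD (p ^ 2 - 1)] := by
    have h2 : 1 ≤ p ^ 2 := Nat.one_le_pow _ _ hp.pos
    exact ((Nat.modEq_iff_dvd' h2).2 dvd_rfl).symm
  have h3 := cof_modEq p m h1
  have h4 : 4 ≤ p ^ 2 := by nlinarith [hp.two_le]
  have h5 : Nat.Coprime (p ^ 2 - 1) m := by
    rw [Nat.coprime_comm]
    refine (Nat.Prime.coprime_iff_not_dvd hm).2 fun h => ?_
    have := Nat.le_of_dvd (by omega) h
    omega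
  have h6 : Nat.gcd (cof p m) (p ^ 2 - 1) = Nat.gcd m (p ^ 2 - 1) := Nat.ModEq.gcd_eq h3
  rw [Nat.coprime_iff_gcd_eq_one, Nat.gcd_comm, h6, Nat.gcd_comm]
  exact h5

theorem cof_prime_le {p m l : ℕ} (hp : p.Prime) (hm : m.Prime) (hpm : p ^ 2 ≤ m) (hl : l.Prime)
    (hd : l ∣ cof p m) : m + 1 ≤ l := by
  have : Fact l.Prime := ⟨hl⟩
  have h0 : 4 ≤ p ^ 2 := by nlinarith [hp.two_le]
  have h1 : l ∣ (p ^ m) ^ 2 - 1 := by
    rw [← cof_mul p m hp.pos]
    exact Dvd.dvd.mul_left hd _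
  have h2 : ((p ^ 2 : ℕ) : ZMod l) ^ m = 1 := by
    have h3 : (((p ^ m) ^ 2 - 1 : ℕ) : ZMod l) = 0 := (ZMod.natCast_eq_zero_iff _ _).2 h1
    rw [Nat.cast_sub (Nat.one_le_pow _ _ (pow_pos hp.pos m))] at h3
    push_cast at h3 ⊢
    rw [← pow_mul, mul_comm 2 m, pow_mul]
    linear_combination h3
  by_cases h3 : ((p ^ 2 : ℕ) : ZMod l) = 1
  · exfalso
    have h4 : p ^ 2 ≡ 1 [MOD l] := by
      rw [← ZMod.natCast_eq_natCast_iff]
      simpa using h3
    have h5 := cof_modEq p m h4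
    have h6 : l ∣ m := by
      have h7 : m ≡ 0 [MOD l] := h5.symm.trans ((Nat.modEq_zero_iff_dvd).2 hd)
      exact (Nat.modEq_zero_iff_dvd).1 h7
    have h8 : l = m := (Nat.prime_dvd_prime_iff_eq hl hm).1 h6
    have h9 : m ∣ p ^ 2 - 1 := by
      rw [← h8]
      exact (Nat.modEq_iff_dvd' (by omega)).1 h4.symm
    have h10 := Nat.le_of_dvd (by omega) h9
    omega
  · have h4 : orderOf ((p ^ 2 : ℕ) : ZMod l) = m := by
      have : Fact m.Prime := ⟨hm⟩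
      exact orderOf_eq_prime h2 h3
    have h5 : ((p ^ 2 : ℕ) : ZMod l) ≠ 0 := by
      intro h6
      rw [h6, zero_pow hm.ne_zero] at h2
      exact zero_ne_one h2
    have h6 : m ∣ l - 1 := by
      rw [← h4]
      exact ZMod.orderOf_dvd_card_sub_one h5
    have h7 := Nat.le_of_dvd (by have := hl.two_le; omega) h6
    omega

theorem cof_card_primeFactors {p m : ℕ} (hp : p.Prime) (hm : m.Prime) (hpm : p ^ 4 ≤ m) :
    2 * (cof p m).primeFactors.card ≤ m := by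
  have h0 : p ^ 2 ≤ m := (Nat.pow_le_pow_right hp.pos (by norm_num)).trans hpm
  have hcpos : 0 < cof p m := by
    unfold cof
    have := hm.pos
    refine Finset.sum_pos (fun i _ => pow_pos (pow_pos hp.pos 2) i) ⟨0, ?_⟩
    rw [mem_range]
    exact this
  have h1 : ∏ l ∈ (cof p m).primeFactors, (p ^ 4) ≤ ∏ l ∈ (cof p m).primeFactors, l := by
    refine Finset.prod_le_prod' fun l hl => ?_
    have h2 := Nat.mem_primeFactors.1 hl
    have h3 := cof_prime_le hp hm h0 h2.1 h2.2.1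
    omega
  have h2 : ∏ l ∈ (cof p m).primeFactors, l ≤ cof p m :=
    Nat.le_of_dvd hcpos (Nat.prod_primeFactors_dvd _)
  have h3 : cof p m ≤ (p ^ m) ^ 2 := by
    have h4 := cof_mul p m hp.pos
    have h5 : 1 ≤ p ^ 2 - 1 := by
      have : 4 ≤ p ^ 2 := by nlinarith [hp.two_le]
      omega
    have h6 : 1 * cof p m ≤ (p ^ 2 - 1) * cof p m := Nat.mul_le_mul_right _ h5
    omega
  rw [Finset.prod_const] at h1
  have h4 : p ^ (4 * (cof p m).primeFactors.card) ≤ p ^ (m * 2) := by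
    rw [pow_mul, pow_mul]
    exact h1.trans (h2.trans h3)
  have h5 := (Nat.pow_le_pow_iff_right hp.one_lt).1 h4
  omega

end Pool.Agent.Lib.MP_2a564b_nt
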