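import Mathlib

set_option autoImplicit false

/-!
# The multiplicative Sidon set `{y | y + y ^ q = τ}` in the field with `q ^ 2` elements
-/

namespace Pool.Agent.Lib.MP_2a564b_nt

open Finset

/-- The line `y + y ^ q = τ`. -/
noncomputable def lineSet (K : Type*) [Field K] [Fintype K] [DecidableEq K] (q : ℕ) (τ : K) :
    Finset K :=
  univ.filter fun y : K => y + y ^ q = τ

theorem mem_lineSet {K : Type*} [Field K] [Fintype K] [DecidableEq K] {q : ℕ} {τ y : K} :
    y ∈ lineSet K q τ ↔ y + y ^ q = τ := by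
  rw [lineSet, mem_filter]
  exact ⟨fun h => h.2, fun h => ⟨mem_univ _, h⟩⟩

/-- Each line has at most `q` elements. -/
theorem lineSet_card_le {K : Type*} [Field K] [Fintype K] [DecidableEq K] {q : ℕ} (hq : 2 ≤ q)
    (τ : K) : (lineSet K q τ).card ≤ q := by
  classical
  set P : Polynomial K := Polynomial.X ^ q + (Polynomial.X - Polynomial.C τ) with hP
  have hdeg : (Polynomial.X - Polynomial.C τ : Polynomial K).degree < (q : WithBot ℕ) := by
    rw [Polynomial.degree_X_sub_C]
    exact_mod_cast (by omega : 1 < q)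
  have hmonic : P.Monic := Polynomial.monic_X_pow_add hdeg
  have hnat : P.natDegree = q := by
    rw [hP]
    have h1 : (Polynomial.X ^ q + (Polynomial.X - Polynomial.C τ) : Polynomial K).degree = q := by
      rw [Polynomial.degree_add_eq_left_of_degree_lt, Polynomial.degree_X_pow]
      rwa [Polynomial.degree_X_pow]
    exact Polynomial.natDegree_eq_of_degree_eq_some h1
  have h1 : lineSet K q τ ⊆ P.roots.toFinset := by
    intro y hy
    rw [mem_lineSet] at hy
    rw [Multiset.mem_toFinset, Polynomial.mem_roots hmonic.ne_zero, Polynomial.IsRoot.def, hP]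
    simp only [Polynomial.eval_add, Polynomial.eval_pow, Polynomial.eval_X, Polynomial.eval_sub,
      Polynomial.eval_C]
    rw [← hy]
    ring
  calc (lineSet K q τ).card ≤ P.roots.toFinset.card := Finset.card_le_card h1
    _ ≤ Multiset.card P.roots := P.roots.toFinset_card_le
    _ ≤ P.natDegree := P.card_roots'
    _ = q := hnat

/-- At most `q` elements are fixed by the `q`-th power map. -/
theorem fixed_card_le {K : Type*} [Field K] [Fintype K] [DecidableEq K] {q : ℕ} (hq : 2 ≤ q) :
    (univ.filter fun x : K => x ^ q = x).card ≤ q := by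
  classical
  set P : Polynomial K := Polynomial.X ^ q + (-Polynomial.X) with hP
  have hdeg : (-Polynomial.X : Polynomial K).degree < (q : WithBot ℕ) := by
    rw [Polynomial.degree_neg, Polynomial.degree_X]
    exact_mod_cast (by omega : 1 < q)
  have hmonic : P.Monic := Polynomial.monic_X_pow_add hdeg
  have hnat : P.natDegree = q := by
    rw [hP]
    have h1 : (Polynomial.X ^ q + (-Polynomial.X) : Polynomial K).degree = q := by
      rw [Polynomial.degree_add_eq_left_of_degree_lt, Polynomial.degree_X_pow]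
      rwa [Polynomial.degree_X_pow]
    exact Polynomial.natDegree_eq_of_degree_eq_some h1
  have h1 : (univ.filter fun x : K => x ^ q = x) ⊆ P.roots.toFinset := by
    intro y hy
    rw [mem_filter] at hy
    rw [Multiset.mem_toFinset, Polynomial.mem_roots hmonic.ne_zero, Polynomial.IsRoot.def, hP]
    simp only [Polynomial.eval_add, Polynomial.eval_pow, Polynomial.eval_X, Polynomial.eval_neg]
    rw [hy.2]
    ring
  calc _ ≤ P.roots.toFinset.card := Finset.card_le_card h1
    _ ≤ Multiset.card P.roots := P.roots.toFinset_card_le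
    _ ≤ P.natDegree := P.card_roots'
    _ = q := hnat

/-- A line through an element fixed by the `q`-th power map has exactly `q` elements. -/
theorem lineSet_card {K : Type*} [Field K] [Fintype K] [DecidableEq K] {p m : ℕ} [Fact p.Prime]
    [CharP K p] (hm : m ≠ 0) (hK : Fintype.card K = (p ^ m) ^ 2) {τ : K}
    (hτ : τ ^ (p ^ m) = τ) : (lineSet K (p ^ m) τ).card = p ^ m := by
  classical
  have hp : 2 ≤ p := (Fact.out : p.Prime).two_le
  have hq : 2 ≤ p ^ m := hp.trans (Nat.le_self_pow hm p)
  set q := p ^ m with hqdef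
  set R : Finset K := univ.filter fun x : K => x ^ q = x with hR
  have hmaps : ∀ y ∈ (univ : Finset K), y + y ^ q ∈ R := by
    intro y _
    rw [hR, mem_filter]
    refine ⟨mem_univ _, ?_⟩
    rw [hqdef, add_pow_char_pow, ← pow_mul, ← hqdef, ← sq, ← hK, FiniteField.pow_card, add_comm]
  have h1 : (univ : Finset K).card = ∑ j ∈ R, (lineSet K q j).card := by
    rw [Finset.card_eq_sum_card_fiberwise (fun y hy => Finset.mem_coe.2 (hmaps y hy))]
    rfl
  have hτR : τ ∈ R := by
    rw [hR, mem_filter]
    exact ⟨mem_univ _, hτ⟩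
  refine le_antisymm (lineSet_card_le hq τ) ?_
  by_contra hlt
  push Not at hlt
  have h2 : ∑ j ∈ R, (lineSet K q j).card < ∑ _j ∈ R, q :=
    Finset.sum_lt_sum (fun j _ => lineSet_card_le hq j) ⟨τ, hτR, hlt⟩
  rw [← h1, Finset.sum_const, smul_eq_mul, Finset.card_univ, hK] at h2
  have h3 : R.card ≤ q := fixed_card_le hq
  have h4 : R.card * q ≤ q * q := Nat.mul_le_mul_right q h3
  rw [sq] at h2
  omega

/-- The line is a multiplicative Sidon set. -/
theorem lineSet_sidon {K : Type*} [Field K] [Fintype K] [DecidableEq K] {q : ℕ} {τ : K}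
    (hτ : τ ≠ 0) {a b c d : K} (ha : a ∈ lineSet K q τ) (hb : b ∈ lineSet K q τ)
    (hc : c ∈ lineSet K q τ) (hd : d ∈ lineSet K q τ) (h : a * b = c * d) :
    (a = c ∧ b = d) ∨ (a = d ∧ b = c) := by
  rw [mem_lineSet] at ha hb hc hd
  have ha' : a ^ q = τ - a := by rw [← ha]; ring
  have hb' : b ^ q = τ - b := by rw [← hb]; ring
  have hc' : c ^ q = τ - c := by rw [← hc]; ring
  have hd' : d ^ q = τ - d := by rw [← hd]; ring
  have h1 : (τ - a) * (τ - b) = (τ - c) * (τ - d) := by
    rw [← ha', ← hb', ← hc', ← hd', ← mul_pow, ← mul_pow, h]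
  have h2 : τ * (a + b) = τ * (c + d) := by
    have h3 : τ * (a + b) - τ * (c + d) = (τ - c) * (τ - d) - (τ - a) * (τ - b) +
      (a * b - c * d) := by ring
    rw [← h1, h] at h3
    rw [← sub_eq_zero, h3]
    ring
  have h3 : a + b = c + d := mul_left_cancel₀ hτ h2
  have h4 : (a - c) * (a - d) = 0 := by
    have h5 : (a - c) * (a - d) = a * a - a * (c + d) + c * d := by ring
    rw [h5, ← h3, ← h]
    ring
  rcases mul_eq_zero.1 h4 with h5 | h5
  · left
    have h6 : a = c := sub_eq_zero.1 h5
    refine ⟨h6, ?_⟩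
    rw [h6] at h3
    exact add_left_cancel h3
  · right
    have h6 : a = d := sub_eq_zero.1 h5
    refine ⟨h6, ?_⟩
    rw [h6, add_comm c d] at h3
    exact add_left_cancel h3

/-- The line is stable under the Frobenius map. -/
theorem lineSet_frob {K : Type*} [Field K] [Fintype K] [DecidableEq K] {p q : ℕ} [Fact p.Prime]
    [CharP K p] {τ : K} (hτ : τ ^ p = τ) {y : K} (hy : y ∈ lineSet K q τ) (i : ℕ) :
    y ^ (p ^ i) ∈ lineSet K q τ := by
  induction i with
  | zero => simpa using hy
  | succ i ih =>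
    rw [mem_lineSet] at ih ⊢
    rw [pow_succ p i, pow_mul]
    have h1 : (y ^ p ^ i + (y ^ p ^ i) ^ q) ^ p = τ := by rw [ih, hτ]
    rw [add_pow_char] at h1
    rw [← pow_mul (y ^ p ^ i) p q, mul_comm p q, pow_mul (y ^ p ^ i) q p]
    exact h1

/-- The line does not contain zero. -/
theorem lineSet_ne_zero {K : Type*} [Field K] [Fintype K] [DecidableEq K] {q : ℕ} (hq : q ≠ 0)
    {τ : K} (hτ : τ ≠ 0) {y : K} (hy : y ∈ lineSet K q τ) : y ≠ 0 := by
  rintro rfl
  rw [mem_lineSet, zero_pow hq, add_zero] at hy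
  exact hτ hy.symm

end Pool.Agent.Lib.MP_2a564b_nt
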