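import Pool.Agent.Lib.MP_2a564b_nt.Sieve

set_option autoImplicit false

/-!
# Assembly
-/

namespace Pool.Agent.Lib.MP_2a564b_nt

open Finset

/-- The combinatorial part: a generator with the prescribed values on the line gives the
extension. -/
theorem extension_of_generator {K : Type*} [Field K] [DecidableEq K] {q : ℕ} {L : Finset K}
    (hq : 2 ≤ q) (hL0 : (0 : K) ∉ L) (hcard : L.card = q)
    (hLs : ∀ a ∈ L, ∀ b ∈ L, ∀ c ∈ L, ∀ d ∈ L, a * b = c * d →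
      (a = c ∧ b = d) ∨ (a = d ∧ b = c))
    (η : Kˣ) (hord : orderOf η = q ^ 2 - 1) (hgen : ∀ y : Kˣ, y ∈ Subgroup.zpowers η)
    (t : ℤ) (A : Finset ℕ) (hne : A.Nonempty) (hA0 : 0 ∉ A)
    (hA : ∀ a ∈ A, ((η ^ ((a : ℤ) - t) : Kˣ) : K) ∈ L)
    (hM : A.max' hne < q ^ 2 - 1) :
    ∃ B : Finset ℕ, A ⊆ B ∧ 0 ∉ B ∧
      (∀ a ∈ B, ∀ b ∈ B, ∀ c ∈ B, ∀ d ∈ B, a + b = c + d →
        (a = c ∧ b = d) ∨ (a = d ∧ b = c)) ∧
      (∀ b ∈ B, b ∉ A → ∀ a ∈ A, a < b) ∧ q ≤ B.card + A.max' hne ∧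
      ∀ b ∈ B, b ≤ A.max' hne + q ^ 2 := by
  classical
  set M := A.max' hne with hMdef
  set mA := A.min' hne with hmA
  set N := q ^ 2 - 1 with hN
  have hNpos : 0 < N := by
    have : 2 ^ 2 ≤ q ^ 2 := Nat.pow_le_pow_left hq 2
    omega
  have hmA0 : 0 < mA := by
    rcases Nat.eq_zero_or_pos mA with h | h
    · exfalso
      apply hA0
      rw [← h, hmA]
      exact A.min'_mem hne
    · exact h
  have hmM : mA ≤ M := A.min'_le_max' hne
  set W : Finset ℕ := (Finset.Ico mA (mA + N)).filter fun x =>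
    ((η ^ ((x : ℤ) - t) : Kˣ) : K) ∈ L with hW
  have hAW : A ⊆ W := by
    intro a ha
    rw [hW, mem_filter, mem_Ico]
    have h1 := A.min'_le a ha
    have h2 := A.le_max' a ha
    refine ⟨⟨h1, ?_⟩, hA a ha⟩
    omega
  set B : Finset ℕ := A ∪ W.filter fun x => M < x with hB
  have hBW : B ⊆ W := by
    rw [hB]
    exact union_subset hAW (filter_subset _ _)
  have hinj : ∀ a ∈ W, ∀ b ∈ W, ((η ^ ((a : ℤ) - t) : Kˣ) : K) = ((η ^ ((b : ℤ) - t) : Kˣ) : K) →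
      a = b := by
    intro a ha b hb h
    rw [hW, mem_filter, mem_Ico] at ha hb
    have h1 : (η ^ ((a : ℤ) - t) : Kˣ) = η ^ ((b : ℤ) - t) := Units.ext h
    rw [zpow_eq_zpow_iff_modEq, hord] at h1
    have h2 : (a : ℤ) ≡ b [ZMOD (N : ℤ)] := by
      have h3 := h1.add_right t
      simpa using h3
    have h3 : ((a : ℤ) - mA) ≡ ((b : ℤ) - mA) [ZMOD (N : ℤ)] := h2.sub_right _
    have h4 : ((a : ℤ) - mA) % N = (a : ℤ) - mA := by
      apply Int.emod_eq_of_lt <;> omega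
    have h5 : ((b : ℤ) - mA) % N = (b : ℤ) - mA := by
      apply Int.emod_eq_of_lt <;> omega
    have h6 : ((a : ℤ) - mA) % N = ((b : ℤ) - mA) % N := h3
    rw [h4, h5] at h6
    omega
  have hWcard : q ≤ W.card := by
    rw [← hcard]
    apply Finset.card_le_card_of_surjOn (fun x : ℕ => ((η ^ ((x : ℤ) - t) : Kˣ) : K))
    intro y hy
    have hy' : y ∈ L := hy
    have hy0 : y ≠ 0 := fun h => hL0 (h ▸ hy')
    obtain ⟨k, hk⟩ := Subgroup.mem_zpowers_iff.1 (hgen (Units.mk0 y hy0))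
    set r : ℤ := (k + t - mA) % N with hr
    have hr0 : 0 ≤ r := Int.emod_nonneg _ (by exact_mod_cast hNpos.ne')
    have hr1 : r < N := Int.emod_lt_of_pos _ (by exact_mod_cast hNpos)
    have hval : ((η ^ (((mA + r.toNat : ℕ) : ℤ) - t) : Kˣ) : K) = y := by
      have h1 : (η ^ (((mA + r.toNat : ℕ) : ℤ) - t) : Kˣ) = η ^ k := by
        rw [zpow_eq_zpow_iff_modEq, hord]
        push_cast
        rw [Int.toNat_of_nonneg hr0]
        have h2 : r ≡ k + t - mA [ZMOD (N : ℤ)] := Int.mod_modEq _ _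
        have h3 := (h2.add_left (mA : ℤ)).sub_right t
        have h4 : (mA : ℤ) + (k + t - mA) - t = k := by ring
        rw [h4] at h3
        exact h3
      rw [h1, hk]
      rfl
    refine ⟨mA + r.toNat, ?_, hval⟩
    rw [Finset.mem_coe, hW, mem_filter, mem_Ico, hval]
    refine ⟨⟨?_, ?_⟩, hy'⟩
    · omega
    · omega
  refine ⟨B, subset_union_left, ?_, ?_, ?_, ?_, ?_⟩
  · intro h0
    have h1 := hBW h0
    rw [hW, mem_filter, mem_Ico] at h1
    omega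
  · intro a ha b hb c hc d hd h
    have ha' := hBW ha
    have hb' := hBW hb
    have hc' := hBW hc
    have hd' := hBW hd
    have h1 : ((η ^ ((a : ℤ) - t) : Kˣ) : K) * ((η ^ ((b : ℤ) - t) : Kˣ) : K) =
        ((η ^ ((c : ℤ) - t) : Kˣ) : K) * ((η ^ ((d : ℤ) - t) : Kˣ) : K) := by
      rw [← Units.val_mul, ← Units.val_mul, ← zpow_add, ← zpow_add]
      have h2 : (a : ℤ) - t + ((b : ℤ) - t) = (c : ℤ) - t + ((d : ℤ) - t) := by
        have h3 : (a : ℤ) + b = c + d := by exact_mod_cast h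
        linarith
      rw [h2]
    have ha2 := (mem_filter.1 ha').2
    have hb2 := (mem_filter.1 hb').2
    have hc2 := (mem_filter.1 hc').2
    have hd2 := (mem_filter.1 hd').2
    rcases hLs _ ha2 _ hb2 _ hc2 _ hd2 h1 with h2 | h2
    · left
      exact ⟨hinj a ha' c hc' h2.1, hinj b hb' d hd' h2.2⟩
    · right
      exact ⟨hinj a ha' d hd' h2.1, hinj b hb' c hc' h2.2⟩
  · intro b hb hbA a ha
    rw [hB, mem_union, mem_filter] at hb
    rcases hb with hb | hb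
    · exact absurd hb hbA
    · exact lt_of_le_of_lt (A.le_max' a ha) hb.2
  · have h1 : W ⊆ B ∪ Finset.Icc 1 M := by
      intro x hx
      rw [mem_union]
      by_cases hxM : M < x
      · left
        rw [hB, mem_union, mem_filter]
        exact Or.inr ⟨hx, hxM⟩
      · right
        rw [hW, mem_filter, mem_Ico] at hx
        rw [mem_Icc]
        omega
    have h2 := (Finset.card_le_card h1).trans (Finset.card_union_le _ _)
    rw [Nat.card_Icc] at h2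
    omega
  · intro b hb
    have h1 := hBW hb
    rw [hW, mem_filter, mem_Ico] at h1
    omega

theorem two_pow_ge (m : ℕ) (hm : 16 ≤ m) : m * (m + 2) ^ 2 ≤ 2 ^ m := by
  induction m, hm using Nat.le_induction with
  | base => norm_num
  | succ k hk ih =>
    rw [pow_succ 2 k]
    nlinarith

/-- In the field with `p ^ (2 m)` elements there is a multiplicative Sidon set with `p ^ m`
nonzero elements which is stable under `y ↦ y ^ b` and contains `1` if `b` is not `2`. -/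
theorem exists_stable {K : Type*} [Field K] [Fintype K] [DecidableEq K] {p m b : ℕ}
    [Fact p.Prime] [CharP K p] (hmo : Odd m) (hK : Fintype.card K = (p ^ m) ^ 2)
    (hb : b = p ∨ (p = 2 ∧ b = 4)) :
    ∃ L : Finset K, (0 : K) ∉ L ∧ L.card = p ^ m ∧
      (∀ a ∈ L, ∀ b ∈ L, ∀ c ∈ L, ∀ d ∈ L, a * b = c * d →
        (a = c ∧ b = d) ∨ (a = d ∧ b = c)) ∧
      (∀ y ∈ L, ∀ i : ℕ, y ^ (b ^ i) ∈ L) ∧ (b ≠ 2 → (1 : K) ∈ L) := by
  have hp : p.Prime := Fact.out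
  have hp2 := hp.two_le
  have hm0 : m ≠ 0 := by
    rintro rfl
    simp at hmo
  have hqpos : p ^ m ≠ 0 := (pow_pos hp.pos m).ne'
  have hfix : ∀ τ : K, τ ^ p = τ → ∀ k : ℕ, τ ^ (p ^ k) = τ := by
    intro τ hτ k
    induction k with
    | zero => simp
    | succ k ih => rw [pow_succ, pow_mul, ih, hτ]
  rcases hb with rfl | ⟨rfl, rfl⟩
  · obtain ⟨τ, hτ0, hτp, hτ1⟩ : ∃ τ : K, τ ≠ 0 ∧ τ ^ b = τ ∧
        (b ≠ 2 → (1 : K) + 1 ^ (b ^ m) = τ) := by
      by_cases hp2' : b = 2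
      · exact ⟨1, one_ne_zero, one_pow _, fun h => absurd hp2' h⟩
      · refine ⟨1 + 1, ?_, ?_, fun _ => by rw [one_pow]⟩
        · intro h
          have h1 : ((2 : ℕ) : K) = 0 := by
            push_cast
            rw [← one_add_one_eq_two]
            exact h
          rw [CharP.cast_eq_zero_iff K b] at h1
          have h2 := Nat.le_of_dvd (by norm_num) h1
          omega
        · rw [add_pow_char, one_pow]
    refine ⟨lineSet K (b ^ m) τ, fun h => lineSet_ne_zero hqpos hτ0 h rfl,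
      lineSet_card hm0 hK (hfix τ hτp m),
      fun a ha b hb c hc d hd h => lineSet_sidon hτ0 ha hb hc hd h,
      fun y hy i => lineSet_frob hτp hy i, fun h => mem_lineSet.2 (hτ1 h)⟩
  · -- the field has an element of order three
    have h3 : 3 ∣ Fintype.card Kˣ := by
      rw [Fintype.card_units, hK]
      have h4 : ∀ k : ℕ, 3 ∣ (2 ^ k) ^ 2 - 1 := by
        intro k
        have h5 : (2 ^ k) ^ 2 = 4 ^ k := by rw [← pow_mul, mul_comm, pow_mul]; norm_num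
        rw [h5]
        have h6 : 4 ^ k ≡ 1 [MOD 3] := by
          have h7 : 4 ≡ 1 [MOD 3] := by decide
          simpa using h7.pow k
        exact (Nat.modEq_iff_dvd' (Nat.one_le_pow _ _ (by norm_num))).1 h6.symm
      exact h4 m
    have : Fact (Nat.Prime 3) := ⟨Nat.prime_three⟩
    obtain ⟨β, hβ⟩ := exists_prime_orderOf_dvd_card 3 h3
    have hβ3 : (β : K) ^ 3 = 1 := by
      have h1 := pow_orderOf_eq_one β
      rw [hβ] at h1
      rw [← Units.val_pow_eq_pow_val, h1, Units.val_one]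
    have hβ1 : (β : K) ≠ 1 := by
      intro h
      have h1 : β = 1 := Units.ext h
      rw [h1, orderOf_one] at hβ
      omega
    have hβ0 : (β : K) ≠ 0 := β.ne_zero
    have hpow : ∀ k : ℕ, (β : K) ^ (3 * k) = 1 := by
      intro k
      rw [pow_mul, hβ3, one_pow]
    have hβq : (β : K) ^ (2 ^ m) = (β : K) ^ 2 := by
      obtain ⟨j, hj⟩ := hmo
      have h1 : 4 ^ j ≡ 1 [MOD 3] := by
        have h7 : 4 ≡ 1 [MOD 3] := by decide
        simpa using h7.pow j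
      obtain ⟨k, hk⟩ := (Nat.modEq_iff_dvd' (Nat.one_le_pow _ _ (by norm_num))).1 h1.symm
      have h2 : 2 ^ m = 3 * (2 * k) + 2 := by
        rw [hj, pow_succ, pow_mul]
        norm_num
        have : 1 ≤ 4 ^ j := Nat.one_le_pow _ _ (by norm_num)
        omega
      rw [h2, pow_add, hpow, one_mul]
    have hβsum : (β : K) + (β : K) ^ (2 ^ m) = 1 := by
      rw [hβq]
      have h1 : ((β : K) - 1) * (β ^ 2 + β + 1) = 0 := by
        have h2 : ((β : K) - 1) * (β ^ 2 + β + 1) = β ^ 3 - 1 := by ring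
        rw [h2, hβ3, sub_self]
      rcases mul_eq_zero.1 h1 with h2 | h2
      · exact absurd (sub_eq_zero.1 h2) hβ1
      · have h3 : (2 : K) = 0 := CharTwo.two_eq_zero
        linear_combination h2 - h3
    have hβ4 : ∀ i : ℕ, (β : K) ^ (4 ^ i) = β := by
      intro i
      have h1 : 4 ^ i ≡ 1 [MOD 3] := by
        have h7 : 4 ≡ 1 [MOD 3] := by decide
        simpa using h7.pow i
      obtain ⟨k, hk⟩ := (Nat.modEq_iff_dvd' (Nat.one_le_pow _ _ (by norm_num))).1 h1.symm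
      have h2 : 4 ^ i = 3 * k + 1 := by
        have : 1 ≤ 4 ^ i := Nat.one_le_pow _ _ (by norm_num)
        omega
      rw [h2, pow_add, hpow, one_mul, pow_one]
    have hτp : (1 : K) ^ 2 = 1 := one_pow 2
    refine ⟨univ.filter fun y : K => (β : K) * y ∈ lineSet K (2 ^ m) 1, ?_, ?_, ?_, ?_, ?_⟩
    · rw [mem_filter, mul_zero]
      exact fun h => lineSet_ne_zero hqpos one_ne_zero h.2 rfl
    · refine Eq.trans ?_ (lineSet_card (p := 2) hm0 hK (hfix (1 : K) hτp m))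
      refine Finset.card_bij (fun y _ => (β : K) * y) ?_ ?_ ?_
      · intro y hy
        exact (mem_filter.1 hy).2
      · intro a _ b _ h
        exact mul_left_cancel₀ hβ0 h
      · intro z hz
        refine ⟨(β : K)⁻¹ * z, ?_, mul_inv_cancel_left₀ hβ0 z⟩
        rw [mem_filter, mul_inv_cancel_left₀ hβ0 z]
        exact ⟨mem_univ _, hz⟩
    · intro a ha b hb c hc d hd h
      rw [mem_filter] at ha hb hc hd
      have h1 : (β : K) * a * (β * b) = β * c * (β * d) := by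
        linear_combination (β : K) ^ 2 * h
      rcases lineSet_sidon one_ne_zero ha.2 hb.2 hc.2 hd.2 h1 with h2 | h2
      · exact Or.inl ⟨mul_left_cancel₀ hβ0 h2.1, mul_left_cancel₀ hβ0 h2.2⟩
      · exact Or.inr ⟨mul_left_cancel₀ hβ0 h2.1, mul_left_cancel₀ hβ0 h2.2⟩
    · intro y hy i
      rw [mem_filter] at hy ⊢
      refine ⟨mem_univ _, ?_⟩
      have h1 : (β : K) * y ^ (4 ^ i) = (β * y) ^ (2 ^ (2 * i)) := by
        rw [mul_pow, pow_mul 2 2 i, show (2 : ℕ) ^ 2 = 4 by norm_num, hβ4]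
      rw [h1]
      exact lineSet_frob hτp hy.2 (2 * i)
    · intro _
      rw [mem_filter, mul_one, mem_lineSet]
      exact ⟨mem_univ _, hβsum⟩

/-- The theorem for nonempty `A`, for a given large field. -/
theorem main_field {K : Type*} [Field K] [Fintype K] [DecidableEq K] {p m b : ℕ} [Fact p.Prime]
    [CharP K p] (hb : b = p ∨ (p = 2 ∧ b = 4)) (hm : m.Prime) (hK : Fintype.card K = (p ^ m) ^ 2)
    (c t : ℤ) (hc : c ≠ 0) (A : Finset ℕ) (hA0 : 0 ∉ A) (hne : A.Nonempty)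
    (hA : ∀ a ∈ A, (∃ i : ℕ, (a : ℤ) = t + c * (b : ℤ) ^ i) ∨ (b ≠ 2 ∧ (a : ℤ) = t))
    (hm16 : 16 ≤ m) (hmp : p ^ 4 ≤ m) (hmc : c.natAbs ≤ m) (hmM : A.max' hne + 2 ≤ p ^ m) :
    ∃ B : Finset ℕ, A ⊆ B ∧ 0 ∉ B ∧
      (∀ a ∈ B, ∀ b ∈ B, ∀ c ∈ B, ∀ d ∈ B, a + b = c + d →
        (a = c ∧ b = d) ∨ (a = d ∧ b = c)) ∧
      (∀ b ∈ B, b ∉ A → ∀ a ∈ A, a < b) ∧ p ^ m ≤ B.card + A.max' hne ∧
      ∀ b ∈ B, b ≤ A.max' hne + (p ^ m) ^ 2 := by
  classical
  have hp : p.Prime := Fact.out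
  have hp2 := hp.two_le
  have h2pm : 2 ^ m ≤ p ^ m := Nat.pow_le_pow_left hp2 m
  have hm2 : m < 2 ^ m := Nat.lt_two_pow_self
  have hbig : p ^ 4 * (m + 2) ^ 2 ≤ p ^ m := by
    refine le_trans ?_ ((two_pow_ge m (by omega)).trans h2pm)
    exact Nat.mul_le_mul_right _ (by omega)
  have hmo : Odd m := hm.odd_of_ne_two (by omega)
  obtain ⟨L, hL0, hLcard, hLs, hLb, hL1⟩ := exists_stable (K := K) (p := p) (m := m) hmo hK hb
  set M := A.max' hne with hM
  set q := p ^ m with hq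
  have hq2 : 2 ≤ q := by omega
  obtain ⟨η, hη, hηc⟩ := exists_generator (K := K) (p := p) (m := m) hm (by omega) hbig hK hL0
    hLcard hLs c hc (by omega)
  have hgen : ∀ y : Kˣ, y ∈ Subgroup.zpowers η := by
    intro y
    have h1 : orderOf η = Nat.card Kˣ := by
      rw [hη, Nat.card_eq_fintype_card, Fintype.card_units, hK]
    have h2 : Subgroup.zpowers η = ⊤ := by
      apply Subgroup.eq_top_of_card_eq
      rw [Nat.card_zpowers, h1]
    rw [h2]
    exact Subgroup.mem_top y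
  have hAL : ∀ a ∈ A, ((η ^ ((a : ℤ) - t) : Kˣ) : K) ∈ L := by
    intro a ha
    rcases hA a ha with ⟨i, hi⟩ | ⟨h2, hi⟩
    · have h1 : (a : ℤ) - t = c * ((b ^ i : ℕ) : ℤ) := by
        rw [hi]
        push_cast
        ring
      rw [h1, zpow_mul, zpow_natCast, Units.val_pow_eq_pow_val]
      exact hLb _ hηc i
    · rw [hi, sub_self, zpow_zero, Units.val_one]
      exact hL1 h2
  have hMq : M < q ^ 2 - 1 := by
    have h2 : q * 2 ≤ q ^ 2 := by
      rw [sq]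
      exact Nat.mul_le_mul_left q hq2
    omega
  exact extension_of_generator hq2 hL0 hLcard hLs η hη hgen t A hne hA0 hAL hMq

/-- The theorem for nonempty `A`. -/
theorem main_nonempty (b : ℕ) (hb : b.Prime ∨ b = 4) (c t : ℤ) (hc : c ≠ 0) (A : Finset ℕ)
    (hA0 : 0 ∉ A) (hne : A.Nonempty)
    (hA : ∀ a ∈ A, (∃ i : ℕ, (a : ℤ) = t + c * (b : ℤ) ^ i) ∨ (b ≠ 2 ∧ (a : ℤ) = t))
    (ε : ℝ) (hε : 0 < ε) (N0 : ℕ) : ∃ n : ℕ, N0 ≤ n ∧
      ∃ B : Finset ℕ, A ⊆ B ∧ 0 ∉ B ∧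
        (∀ a ∈ B, ∀ b ∈ B, ∀ c ∈ B, ∀ d ∈ B, a + b = c + d →
          (a = c ∧ b = d) ∨ (a = d ∧ b = c)) ∧
        (∀ b ∈ B, b ∉ A → ∀ a ∈ A, a < b) ∧ B.card = n ∧
        ∀ b ∈ B, (b : ℝ) ≤ (1 + ε) * (n : ℝ) ^ 2 := by
  classical
  obtain ⟨p, hp, hb⟩ : ∃ p : ℕ, p.Prime ∧ (b = p ∨ (p = 2 ∧ b = 4)) := by
    rcases hb with hb | hb
    · exact ⟨b, hb, Or.inl rfl⟩
    · exact ⟨2, Nat.prime_two, Or.inr ⟨rfl, hb⟩⟩
  obtain ⟨m, hm1, hm⟩ := Nat.exists_infinite_primes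
    (p ^ 4 + c.natAbs + 16 + N0 + A.max' hne + ⌈(3 + 2 * ε) * (A.max' hne : ℕ) / ε⌉₊)
  have hp2 := hp.two_le
  have h2pm : 2 ^ m ≤ p ^ m := Nat.pow_le_pow_left hp2 m
  have hm2 : m < 2 ^ m := Nat.lt_two_pow_self
  have : Fact p.Prime := ⟨hp⟩
  have hfin : Finite (GaloisField p (2 * m)) := inferInstance
  obtain ⟨hft⟩ := nonempty_fintype (GaloisField p (2 * m))
  have hK : Fintype.card (GaloisField p (2 * m)) = (p ^ m) ^ 2 := by
    rw [← Nat.card_eq_fintype_card, GaloisField.card p (2 * m) (by omega), ← pow_mul, mul_comm]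
  obtain ⟨B, hB1, hB2, hB3, hB4, hB5, hB6⟩ := main_field hb hm hK c t hc A hA0 hne hA (by omega)
    (by omega) (by omega) (by omega)
  set M := A.max' hne with hM
  set q := p ^ m with hq
  refine ⟨B.card, by omega, B, hB1, hB2, hB3, hB4, rfl, ?_⟩
  intro b hb
  have h1 : (b : ℝ) ≤ M + (q : ℝ) ^ 2 := by exact_mod_cast hB6 b hb
  have h2 : (q : ℝ) ≤ B.card + M := by exact_mod_cast hB5
  have h3 : (3 + 2 * ε) * M / ε ≤ q := by
    refine (Nat.le_ceil _).trans ?_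
    exact_mod_cast (by omega : ⌈(3 + 2 * ε) * M / ε⌉₊ ≤ q)
  rw [div_le_iff₀ hε] at h3
  have h4 : (1 : ℝ) ≤ q := by exact_mod_cast (by omega : 1 ≤ q)
  have h5 : (M : ℝ) ≤ q := by exact_mod_cast (by omega : M ≤ q)
  have h6 : (0 : ℝ) ≤ M := by positivity
  have h7 : (0 : ℝ) ≤ (q : ℝ) - M := by linarith
  have h8 : ((q : ℝ) - M) ^ 2 ≤ (B.card : ℝ) ^ 2 := by
    apply pow_le_pow_left₀ h7
    linarith
  have h9 : (M : ℝ) + (q : ℝ) ^ 2 ≤ (1 + ε) * ((q : ℝ) - M) ^ 2 := by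
    nlinarith [mul_nonneg h6 h6, mul_le_mul_of_nonneg_left h3 (by linarith : (0 : ℝ) ≤ q),
      mul_nonneg h6 (by linarith : (0 : ℝ) ≤ (q : ℝ) - 1), mul_nonneg hε.le (mul_nonneg h6 h6)]
  calc (b : ℝ) ≤ M + (q : ℝ) ^ 2 := h1
    _ ≤ (1 + ε) * ((q : ℝ) - M) ^ 2 := h9
    _ ≤ (1 + ε) * (B.card : ℝ) ^ 2 := by
      apply mul_le_mul_of_nonneg_left h8
      linarith

/-- The theorem. -/
theorem main_theorem (b : ℕ) (hb : b.Prime ∨ b = 4) (c t : ℤ) (hc : c ≠ 0) (A : Finset ℕ)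
    (hA0 : 0 ∉ A)
    (hA : ∀ a ∈ A, (∃ i : ℕ, (a : ℤ) = t + c * (b : ℤ) ^ i) ∨ (b ≠ 2 ∧ (a : ℤ) = t))
    (ε : ℝ) (hε : 0 < ε) (N0 : ℕ) : ∃ n : ℕ, N0 ≤ n ∧
      ∃ B : Finset ℕ, A ⊆ B ∧ 0 ∉ B ∧
        (∀ a ∈ B, ∀ b ∈ B, ∀ c ∈ B, ∀ d ∈ B, a + b = c + d →
          (a = c ∧ b = d) ∨ (a = d ∧ b = c)) ∧
        (∀ b ∈ B, b ∉ A → ∀ a ∈ A, a < b) ∧ B.card = n ∧
        ∀ b ∈ B, (b : ℝ) ≤ (1 + ε) * (n : ℝ) ^ 2 := by
  rcases A.eq_empty_or_nonempty with h | hne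
  · obtain ⟨n, hn, B, -, hB2, hB3, -, hB5, hB6⟩ := main_nonempty b hb 1 0 one_ne_zero {1}
      (by simp) (by simp) (fun a ha => Or.inl ⟨0, by
        rw [mem_singleton] at ha
        rw [ha]
        simp⟩) ε hε N0
    refine ⟨n, hn, B, ?_, hB2, hB3, ?_, hB5, hB6⟩
    · rw [h]
      exact empty_subset _
    · intro b _ _ a ha
      rw [h] at ha
      exact absurd ha (notMem_empty a)
  · exact main_nonempty b hb c t hc A hA0 hne hA ε hε N0

end Pool.Agent.Lib.MP_2a564b_nt
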