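import Mathlib
set_option autoImplicit false

namespace Pool.Agent.Lib.MP_2a564b_nt.Near

open Finset

variable {v : ℕ} [NeZero v]

/-- Differences of distinct elements are distinct. -/
def SidonMod (T : Finset (ZMod v)) : Prop :=
  ∀ a ∈ T, ∀ b ∈ T, ∀ c ∈ T, ∀ d ∈ T, a ≠ b → a - b = c - d → a = c ∧ b = d

/-- `T` is a Sidon set modulo `v` whose missing differences are exactly the set `H`. -/
structure PD (T H : Finset (ZMod v)) : Prop where
  sidon : SidonMod T
  zero : (0 : ZMod v) ∉ H
  avoid : ∀ a ∈ T, ∀ b ∈ T, a - b ∉ H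
  card : T.card * T.card + H.card + 1 = v + T.card

/-- number of solutions of `z = t' - 2 t` -/
def r (T : Finset (ZMod v)) (z : ZMod v) : ℕ := (T.filter (fun t => z + 2 * t ∈ T)).card

/-- number of `t` with `z + t` missing -/
def e (T H : Finset (ZMod v)) (z : ZMod v) : ℕ := (T.filter (fun t => z + t ∈ H)).card

theorem cover {T H : Finset (ZMod v)} (h : PD T H) (d : ZMod v) (hd : d ≠ 0) (hH : d ∉ H) :
    ∃ a ∈ T, ∃ b ∈ T, a - b = d := by
  classical
  let D := T.offDiag.image (fun p => p.1 - p.2)
  have hDcard : D.card = T.card * T.card - T.card := by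
    rw [Finset.card_image_of_injOn, Finset.offDiag_card]
    intro p hp q hq hpq
    rw [Finset.mem_coe, Finset.mem_offDiag] at hp hq
    have := h.sidon p.1 hp.1 p.2 hp.2.1 q.1 hq.1 q.2 hq.2.1 hp.2.2 hpq
    exact Prod.ext this.1 this.2
  have hsub : D ⊆ (Finset.univ \ (insert 0 H)) := by
    intro x hx
    rw [Finset.mem_image] at hx
    obtain ⟨p, hp, rfl⟩ := hx
    rw [Finset.mem_offDiag] at hp
    rw [Finset.mem_sdiff, Finset.mem_insert]
    refine ⟨Finset.mem_univ _, ?_⟩
    rintro (h0 | h0)
    · exact hp.2.2 (sub_eq_zero.1 h0)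
    · exact h.avoid _ hp.1 _ hp.2.1 h0
  have hcard : (Finset.univ \ (insert 0 H) : Finset (ZMod v)).card = v - (H.card + 1) := by
    rw [Finset.card_sdiff_of_subset (Finset.subset_univ _), Finset.card_insert_of_notMem h.zero,
      Finset.card_univ, ZMod.card]
  have hTT : T.card ≤ T.card * T.card := Nat.le_mul_self _
  have heq : D = Finset.univ \ (insert 0 H) := by
    apply Finset.eq_of_subset_of_card_le hsub
    rw [hcard, hDcard]
    have := h.card
    omega
  have : d ∈ D := by
    rw [heq, Finset.mem_sdiff, Finset.mem_insert]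
    exact ⟨Finset.mem_univ _, fun hc => hc.elim hd hH⟩
  rw [Finset.mem_image] at this
  obtain ⟨p, hp, hpd⟩ := this
  rw [Finset.mem_offDiag] at hp
  exact ⟨p.1, hp.1, p.2, hp.2.1, hpd⟩

theorem sum_r (T : Finset (ZMod v)) : ∑ z, r T z = T.card * T.card := by
  classical
  unfold r
  simp_rw [Finset.card_filter]
  rw [Finset.sum_comm]
  have : ∀ t ∈ T, (∑ z : ZMod v, if z + 2 * t ∈ T then 1 else 0) = T.card := by
    intro t _
    rw [← Finset.card_filter]
    have : (Finset.univ.filter (fun z : ZMod v => z + 2 * t ∈ T)) = T.image (fun x => x - 2 * t) := by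
      ext z
      simp only [Finset.mem_filter, Finset.mem_univ, true_and, Finset.mem_image]
      constructor
      · intro hz
        exact ⟨z + 2 * t, hz, by ring⟩
      · rintro ⟨x, hx, rfl⟩
        simpa using hx
    rw [this, Finset.card_image_of_injective _ (sub_left_injective)]
  rw [Finset.sum_congr rfl this, Finset.sum_const, smul_eq_mul]

theorem sum_e (T H : Finset (ZMod v)) : ∑ z, e T H z = T.card * H.card := by
  classical
  unfold e
  simp_rw [Finset.card_filter]
  rw [Finset.sum_comm]
  have : ∀ t ∈ T, (∑ z : ZMod v, if z + t ∈ H then 1 else 0) = H.card := by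
    intro t _
    rw [← Finset.card_filter]
    have : (Finset.univ.filter (fun z : ZMod v => z + t ∈ H)) = H.image (fun x => x - t) := by
      ext z
      simp only [Finset.mem_filter, Finset.mem_univ, true_and, Finset.mem_image]
      constructor
      · intro hz
        exact ⟨z + t, hz, by ring⟩
      · rintro ⟨x, hx, rfl⟩
        simpa using hx
    rw [this, Finset.card_image_of_injective _ (sub_left_injective)]
  rw [Finset.sum_congr rfl this, Finset.sum_const, smul_eq_mul]

theorem r_neg {T H : Finset (ZMod v)} (h : PD T H) (z : ZMod v) (hz : -z ∈ T) : r T z = 1 := by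
  classical
  unfold r
  rw [Finset.card_eq_one]
  refine ⟨-z, ?_⟩
  ext t
  rw [Finset.mem_filter, Finset.mem_singleton]
  constructor
  · rintro ⟨ht, ht'⟩
    by_contra hne
    have := h.sidon t ht (-z) hz (z + 2 * t) ht' t ht hne (by ring)
    exact hne this.2.symm
  · rintro rfl
    refine ⟨hz, ?_⟩
    have : z + 2 * -z = -z := by ring
    rw [this]; exact hz

theorem e_neg {T H : Finset (ZMod v)} (h : PD T H) (z : ZMod v) (hz : -z ∈ T) : e T H z = 0 := by
  classical
  unfold e
  rw [Finset.card_eq_zero, Finset.filter_eq_empty_iff]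
  intro t ht hH
  have := h.avoid t ht (-z) hz
  rw [sub_neg_eq_add, add_comm] at this
  exact this hH

/-- The parity relation (Qvist). -/
theorem parity {T H : Finset (ZMod v)} (h : PD T H) (z : ZMod v) (hz : -z ∉ T) :
    (r T z + e T H z) % 2 = T.card % 2 := by
  classical
  set S := T.filter (fun t => z + t ∉ H) with hS
  have hne : ∀ t ∈ T, z + t ≠ 0 := by
    intro t ht h0
    apply hz
    have : t = -z := by rw [eq_neg_iff_add_eq_zero, add_comm]; exact h0
    rw [← this]; exact ht
  have hex : ∀ t ∈ S, ∃ s ∈ S, z + t + s ∈ T := by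
    intro t ht
    rw [hS, Finset.mem_filter] at ht
    obtain ⟨a, ha, b, hb, hab⟩ := cover h (z + t) (hne t ht.1) ht.2
    refine ⟨b, ?_, ?_⟩
    · rw [hS, Finset.mem_filter]
      refine ⟨hb, ?_⟩
      have := h.avoid a ha t ht.1
      have h2 : z + b = a - t := by
        have : a = z + t + b := by rw [← hab]; ring
        rw [this]; ring
      rw [h2]; exact this
    · have : z + t + b = a := by rw [← hab]; ring
      rw [this]; exact ha
  choose! g hg1 hg2 using hex
  have hinv : ∀ t ∈ S, g (g t) = t := by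
    intro t ht
    have ht1 := hg1 t ht
    have ht2 := hg2 t ht
    have ht3 := hg2 (g t) ht1
    have hgT : g t ∈ T := (Finset.mem_filter.1 ht1).1
    have hggT : g (g t) ∈ T := (Finset.mem_filter.1 (hg1 _ ht1)).1
    have htT : t ∈ T := (Finset.mem_filter.1 ht).1
    have hne2 : z + g t + g (g t) ≠ g (g t) := by
      intro hc
      apply hne (g t) hgT
      have : z + g t = (z + g t + g (g t)) - g (g t) := by ring
      rw [this, hc, sub_self]
    have := h.sidon (z + g t + g (g t)) ht3 (g (g t)) hggT (z + t + g t) ht2 t htT hne2 (by ring)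
    exact this.2
  let f : Function.End S := fun t => ⟨g t.1, hg1 t.1 t.2⟩
  have hf : f ^ 2 ^ 1 = 1 := by
    funext t
    apply Subtype.ext
    exact hinv t.1 t.2
  have hmod := Equiv.Perm.card_fixedPoints_modEq (p := 2) (n := 1) hf
  have hfix : Fintype.card (Function.fixedPoints f) = r T z := by
    unfold r
    rw [← Fintype.card_coe]
    refine Fintype.card_congr ⟨fun t => ⟨t.1.1, ?_⟩, fun t => ⟨⟨t.1, ?_⟩, ?_⟩, ?_, ?_⟩
    · have h1 : g t.1.1 = t.1.1 := congrArg Subtype.val t.2
      have h2 := hg2 t.1.1 t.1.2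
      rw [h1] at h2
      rw [Finset.mem_filter]
      refine ⟨(Finset.mem_filter.1 t.1.2).1, ?_⟩
      have : z + 2 * t.1.1 = z + t.1.1 + t.1.1 := by ring
      rw [this]; exact h2
    · have ht := Finset.mem_filter.1 t.2
      rw [hS, Finset.mem_filter]
      refine ⟨ht.1, ?_⟩
      have := h.avoid _ ht.2 _ ht.1
      have h2 : z + 2 * t.1 - t.1 = z + t.1 := by ring
      rw [h2] at this
      exact this
    · have ht := Finset.mem_filter.1 t.2
      have htS : t.1 ∈ S := by
        rw [hS, Finset.mem_filter]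
        refine ⟨ht.1, ?_⟩
        have := h.avoid _ ht.2 _ ht.1
        have h2 : z + 2 * t.1 - t.1 = z + t.1 := by ring
        rw [h2] at this
        exact this
      change f ⟨t.1, htS⟩ = ⟨t.1, htS⟩
      apply Subtype.ext
      change g t.1 = t.1
      have hgT : g t.1 ∈ T := (Finset.mem_filter.1 (hg1 _ htS)).1
      have hne2 : z + 2 * t.1 ≠ t.1 := by
        intro hc
        apply hne t.1 ht.1
        have : z + t.1 = (z + 2 * t.1) - t.1 := by ring
        rw [this, hc, sub_self]
      have := h.sidon (z + 2 * t.1) ht.2 t.1 ht.1 (z + t.1 + g t.1) (hg2 _ htS) (g t.1) hgT hne2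
        (by ring)
      exact this.2.symm
    · intro t; rfl
    · intro t; rfl
  have hcS : Fintype.card S = S.card := Fintype.card_coe S
  have hpart : S.card + e T H z = T.card := by
    unfold e
    rw [hS, add_comm]
    exact Finset.card_filter_add_card_filter_not (fun t => z + t ∈ H)
  rw [hcS, hfix] at hmod
  unfold Nat.ModEq at hmod
  omega

theorem sum_rr {T H : Finset (ZMod v)} (h : PD T H)
    (h2 : ∀ t ∈ T, ∀ s ∈ T, t ≠ s → 2 * (t - s) ≠ 0) :
    ∑ z, r T z * r T z = ∑ z, r T z +
      (T.offDiag.filter (fun p => 2 * (p.1 - p.2) ∉ H)).card := by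
  classical
  have h1 : ∀ z, r T z * r T z = r T z +
      (T.offDiag.filter (fun p => z + 2 * p.1 ∈ T ∧ z + 2 * p.2 ∈ T)).card := by
    intro z
    have : T.offDiag.filter (fun p => z + 2 * p.1 ∈ T ∧ z + 2 * p.2 ∈ T) =
        (T.filter (fun t => z + 2 * t ∈ T)).offDiag := by
      ext p
      simp only [Finset.mem_filter, Finset.mem_offDiag]
      tauto
    rw [this, Finset.offDiag_card]
    unfold r
    have := Nat.le_mul_self (T.filter (fun t => z + 2 * t ∈ T)).card
    omega
  rw [Finset.sum_congr rfl (fun z _ => h1 z), Finset.sum_add_distrib]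
  congr 1
  simp_rw [Finset.card_filter]
  rw [Finset.sum_comm]
  apply Finset.sum_congr rfl
  intro p hp
  rw [Finset.mem_offDiag] at hp
  rw [← Finset.card_filter]
  have hle : (Finset.univ.filter (fun z : ZMod v => z + 2 * p.1 ∈ T ∧ z + 2 * p.2 ∈ T)).card ≤ 1 := by
    rw [Finset.card_le_one]
    intro a ha b hb
    rw [Finset.mem_filter] at ha hb
    have hne : a + 2 * p.1 ≠ a + 2 * p.2 := by
      intro hc
      apply h2 p.1 hp.1 p.2 hp.2.1 hp.2.2
      have : 2 * (p.1 - p.2) = (a + 2 * p.1) - (a + 2 * p.2) := by ring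
      rw [this, hc, sub_self]
    have := h.sidon _ ha.2.1 _ ha.2.2 _ hb.2.1 _ hb.2.2 hne (by ring)
    exact add_right_cancel this.1
  by_cases hH : 2 * (p.1 - p.2) ∈ H
  · rw [if_neg (not_not.2 hH), Finset.card_eq_zero, Finset.filter_eq_empty_iff]
    rintro z - ⟨hz1, hz2⟩
    apply h.avoid _ hz1 _ hz2
    have : z + 2 * p.1 - (z + 2 * p.2) = 2 * (p.1 - p.2) := by ring
    rw [this]; exact hH
  · rw [if_pos hH]
    apply le_antisymm hle
    obtain ⟨a, ha, b, hb, hab⟩ := cover h _ (h2 p.1 hp.1 p.2 hp.2.1 hp.2.2) hH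
    rw [Nat.succ_le_iff, Finset.card_pos]
    refine ⟨a - 2 * p.1, ?_⟩
    rw [Finset.mem_filter]
    refine ⟨Finset.mem_univ _, ?_, ?_⟩
    · rw [sub_add_cancel]; exact ha
    · have : a - 2 * p.1 + 2 * p.2 = b := by
        have : a = b + 2 * (p.1 - p.2) := by rw [← hab]; ring
        rw [this]; ring
      rw [this]; exact hb

end Pool.Agent.Lib.MP_2a564b_nt.Near
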