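import Mathlib
import Pool.Agent.Lib.MP_2a564b_nt.NearA
set_option autoImplicit false

namespace Pool.Agent.Lib.MP_2a564b_nt.Near

open Finset

/-- A convexity bound. -/
theorem sq_sum_le {ι : Type*} [Fintype ι] [DecidableEq ι] (f : ι → ℤ) (hf : ∀ i, 0 ≤ f i)
    (i j : ι) (hij : i ≠ j) (hi : 2 ≤ f i) (hj : 2 ≤ f j) (n : ℤ) (hn : ∑ k, f k = n) :
    ∑ k, f k * f k + 4 * n ≤ n * n + 8 := by
  classical
  set R : Finset ι := (Finset.univ.erase i).erase j with hR
  have hj' : j ∈ Finset.univ.erase i := Finset.mem_erase.2 ⟨hij.symm, Finset.mem_univ _⟩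
  have h1 : ∀ g : ι → ℤ, ∑ k, g k = g i + (g j + ∑ k ∈ R, g k) := by
    intro g
    rw [← Finset.add_sum_erase _ _ (Finset.mem_univ i), ← Finset.add_sum_erase _ _ hj']
  have h2 : ∑ k ∈ R, f k * f k ≤ (∑ k ∈ R, f k) * (∑ k ∈ R, f k) := by
    rw [Finset.sum_mul]
    apply Finset.sum_le_sum
    intro k hk
    apply mul_le_mul_of_nonneg_left _ (hf k)
    exact Finset.single_le_sum (fun l _ => hf l) hk
  have h0 : 0 ≤ ∑ k ∈ R, f k := Finset.sum_nonneg (fun k _ => hf k)
  rw [h1] at hn ⊢
  set x := f i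
  set y := f j
  set w := ∑ k ∈ R, f k
  subst hn
  nlinarith [mul_nonneg (sub_nonneg.2 hi) (sub_nonneg.2 hj), mul_nonneg h0 (sub_nonneg.2 hj),
    mul_nonneg h0 (sub_nonneg.2 hi)]

variable {v : ℕ} [NeZero v]

/-- `k ∣ x.val` through the reduction map. -/
theorem dvd_val_iff {k : ℕ} [NeZero k] (hk : k ∣ v) (x : ZMod v) :
    k ∣ x.val ↔ ZMod.castHom hk (ZMod k) x = 0 := by
  rw [ZMod.castHom_apply, ZMod.cast_eq_val, ZMod.natCast_eq_zero_iff]

theorem card_mult {k : ℕ} (hk : k ∣ v) :
    (Finset.univ.filter (fun x : ZMod v => k ∣ x.val)).card = v / k := by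
  classical
  obtain ⟨m, hm⟩ := hk
  have hv : 0 < v := Nat.pos_of_ne_zero (NeZero.ne v)
  have hkpos : 0 < k := by
    rcases Nat.eq_zero_or_pos k with h | h
    · subst h; rw [zero_mul] at hm; omega
    · exact h
  have hdiv : v / k = m := by rw [hm]; exact Nat.mul_div_cancel_left m hkpos
  rw [hdiv, ← Finset.card_range m]
  symm
  apply Finset.card_bij (fun j _ => ((k * j : ℕ) : ZMod v))
  · intro j hj
    rw [Finset.mem_range] at hj
    rw [Finset.mem_filter]
    refine ⟨Finset.mem_univ _, ?_⟩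
    rw [ZMod.val_natCast_of_lt]
    · exact Dvd.intro _ rfl
    · rw [hm]; exact Nat.mul_lt_mul_of_pos_left hj hkpos
  · intro a ha b hb hab
    rw [Finset.mem_range] at ha hb
    have h1 := congrArg ZMod.val hab
    rw [ZMod.val_natCast_of_lt (by rw [hm]; exact Nat.mul_lt_mul_of_pos_left ha hkpos),
      ZMod.val_natCast_of_lt (by rw [hm]; exact Nat.mul_lt_mul_of_pos_left hb hkpos)] at h1
    exact Nat.eq_of_mul_eq_mul_left hkpos h1
  · intro x hx
    rw [Finset.mem_filter] at hx
    obtain ⟨j, hj⟩ := hx.2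
    refine ⟨j, ?_, ?_⟩
    · rw [Finset.mem_range]
      have := ZMod.val_lt x
      rw [hj] at this
      by_contra hge
      rw [not_lt] at hge
      have : k * m ≤ k * j := Nat.mul_le_mul_left k hge
      omega
    · rw [← hj, ZMod.natCast_zmod_val]

/-- many pairs with `2 (t - s)` a multiple of `k` -/
theorem many_half {T H : Finset (ZMod v)} {k : ℕ} [NeZero k] (hk : k ∣ v) (heven : Even k)
    (hinj : ∀ a ∈ T, ∀ b ∈ T, a ≠ b → ¬ k ∣ (a - b).val)
    (h2 : ∀ t ∈ T, ∀ s ∈ T, t ≠ s → 2 * (t - s) ≠ 0)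
    (hH : ∀ x : ZMod v, x ≠ 0 → k ∣ x.val → x ∈ H) :
    2 * T.card ≤ (T.offDiag.filter (fun p => 2 * (p.1 - p.2) ∈ H)).card + k := by
  classical
  let φ := ZMod.castHom hk (ZMod k)
  have hφinj : ∀ a ∈ T, ∀ b ∈ T, φ a = φ b → a = b := by
    intro a ha b hb hab
    by_contra hne
    apply hinj a ha b hb hne
    rw [dvd_val_iff hk, map_sub]
    exact sub_eq_zero.2 hab
  obtain ⟨m, hm⟩ := heven
  have hkpos : 0 < k := Nat.pos_of_ne_zero (NeZero.ne k)
  have hmpos : 0 < m := by omega
  have hmk : m < k := by omega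
  let h : ZMod k := (m : ZMod k)
  have hh0 : h ≠ 0 := by
    intro h0
    have := (ZMod.natCast_eq_zero_iff m k).1 h0
    exact absurd (Nat.le_of_dvd hmpos this) (by omega)
  have hh2 : h + h = 0 := by
    have : h + h = ((m + m : ℕ) : ZMod k) := by push_cast; rfl
    rw [this, ← hm]
    exact ZMod.natCast_self k
  let U := T.image φ
  have hU : U.card = T.card := Finset.card_image_of_injOn (fun a ha b hb hab => hφinj a ha b hb hab)
  let P := T.filter (fun t => φ t - h ∈ U)
  have hP : 2 * T.card ≤ P.card + k := by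
    have h1 : (T.filter (fun t => ¬ (φ t - h ∈ U))).card ≤ (Finset.univ \ U).card := by
      apply Finset.card_le_card_of_injOn (fun t => φ t - h)
      · intro t ht
        rw [Finset.mem_coe, Finset.mem_filter] at ht
        rw [Finset.mem_coe, Finset.mem_sdiff]
        exact ⟨Finset.mem_univ _, ht.2⟩
      · intro a ha b hb hab
        rw [Finset.mem_coe, Finset.mem_filter] at ha hb
        exact hφinj a ha.1 b hb.1 (sub_left_injective hab)
    rw [Finset.card_sdiff_of_subset (Finset.subset_univ _), Finset.card_univ, ZMod.card, hU] at h1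
    have h3 : T.card ≤ k := by
      have h5 := Finset.card_le_univ U
      rw [ZMod.card, hU] at h5
      exact h5
    have h4 : P.card + (T.filter (fun t => ¬ (φ t - h ∈ U))).card = T.card :=
      Finset.card_filter_add_card_filter_not _
    omega
  have hPle : P.card ≤ (T.offDiag.filter (fun p => 2 * (p.1 - p.2) ∈ H)).card := by
    have hex : ∀ t ∈ P, ∃ s ∈ T, φ s = φ t - h := by
      intro t ht
      have := (Finset.mem_filter.1 ht).2
      rw [Finset.mem_image] at this
      obtain ⟨s, hs, hs'⟩ := this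
      exact ⟨s, hs, hs'⟩
    choose! g hg1 hg2 using hex
    apply Finset.card_le_card_of_injOn (fun t => (t, g t))
    · intro t ht
      rw [Finset.mem_coe] at ht
      have htT : t ∈ T := (Finset.mem_filter.1 ht).1
      have hne : t ≠ g t := by
        intro hc
        have := hg2 t ht
        rw [← hc] at this
        apply hh0
        have h5 : h = φ t - (φ t - h) := by ring
        rw [h5, ← this, sub_self]
      rw [Finset.mem_coe, Finset.mem_filter, Finset.mem_offDiag]
      refine ⟨⟨htT, hg1 t ht, hne⟩, ?_⟩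
      apply hH _ (h2 t htT (g t) (hg1 t ht) hne)
      rw [dvd_val_iff hk, map_mul, map_sub, hg2 t ht]
      have : (ZMod.castHom hk (ZMod k)) 2 * (φ t - (φ t - h)) = h + h := by
        rw [map_ofNat]; ring
      rw [this, hh2]
    · intro a _ b _ hab
      exact (Prod.mk.inj hab).1
  omega

end Pool.Agent.Lib.MP_2a564b_nt.Near
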