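import Mathlib
import Pool.Agent.Lib.MP_2a564b_nt.NearB
set_option autoImplicit false

namespace Pool.Agent.Lib.MP_2a564b_nt.Near

open Finset

/-- The three known kinds of optimal Sidon sets in cyclic groups: planar (perfect) difference
sets, affine difference sets and direct product difference sets. -/
def IsPlaneSet (v : ℕ) (T : Finset (ZMod v)) : Prop :=
  (∀ a ∈ T, ∀ b ∈ T, ∀ c ∈ T, ∀ d ∈ T, a ≠ b → a - b = c - d → a = c ∧ b = d) ∧
  ∃ n : ℕ, 3 ≤ n ∧
    ((v = n ^ 2 + n + 1 ∧ T.card = n + 1) ∨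
     (v + 1 = n ^ 2 ∧ T.card = n ∧ ∀ a ∈ T, ∀ b ∈ T, a ≠ b → ¬ (n + 1) ∣ (a - b).val) ∨
     (v = n * (n + 1) ∧ T.card = n ∧
       ∀ a ∈ T, ∀ b ∈ T, a ≠ b → ¬ n ∣ (a - b).val ∧ ¬ (n + 1) ∣ (a - b).val))

variable {v : ℕ} [NeZero v]

/-- indicator of oddness of `r` -/
def od (T : Finset (ZMod v)) (z : ZMod v) : ℤ := ((r T z % 2 : ℕ) : ℤ)

/-- indicator of `-T` -/
def nt (T : Finset (ZMod v)) (z : ZMod v) : ℤ := if -z ∈ T then 1 else 0

theorem sum_nt (T : Finset (ZMod v)) : ∑ z, nt T z = T.card := by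
  classical
  unfold nt
  rw [Finset.sum_ite, Finset.sum_const_zero, add_zero, Finset.sum_const, nsmul_eq_mul, mul_one]
  congr 1
  apply Finset.card_bij (fun z _ => -z)
  · intro z hz
    exact (Finset.mem_filter.1 hz).2
  · intro a _ b _ hab
    exact neg_injective hab
  · intro t ht
    exact ⟨-t, Finset.mem_filter.2 ⟨Finset.mem_univ _, by rw [neg_neg]; exact ht⟩, neg_neg t⟩

/-- the number of pairs whose double difference is represented -/
def KK (T H : Finset (ZMod v)) : ℕ := (T.offDiag.filter (fun p => 2 * (p.1 - p.2) ∉ H)).card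

theorem sum_r_int (T : Finset (ZMod v)) : ∑ z, (r T z : ℤ) = T.card * T.card := by
  have := sum_r T
  exact_mod_cast this

theorem sum_rr_int {T H : Finset (ZMod v)} (h : PD T H)
    (h2 : ∀ t ∈ T, ∀ s ∈ T, t ≠ s → 2 * (t - s) ≠ 0) :
    ∑ z, ((r T z : ℤ) * r T z) = T.card * T.card + KK T H := by
  have h3 := sum_rr h h2
  have h4 : (∑ z, ((r T z : ℤ) * r T z)) = ((∑ z, r T z * r T z : ℕ) : ℤ) := by push_cast; rfl
  rw [h4, h3]
  push_cast
  rw [sum_r_int]
  rfl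

/-- First master lemma. -/
theorem le_two {T H : Finset (ZMod v)} (h : PD T H)
    (h2 : ∀ t ∈ T, ∀ s ∈ T, t ≠ s → 2 * (t - s) ≠ 0)
    (hle : ∑ z, od T z + KK T H ≤ (T.card : ℤ) * T.card) : ∀ z, r T z ≤ 2 := by
  have hg : ∀ z, 0 ≤ (r T z : ℤ) * r T z - 2 * r T z + od T z := by
    intro z
    unfold od
    rcases Nat.lt_or_ge (r T z) 3 with hlt | hge
    · interval_cases (r T z) <;> norm_num
    · have h5 : (3 : ℤ) ≤ r T z := by exact_mod_cast hge
      have h6 : (0 : ℤ) ≤ ((r T z % 2 : ℕ) : ℤ) := Int.natCast_nonneg _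
      nlinarith
  have hsum : ∑ z, ((r T z : ℤ) * r T z - 2 * r T z + od T z) ≤ 0 := by
    rw [Finset.sum_add_distrib, Finset.sum_sub_distrib, ← Finset.mul_sum, sum_rr_int h h2,
      sum_r_int]
    linarith
  intro z
  have h7 : (r T z : ℤ) * r T z - 2 * r T z + od T z ≤ 0 := by
    refine le_trans ?_ hsum
    exact Finset.single_le_sum (f := fun z => (r T z : ℤ) * r T z - 2 * r T z + od T z)
      (fun z _ => hg z) (Finset.mem_univ z)
  by_contra hgt
  rw [not_le] at hgt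
  have h5 : (3 : ℤ) ≤ r T z := by exact_mod_cast hgt
  have h6 : (0 : ℤ) ≤ od T z := Int.natCast_nonneg _
  nlinarith

/-- Second master lemma. -/
theorem nucleus {T H : Finset (ZMod v)} (h : PD T H)
    (h2 : ∀ t ∈ T, ∀ s ∈ T, t ≠ s → 2 * (t - s) ≠ 0) (z1 z2 : ZMod v) (h12 : z1 ≠ z2)
    (hz1 : 2 ≤ r T z1) (hz2 : 2 ≤ r T z2) (n : ℤ)
    (hn : (T.card : ℤ) * T.card - ∑ z, od T z = n) :
    (KK T H : ℤ) + ∑ z, od T z - (T.card : ℤ) * T.card + 4 * n ≤ n * n + 8 := by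
  classical
  have hs : ∀ z, 0 ≤ (r T z : ℤ) - od T z := by
    intro z
    unfold od
    have := Nat.mod_le (r T z) 2
    have h5 : ((r T z % 2 : ℕ) : ℤ) ≤ (r T z : ℤ) := by exact_mod_cast this
    linarith
  have hs2 : ∀ z, 2 ≤ r T z → 2 ≤ (r T z : ℤ) - od T z := by
    intro z hz
    unfold od
    have h5 : 2 + r T z % 2 ≤ r T z := by omega
    have h6 : (2 : ℤ) + ((r T z % 2 : ℕ) : ℤ) ≤ r T z := by exact_mod_cast h5
    linarith
  have h3 := sq_sum_le (fun z => (r T z : ℤ) - od T z) hs z1 z2 h12 (hs2 z1 hz1) (hs2 z2 hz2) n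
    (by rw [Finset.sum_sub_distrib, sum_r_int]; exact hn)
  have h4 : ∀ z, (r T z : ℤ) * r T z - 2 * r T z + od T z ≤
      ((r T z : ℤ) - od T z) * ((r T z : ℤ) - od T z) := by
    intro z
    have h5 : od T z = 0 ∨ od T z = 1 := by
      unfold od
      rcases Nat.mod_two_eq_zero_or_one (r T z) with h6 | h6 <;> rw [h6] <;> simp
    have h7 : (0 : ℤ) ≤ r T z := Int.natCast_nonneg _
    rcases h5 with h5 | h5 <;> rw [h5] <;> nlinarith
  have h5 := Finset.sum_le_sum (fun z (_ : z ∈ Finset.univ) => h4 z)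
  rw [Finset.sum_add_distrib, Finset.sum_sub_distrib, ← Finset.mul_sum, sum_rr_int h h2,
    sum_r_int] at h5
  linarith

end Pool.Agent.Lib.MP_2a564b_nt.Near
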