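import Mathlib
import Pool.Agent.Lib.MP_2a564b_nt.NearC
set_option autoImplicit false

namespace Pool.Agent.Lib.MP_2a564b_nt.Near

open Finset

variable {v : ℕ} [NeZero v]

theorem two_mul_val {x : ZMod v} (hx : x ≠ 0) (h2 : 2 * x = 0) : 2 * x.val = v := by
  have h1 : ((2 * x.val : ℕ) : ZMod v) = 0 := by
    push_cast
    rw [ZMod.natCast_zmod_val]
    exact h2
  rw [ZMod.natCast_eq_zero_iff] at h1
  have h3 := ZMod.val_lt x
  have h4 : x.val ≠ 0 := by
    intro h0
    exact hx ((ZMod.val_eq_zero x).1 h0)
  obtain ⟨m, hm⟩ := h1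
  have hm2 : m < 2 := by
    by_contra hge
    rw [not_lt] at hge
    have : v * 2 ≤ v * m := Nat.mul_le_mul_left v hge
    omega
  interval_cases m
  · omega
  · omega

/-- nonzero multiples of `k` -/
def mult (v k : ℕ) [NeZero v] : Finset (ZMod v) :=
  Finset.univ.filter (fun x => x ≠ 0 ∧ k ∣ x.val)

theorem card_mult_succ {k : ℕ} (hk : k ∣ v) : (mult v k).card + 1 = v / k := by
  classical
  rw [← card_mult hk]
  have : (Finset.univ.filter (fun x : ZMod v => k ∣ x.val)) = insert 0 (mult v k) := by
    ext x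
    unfold mult
    simp only [Finset.mem_filter, Finset.mem_univ, true_and, Finset.mem_insert]
    constructor
    · intro hx
      by_cases h0 : x = 0
      · exact Or.inl h0
      · exact Or.inr ⟨h0, hx⟩
    · rintro (rfl | hx)
      · simp
      · exact hx.2
  rw [this, Finset.card_insert_of_notMem]
  unfold mult
  simp

theorem e_mult_le_one {T : Finset (ZMod v)} {k : ℕ} [NeZero k] (hk : k ∣ v)
    (hinj : ∀ a ∈ T, ∀ b ∈ T, a ≠ b → ¬ k ∣ (a - b).val) (z : ZMod v) :
    (T.filter (fun t => z + t ∈ mult v k)).card ≤ 1 := by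
  classical
  rw [Finset.card_le_one]
  intro a ha b hb
  rw [Finset.mem_filter] at ha hb
  by_contra hne
  apply hinj a ha.1 b hb.1 hne
  have h1 := (Finset.mem_filter.1 ha.2).2.2
  have h2 := (Finset.mem_filter.1 hb.2).2.2
  rw [dvd_val_iff hk] at h1 h2 ⊢
  have : a - b = (z + a) - (z + b) := by ring
  rw [this, map_sub, h1, h2, sub_self]

/-- planar difference sets -/
theorem typeS {T : Finset (ZMod v)} {n : ℕ} (hn : 3 ≤ n) (hs : SidonMod T)
    (hv : v = n ^ 2 + n + 1) (hT : T.card = n + 1) :
    PD T ∅ ∧ (∀ z1 z2, z1 ≠ z2 → 3 ≤ r T z1 → 2 ≤ r T z2 → False) := by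
  classical
  have hpd : PD T ∅ := ⟨hs, by simp, by simp, by rw [hT, hv]; simp; ring⟩
  refine ⟨hpd, ?_⟩
  have hodd : ¬ Even v := by
    rw [hv]
    rcases Nat.even_or_odd n with he | ho
    · rw [Nat.not_even_iff_odd]
      obtain ⟨m, hm⟩ := he
      exact ⟨2 * m * m + m, by subst hm; ring⟩
    · rw [Nat.not_even_iff_odd]
      obtain ⟨m, hm⟩ := ho
      exact ⟨2 * m * m + 3 * m + 1, by subst hm; ring⟩
  have h2 : ∀ t ∈ T, ∀ s ∈ T, t ≠ s → 2 * (t - s) ≠ 0 := by
    intro t _ s _ hne h0
    apply hodd
    have := two_mul_val (sub_ne_zero.2 hne) h0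
    exact ⟨(t - s).val, by omega⟩
  have he : ∀ z, e T ∅ z = 0 := by
    intro z
    unfold e
    simp
  have hK : KK T ∅ = T.card * T.card - T.card := by
    unfold KK
    rw [← Finset.offDiag_card]
    congr 1
    rw [Finset.filter_eq_self]
    intro p _
    simp
  have hTT : T.card ≤ T.card * T.card := Nat.le_mul_self _
  have hKint : (KK T ∅ : ℤ) = T.card * T.card - T.card := by
    rw [hK, Nat.cast_sub hTT]; push_cast; ring
  intro z1 z2 h12 hz1 hz2
  rcases Nat.even_or_odd n with hev | hod
  · -- n even: all r odd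
    have hod' : ∀ z, od T z = 1 := by
      intro z
      unfold od
      by_cases hz : -z ∈ T
      · rw [r_neg hpd z hz]; norm_num
      · have := parity hpd z hz
        rw [he, hT] at this
        obtain ⟨m, hm⟩ := hev
        have h5 : r T z % 2 = 1 := by omega
        rw [h5]; norm_num
    have hsum : ∑ z, od T z = v := by
      rw [Finset.sum_congr rfl (fun z _ => hod' z)]
      simp
    have := nucleus hpd h2 z1 z2 h12 (by omega) hz2 (n : ℤ) (by
      rw [hsum, hT, hv]; push_cast; ring)
    rw [hKint, hsum, hT, hv] at this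
    push_cast at this
    have h3 : (3 : ℤ) ≤ n := by exact_mod_cast hn
    nlinarith
  · have hle : ∑ z, od T z + KK T ∅ ≤ (T.card : ℤ) * T.card := by
      have : ∀ z, od T z = nt T z := by
        intro z
        unfold od nt
        by_cases hz : -z ∈ T
        · rw [r_neg hpd z hz, if_pos hz]; norm_num
        · have := parity hpd z hz
          rw [he, hT] at this
          obtain ⟨m, hm⟩ := hod
          have h5 : r T z % 2 = 0 := by omega
          rw [h5, if_neg hz]; norm_num
      rw [Finset.sum_congr rfl (fun z _ => this z), sum_nt, hKint]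
      linarith
    have := le_two hpd h2 hle z1
    omega

/-- affine difference sets -/
theorem typeB {T : Finset (ZMod v)} {n : ℕ} (hn : 3 ≤ n) (hs : SidonMod T)
    (hv : v + 1 = n ^ 2) (hT : T.card = n)
    (hinj : ∀ a ∈ T, ∀ b ∈ T, a ≠ b → ¬ (n + 1) ∣ (a - b).val) :
    PD T (mult v (n + 1)) ∧
      (5 ≤ n → ∀ z1 z2, z1 ≠ z2 → 3 ≤ r T z1 → 2 ≤ r T z2 → False) := by
  classical
  obtain ⟨m, hm⟩ : ∃ m, n = m + 1 := ⟨n - 1, by omega⟩
  have hv' : v = (n + 1) * m := by
    have : v + 1 = (n + 1) * m + 1 := by rw [hv, hm]; ring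
    omega
  have hk : n + 1 ∣ v := ⟨m, hv'⟩
  have hcH : (mult v (n + 1)).card + 1 = m := by
    rw [card_mult_succ hk, hv']
    exact Nat.mul_div_cancel_left m (by omega)
  have hpd : PD T (mult v (n + 1)) := by
    refine ⟨hs, ?_, ?_, ?_⟩
    · unfold mult; simp
    · intro a ha b hb hab
      have h1 := (Finset.mem_filter.1 hab).2
      exact hinj a ha b hb (sub_ne_zero.1 h1.1) h1.2
    · have h5 : n * n = v + 1 := by rw [hv]; ring
      rw [hT, h5]
      omega
  refine ⟨hpd, ?_⟩
  have h2 : ∀ t ∈ T, ∀ s ∈ T, t ≠ s → 2 * (t - s) ≠ 0 := by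
    intro t ht s hs' hne h0
    have h5 := two_mul_val (sub_ne_zero.2 hne) h0
    apply hinj t ht s hs' hne
    rcases Nat.even_or_odd m with ⟨l, hl⟩ | ⟨l, hl⟩
    · refine ⟨l, ?_⟩
      have : 2 * (t - s).val = 2 * ((n + 1) * l) := by rw [h5, hv', hl]; ring
      omega
    · exfalso
      have : 2 * (t - s).val = 2 * ((l + 1) * (2 * l + 1) + l) + 1 := by
        rw [h5, hv', hm, hl]; ring
      omega
  have he1 : ∀ z, e T (mult v (n + 1)) z ≤ 1 := fun z => e_mult_le_one hk hinj z
  have hse : ∑ z, (e T (mult v (n + 1)) z : ℤ) = n * (m - 1) := by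
    have := sum_e T (mult v (n + 1))
    have h6 : (∑ z, (e T (mult v (n + 1)) z : ℤ)) = ((∑ z, e T (mult v (n + 1)) z : ℕ) : ℤ) := by
      push_cast; rfl
    rw [h6, this, hT]
    push_cast
    have h7 : ((mult v (n + 1)).card : ℤ) = m - 1 := by
      have : ((mult v (n + 1)).card : ℤ) + 1 = m := by exact_mod_cast hcH
      linarith
    rw [h7]
  have hTT : T.card ≤ T.card * T.card := Nat.le_mul_self _
  have hvi : (v : ℤ) = n * n - 1 := by
    have : (v : ℤ) + 1 = n ^ 2 := by exact_mod_cast hv
    rw [sq] at this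
    linarith
  have hmi : (m : ℤ) = n - 1 := by rw [hm]; push_cast; ring
  intro hn5 z1 z2 h12 hz1 hz2
  have h3 : (5 : ℤ) ≤ n := by exact_mod_cast hn5
  rcases Nat.even_or_odd n with hev | hod
  · have hod' : ∀ z, od T z = nt T z + (e T (mult v (n + 1)) z : ℤ) := by
      intro z
      unfold od nt
      by_cases hz : -z ∈ T
      · rw [r_neg hpd z hz, e_neg hpd z hz, if_pos hz]; norm_num
      · have h7 := parity hpd z hz
        have h8 := he1 z
        rw [hT] at h7
        obtain ⟨l, hl⟩ := hev
        rw [if_neg hz, zero_add]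
        have h5 : r T z % 2 = e T (mult v (n + 1)) z := by omega
        rw [h5]
    have hsum : ∑ z, od T z = n * n - n := by
      rw [Finset.sum_congr rfl (fun z _ => hod' z), Finset.sum_add_distrib, sum_nt, hse, hT, hmi]
      ring
    have hK : (KK T (mult v (n + 1)) : ℤ) = n * n - n := by
      have : KK T (mult v (n + 1)) = T.card * T.card - T.card := by
        unfold KK
        rw [← Finset.offDiag_card]
        congr 1
        rw [Finset.filter_eq_self]
        intro p hp hH
        rw [Finset.mem_offDiag] at hp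
        have h5 := (Finset.mem_filter.1 hH).2.2
        apply hinj p.1 hp.1 p.2 hp.2.1 hp.2.2
        rw [dvd_val_iff hk] at h5 ⊢
        rw [map_mul, map_ofNat] at h5
        have hu : IsUnit (2 : ZMod (n + 1)) := by
          have : ((2 : ℕ) : ZMod (n + 1)) = 2 := by norm_num
          rw [← this, ZMod.isUnit_iff_coprime]
          obtain ⟨l, hl⟩ := hev
          rw [Nat.coprime_two_left]
          exact ⟨l, by omega⟩
        exact (hu.mul_right_eq_zero).1 h5
      rw [this, Nat.cast_sub hTT, hT]
      push_cast; ring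
    have := nucleus hpd h2 z1 z2 h12 (by omega) hz2 (n : ℤ) (by
      rw [hsum, hT]; ring)
    rw [hK, hsum, hT] at this
    nlinarith
  · have hle : ∑ z, od T z + KK T (mult v (n + 1)) ≤ (T.card : ℤ) * T.card := by
      have hod' : ∀ z, od T z = 1 - (e T (mult v (n + 1)) z : ℤ) := by
        intro z
        unfold od
        by_cases hz : -z ∈ T
        · rw [r_neg hpd z hz, e_neg hpd z hz]; norm_num
        · have h7 := parity hpd z hz
          have h8 := he1 z
          rw [hT] at h7
          obtain ⟨l, hl⟩ := hod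
          rcases Nat.le_one_iff_eq_zero_or_eq_one.1 h8 with h9 | h9
          · have h5 : r T z % 2 = 1 := by omega
            rw [h5, h9]; norm_num
          · have h5 : r T z % 2 = 0 := by omega
            rw [h5, h9]; norm_num
      have hsum : ∑ z, od T z = v - n * (m - 1) := by
        rw [Finset.sum_congr rfl (fun z _ => hod' z), Finset.sum_sub_distrib, hse]
        simp
      have hmany := many_half (H := mult v (n + 1)) hk (by
        obtain ⟨l, hl⟩ := hod
        exact ⟨l + 1, by omega⟩) hinj h2 (fun x hx0 hxk => by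
          unfold mult
          exact Finset.mem_filter.2 ⟨Finset.mem_univ _, hx0, hxk⟩)
      have hsplit : (T.offDiag.filter (fun p => 2 * (p.1 - p.2) ∈ mult v (n + 1))).card +
          KK T (mult v (n + 1)) = T.card * T.card - T.card := by
        unfold KK
        rw [← Finset.offDiag_card]
        exact Finset.card_filter_add_card_filter_not _
      have h10 : (2 : ℤ) * n ≤ ((T.offDiag.filter
          (fun p => 2 * (p.1 - p.2) ∈ mult v (n + 1))).card : ℤ) + (n + 1) := by
        rw [hT] at hmany
        exact_mod_cast hmany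
      have h11 : ((T.offDiag.filter (fun p => 2 * (p.1 - p.2) ∈ mult v (n + 1))).card : ℤ) +
          KK T (mult v (n + 1)) = n * n - n := by
        have : (((T.offDiag.filter (fun p => 2 * (p.1 - p.2) ∈ mult v (n + 1))).card +
          KK T (mult v (n + 1)) : ℕ) : ℤ) = n * n - n := by
          rw [hsplit, Nat.cast_sub hTT, hT]; push_cast; ring
        exact_mod_cast this
      rw [hsum, hT, hvi, hmi]
      nlinarith
    have := le_two hpd h2 hle z1
    omega

end Pool.Agent.Lib.MP_2a564b_nt.Near
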