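import Mathlib
import Pool.Agent.Lib.MP_2a564b_nt.NearD
set_option autoImplicit false

namespace Pool.Agent.Lib.MP_2a564b_nt.Near

open Finset

variable {v : ℕ} [NeZero v]

/-- direct product difference sets -/
theorem typeR {T : Finset (ZMod v)} {n : ℕ} (hn : 3 ≤ n) (hs : SidonMod T)
    (hv : v = n * (n + 1)) (hT : T.card = n)
    (hinj : ∀ a ∈ T, ∀ b ∈ T, a ≠ b → ¬ n ∣ (a - b).val ∧ ¬ (n + 1) ∣ (a - b).val) :
    PD T (mult v n ∪ mult v (n + 1)) ∧
      (∀ z1 z2, z1 ≠ z2 → 3 ≤ r T z1 → 2 ≤ r T z2 → False) := by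
  classical
  set H := mult v n ∪ mult v (n + 1) with hH
  have : NeZero n := ⟨by omega⟩
  have hk1 : n ∣ v := ⟨n + 1, hv⟩
  have hk2 : n + 1 ∣ v := ⟨n, by rw [hv]; ring⟩
  have hc1 : (mult v n).card + 1 = n + 1 := by
    rw [card_mult_succ hk1, hv]
    exact Nat.mul_div_cancel_left _ (by omega)
  have hc2 : (mult v (n + 1)).card + 1 = n := by
    rw [card_mult_succ hk2, hv]
    exact Nat.mul_div_cancel _ (by omega)
  have hdisj : Disjoint (mult v n) (mult v (n + 1)) := by
    rw [Finset.disjoint_left]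
    intro x hx1 hx2
    have h1 := (Finset.mem_filter.1 hx1).2
    have h2 := (Finset.mem_filter.1 hx2).2
    have hcop : Nat.Coprime n (n + 1) := by simp
    have h3 : n * (n + 1) ∣ x.val := Nat.Coprime.mul_dvd_of_dvd_of_dvd hcop h1.2 h2.2
    rw [← hv] at h3
    have h4 := ZMod.val_lt x
    have h5 : x.val = 0 := Nat.eq_zero_of_dvd_of_lt h3 h4
    exact h1.1 ((ZMod.val_eq_zero x).1 h5)
  have hcH : H.card + 1 = 2 * n := by
    rw [hH, Finset.card_union_of_disjoint hdisj]
    omega
  have hpd : PD T H := by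
    refine ⟨hs, ?_, ?_, ?_⟩
    · rw [hH]; unfold mult; simp
    · intro a ha b hb hab
      rw [hH, Finset.mem_union] at hab
      rcases hab with hab | hab
      · have h1 := (Finset.mem_filter.1 hab).2
        exact (hinj a ha b hb (sub_ne_zero.1 h1.1)).1 h1.2
      · have h1 := (Finset.mem_filter.1 hab).2
        exact (hinj a ha b hb (sub_ne_zero.1 h1.1)).2 h1.2
    · have h5 : v = n * n + n := by rw [hv]; ring
      rw [hT]
      omega
  refine ⟨hpd, ?_⟩
  have h2 : ∀ t ∈ T, ∀ s ∈ T, t ≠ s → 2 * (t - s) ≠ 0 := by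
    intro t ht s hs' hne h0
    have h5 := two_mul_val (sub_ne_zero.2 hne) h0
    rcases Nat.even_or_odd n with ⟨l, hl⟩ | ⟨l, hl⟩
    · apply (hinj t ht s hs' hne).2
      refine ⟨l, ?_⟩
      have : 2 * (t - s).val = 2 * ((n + 1) * l) := by
        rw [h5, hv]
        have : n * (n + 1) = (l + l) * (n + 1) := by rw [← hl]
        rw [this]; ring
      omega
    · apply (hinj t ht s hs' hne).1
      refine ⟨l + 1, ?_⟩
      have : 2 * (t - s).val = 2 * (n * (l + 1)) := by
        rw [h5, hv]
        have : n * (n + 1) = n * (2 * l + 1 + 1) := by rw [← hl]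
        rw [this]; ring
      omega
  have hinj1 : ∀ a ∈ T, ∀ b ∈ T, a ≠ b → ¬ n ∣ (a - b).val := fun a ha b hb h => (hinj a ha b hb h).1
  have hinj2 : ∀ a ∈ T, ∀ b ∈ T, a ≠ b → ¬ (n + 1) ∣ (a - b).val :=
    fun a ha b hb h => (hinj a ha b hb h).2
  have he2 : ∀ z, e T H z ≤ 2 := by
    intro z
    have h1 := e_mult_le_one hk1 hinj1 z
    have h3 := e_mult_le_one hk2 hinj2 z
    unfold e
    have : T.filter (fun t => z + t ∈ H) ⊆ T.filter (fun t => z + t ∈ mult v n) ∪
        T.filter (fun t => z + t ∈ mult v (n + 1)) := by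
      intro t ht
      rw [Finset.mem_filter] at ht
      rw [hH, Finset.mem_union] at ht
      rw [Finset.mem_union, Finset.mem_filter, Finset.mem_filter]
      rcases ht.2 with h | h
      · exact Or.inl ⟨ht.1, h⟩
      · exact Or.inr ⟨ht.1, h⟩
    have := (Finset.card_le_card this).trans (Finset.card_union_le _ _)
    omega
  have hse : ∑ z, (e T H z : ℤ) = n * (2 * n - 1) := by
    have := sum_e T H
    have h6 : (∑ z, (e T H z : ℤ)) = ((∑ z, e T H z : ℕ) : ℤ) := by push_cast; rfl
    rw [h6, this, hT]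
    push_cast
    have h7 : (H.card : ℤ) = 2 * n - 1 := by
      have : (H.card : ℤ) + 1 = 2 * n := by exact_mod_cast hcH
      linarith
    rw [h7]
  have hTT : T.card ≤ T.card * T.card := Nat.le_mul_self _
  have hvi : (v : ℤ) = n * (n + 1) := by exact_mod_cast hv
  have h3 : (3 : ℤ) ≤ n := by exact_mod_cast hn
  intro z1 z2 h12 hz1 hz2
  rcases Nat.even_or_odd n with hev | hod
  · have hle : ∑ z, od T z + KK T H ≤ (T.card : ℤ) * T.card := by
      have hod' : ∀ z, od T z ≤ 2 - (e T H z : ℤ) - nt T z := by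
        intro z
        unfold od nt
        by_cases hz : -z ∈ T
        · rw [r_neg hpd z hz, e_neg hpd z hz, if_pos hz]; norm_num
        · have h7 := parity hpd z hz
          have h8 := he2 z
          rw [hT] at h7
          obtain ⟨l, hl⟩ := hev
          rw [if_neg hz]
          interval_cases (e T H z)
          · have h5 : r T z % 2 = 0 := by omega
            rw [h5]; norm_num
          · have h5 : r T z % 2 = 1 := by omega
            rw [h5]; norm_num
          · have h5 : r T z % 2 = 0 := by omega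
            rw [h5]; norm_num
      have hsum : ∑ z, od T z ≤ 2 * v - n * (2 * n - 1) - n := by
        refine (Finset.sum_le_sum (fun z _ => hod' z)).trans ?_
        rw [Finset.sum_sub_distrib, Finset.sum_sub_distrib, hse, sum_nt, hT]
        simp
        linarith
      have hmany := many_half (H := H) hk1 hev hinj1 h2 (fun x hx0 hxk => by
          rw [hH, Finset.mem_union]
          left
          unfold mult
          exact Finset.mem_filter.2 ⟨Finset.mem_univ _, hx0, hxk⟩)
      have hsplit : (T.offDiag.filter (fun p => 2 * (p.1 - p.2) ∈ H)).card +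
          KK T H = T.card * T.card - T.card := by
        unfold KK
        rw [← Finset.offDiag_card]
        exact Finset.card_filter_add_card_filter_not _
      have h10 : (2 : ℤ) * n ≤ ((T.offDiag.filter
          (fun p => 2 * (p.1 - p.2) ∈ H)).card : ℤ) + n := by
        rw [hT] at hmany
        exact_mod_cast hmany
      have h11 : ((T.offDiag.filter (fun p => 2 * (p.1 - p.2) ∈ H)).card : ℤ) +
          KK T H = n * n - n := by
        have : (((T.offDiag.filter (fun p => 2 * (p.1 - p.2) ∈ H)).card +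
          KK T H : ℕ) : ℤ) = n * n - n := by
          rw [hsplit, Nat.cast_sub hTT, hT]; push_cast; ring
        exact_mod_cast this
      rw [hT]
      rw [hvi] at hsum
      nlinarith
    have := le_two hpd h2 hle z1
    omega
  · have hod' : ∀ z, (e T H z : ℤ) - 1 + 2 * nt T z ≤ od T z := by
      intro z
      unfold od nt
      by_cases hz : -z ∈ T
      · rw [r_neg hpd z hz, e_neg hpd z hz, if_pos hz]; norm_num
      · have h7 := parity hpd z hz
        have h8 := he2 z
        rw [hT] at h7
        obtain ⟨l, hl⟩ := hod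
        rw [if_neg hz]
        interval_cases (e T H z)
        · have h5 : r T z % 2 = 1 := by omega
          rw [h5]; norm_num
        · have h5 : r T z % 2 = 0 := by omega
          rw [h5]; norm_num
        · have h5 : r T z % 2 = 1 := by omega
          rw [h5]; norm_num
    have hsum : (n : ℤ) * n ≤ ∑ z, od T z := by
      refine le_trans ?_ (Finset.sum_le_sum (fun z _ => hod' z))
      rw [Finset.sum_add_distrib, Finset.sum_sub_distrib, hse, ← Finset.mul_sum, sum_nt, hT]
      simp only [Finset.sum_const, Finset.card_univ, ZMod.card, nsmul_eq_mul, mul_one]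
      rw [hvi]
      nlinarith
    have hs0 : ∑ z, ((r T z : ℤ) - od T z) ≤ 0 := by
      rw [Finset.sum_sub_distrib, sum_r_int, hT]
      linarith
    have hnn : ∀ z, 0 ≤ (r T z : ℤ) - od T z := by
      intro z
      unfold od
      have := Nat.mod_le (r T z) 2
      have h5 : ((r T z % 2 : ℕ) : ℤ) ≤ (r T z : ℤ) := by exact_mod_cast this
      linarith
    have h7 : (r T z1 : ℤ) - od T z1 ≤ 0 := by
      refine le_trans ?_ hs0
      exact Finset.single_le_sum (f := fun z => (r T z : ℤ) - od T z)
        (fun z _ => hnn z) (Finset.mem_univ z1)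
    unfold od at h7
    have h8 : r T z1 % 2 < 2 := Nat.mod_lt _ (by norm_num)
    have h9 : (r T z1 : ℤ) ≤ ((r T z1 % 2 : ℕ) : ℤ) := by linarith
    have h10 : r T z1 ≤ r T z1 % 2 := by exact_mod_cast h9
    omega

/-- Everything that is used about plane sets. -/
theorem plane_facts {T : Finset (ZMod v)} (hT : IsPlaneSet v T) :
    ∃ H : Finset (ZMod v), PD T H ∧ (∀ z, e T H z ≤ 2) ∧ 3 ≤ T.card ∧
      T.card * T.card < v + T.card ∧ v ≤ T.card * T.card + T.card ∧
      (30 ≤ v → ∀ z1 z2, z1 ≠ z2 → 3 ≤ r T z1 → 2 ≤ r T z2 → False) := by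
  classical
  obtain ⟨hs, n, hn, h⟩ := hT
  rcases h with ⟨hv', hc⟩ | ⟨hv', hc, hinj⟩ | ⟨hv', hc, hinj⟩
  · obtain ⟨h1, h2⟩ := typeS hn hs hv' hc
    refine ⟨∅, h1, ?_, by omega, ?_, ?_, fun _ => h2⟩
    · intro z; unfold e; simp
    · rw [hc, hv']; nlinarith
    · rw [hc, hv']; nlinarith
  · obtain ⟨h1, h2⟩ := typeB hn hs hv' hc hinj
    obtain ⟨m, hm⟩ : ∃ m, n = m + 1 := ⟨n - 1, by omega⟩
    have hk : n + 1 ∣ v := ⟨m, by
      have : v + 1 = (n + 1) * m + 1 := by rw [hv', hm]; ring
      omega⟩
    refine ⟨_, h1, ?_, by omega, ?_, ?_, fun hv30 => h2 (by nlinarith)⟩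
    · intro z
      have := e_mult_le_one hk hinj z
      unfold e
      omega
    · rw [hc]; nlinarith
    · rw [hc]; nlinarith
  · obtain ⟨h1, h2⟩ := typeR hn hs hv' hc hinj
    have : NeZero n := ⟨by omega⟩
    have hk1 : n ∣ v := ⟨n + 1, hv'⟩
    have hk2 : n + 1 ∣ v := ⟨n, by rw [hv']; ring⟩
    refine ⟨_, h1, ?_, by omega, ?_, ?_, fun _ => h2⟩
    · intro z
      have h1 := e_mult_le_one hk1 (fun a ha b hb h => (hinj a ha b hb h).1) z
      have h3 := e_mult_le_one hk2 (fun a ha b hb h => (hinj a ha b hb h).2) z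
      unfold e
      have : T.filter (fun t => z + t ∈ mult v n ∪ mult v (n + 1)) ⊆
          T.filter (fun t => z + t ∈ mult v n) ∪ T.filter (fun t => z + t ∈ mult v (n + 1)) := by
        intro t ht
        rw [Finset.mem_filter] at ht
        rw [Finset.mem_union] at ht
        rw [Finset.mem_union, Finset.mem_filter, Finset.mem_filter]
        rcases ht.2 with h | h
        · exact Or.inl ⟨ht.1, h⟩
        · exact Or.inr ⟨ht.1, h⟩
      have := (Finset.card_le_card this).trans (Finset.card_union_le _ _)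
      omega
    · rw [hc, hv']; nlinarith
    · rw [hc, hv']; nlinarith

end Pool.Agent.Lib.MP_2a564b_nt.Near
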