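import Mathlib
import Pool.Agent.Lib.MP_2a564b_nt.NearA
set_option autoImplicit false

namespace Pool.Agent.Lib.MP_2a564b_nt.Near

open Finset

variable {v : ℕ} [NeZero v]

/-- number of elements of `T` in the window of length `W` starting at `x` -/
def win (T : Finset (ZMod v)) (W : ℕ) (x : ZMod v) : ℕ := (T.filter (fun t => (t - x).val < W)).card

theorem card_val_lt (W : ℕ) (hW : W ≤ v) (t : ZMod v) :
    (Finset.univ.filter (fun x : ZMod v => (t - x).val < W)).card = W := by
  classical
  have h0 : (Finset.range W).card =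
      (Finset.univ.filter (fun x : ZMod v => (t - x).val < W)).card := by
   apply Finset.card_bij (fun (y : ℕ) _ => t - (y : ZMod v))
   · intro y hy
     rw [Finset.mem_range] at hy
     rw [Finset.mem_filter]
     refine ⟨Finset.mem_univ _, ?_⟩
     rw [sub_sub_cancel, ZMod.val_natCast_of_lt (by omega)]
     exact hy
   · intro a ha b hb hab
     rw [Finset.mem_range] at ha hb
     have h1 : (a : ZMod v) = b := sub_right_injective hab
     have h2 := congrArg ZMod.val h1
     rwa [ZMod.val_natCast_of_lt (by omega), ZMod.val_natCast_of_lt (by omega)] at h2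
   · intro x hx
     rw [Finset.mem_filter] at hx
     refine ⟨(t - x).val, Finset.mem_range.2 hx.2, ?_⟩
     rw [ZMod.natCast_zmod_val]
     ring
  rw [← h0, Finset.card_range]

theorem sum_win (T : Finset (ZMod v)) (W : ℕ) (hW : W ≤ v) :
    ∑ x, win T W x = T.card * W := by
  classical
  unfold win
  simp_rw [Finset.card_filter]
  rw [Finset.sum_comm]
  have : ∀ t ∈ T, (∑ x : ZMod v, if (t - x).val < W then 1 else 0) = W := by
    intro t _
    rw [← Finset.card_filter]
    exact card_val_lt W hW t
  rw [Finset.sum_congr rfl this, Finset.sum_const, smul_eq_mul]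

theorem sum_win_sq (T : Finset (ZMod v)) (hT : SidonMod T) (W : ℕ) (hW : W ≤ v) :
    ∑ x, win T W x * win T W x ≤ T.card * W + W * W := by
  classical
  have h1 : ∀ x, win T W x * win T W x = win T W x +
      (T.offDiag.filter (fun p => (p.1 - x).val < W ∧ (p.2 - x).val < W)).card := by
    intro x
    have : T.offDiag.filter (fun p => (p.1 - x).val < W ∧ (p.2 - x).val < W) =
        (T.filter (fun t => (t - x).val < W)).offDiag := by
      ext p
      simp only [Finset.mem_filter, Finset.mem_offDiag]
      tauto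
    rw [this, Finset.offDiag_card]
    unfold win
    have := Nat.le_mul_self (T.filter (fun t => (t - x).val < W)).card
    omega
  rw [Finset.sum_congr rfl (fun x _ => h1 x), Finset.sum_add_distrib, sum_win T W hW]
  apply Nat.add_le_add_left
  rw [← Finset.card_sigma]
  have hcard : (Finset.range W ×ˢ Finset.range W).card = W * W := by
    rw [Finset.card_product, Finset.card_range]
  rw [← hcard]
  apply Finset.card_le_card_of_injOn
    (fun q : (_ : ZMod v) × (ZMod v × ZMod v) => ((q.2.1 - q.1).val, (q.2.2 - q.1).val))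
  · intro q hq
    rw [Finset.mem_coe, Finset.mem_sigma, Finset.mem_filter] at hq
    rw [Finset.mem_coe, Finset.mem_product, Finset.mem_range, Finset.mem_range]
    exact hq.2.2
  · rintro ⟨x, p⟩ hq ⟨y, s⟩ hq' heq
    rw [Finset.mem_coe, Finset.mem_sigma, Finset.mem_filter, Finset.mem_offDiag] at hq hq'
    simp only [Prod.mk.injEq] at heq hq hq'
    have h3 : p.1 - x = s.1 - y := ZMod.val_injective v heq.1
    have h4 : p.2 - x = s.2 - y := ZMod.val_injective v heq.2
    have h5 : p.1 - p.2 = s.1 - s.2 := by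
      have e1 : p.1 = s.1 - y + x := by rw [← h3]; ring
      have e2 : p.2 = s.2 - y + x := by rw [← h4]; ring
      rw [e1, e2]; ring
    obtain ⟨h6, h7⟩ := hT p.1 hq.2.1.1 p.2 hq.2.1.2.1 s.1 hq'.2.1.1 s.2 hq'.2.1.2.1
      hq.2.1.2.2 h5
    have hp : p = s := Prod.ext h6 h7
    subst hp
    have hx : x = y := by
      have : x = p.1 - (p.1 - x) := by ring
      rw [this, h3]; ring
    subst hx
    rfl

/-- Equidistribution: upper bound for the number of elements in an interval. -/
theorem interval_bound (T : Finset (ZMod v)) (hT : SidonMod T)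
    (hτ : v ≤ T.card * T.card + T.card) (W : ℕ) (hW1 : 1 ≤ W) (hW : W ≤ v) (a b : ℕ) (hab : a ≤ b)
    (y : ℝ) (hy : 0 ≤ y) (hy2 : 2 * ((b : ℝ) - a + W) * T.card ≤ y ^ 2 * W) :
    ((T.filter (fun t => a ≤ t.val ∧ t.val < b)).card : ℝ) ≤
      ((b : ℝ) - a + W) * T.card / v + y := by
  classical
  set τ : ℝ := (T.card : ℝ) with hτd
  have hvpos : (0 : ℝ) < v := by
    have := NeZero.pos v
    exact_mod_cast this
  have hWpos : (0 : ℝ) < W := by exact_mod_cast hW1
  have hWv : (W : ℝ) ≤ v := by exact_mod_cast hW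
  have hτ0 : 0 ≤ τ := Nat.cast_nonneg _
  have hτr : (v : ℝ) ≤ τ * τ + τ := by rw [hτd]; exact_mod_cast hτ
  set μ : ℝ := τ * W / v with hμ
  -- variance
  have hvar : ∑ x, ((win T W x : ℝ) - μ) ^ 2 ≤ 2 * τ * W := by
    have e1 : ∑ x, ((win T W x : ℝ) - μ) ^ 2 =
        ∑ x, ((win T W x : ℝ) * win T W x) - 2 * μ * ∑ x, (win T W x : ℝ) + v * μ ^ 2 := by
      have : ∀ x, ((win T W x : ℝ) - μ) ^ 2 =
          (win T W x : ℝ) * win T W x - 2 * μ * win T W x + μ ^ 2 := by intro x; ring
      rw [Finset.sum_congr rfl (fun x _ => this x), Finset.sum_add_distrib,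
        Finset.sum_sub_distrib, ← Finset.mul_sum]
      simp
    have e2 : ∑ x, (win T W x : ℝ) = τ * W := by
      have := sum_win T W hW
      rw [hτd]
      exact_mod_cast this
    have e3 : ∑ x, ((win T W x : ℝ) * win T W x) ≤ τ * W + W * W := by
      have := sum_win_sq T hT W hW
      rw [hτd]
      exact_mod_cast this
    rw [e1, e2]
    have e4 : 2 * μ * (τ * W) = 2 * (τ * τ * W * W / v) := by rw [hμ]; field_simp
    have e5 : v * μ ^ 2 = τ * τ * W * W / v := by rw [hμ]; field_simp
    rw [e4, e5]
    have e6 : (W : ℝ) * W - τ * τ * W * W / v ≤ τ * W := by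
      have : (W : ℝ) * W ≤ (τ * τ + τ) * W * W / v := by
        rw [le_div_iff₀ hvpos]
        nlinarith [mul_pos hWpos hWpos]
      have h8 : (τ * τ + τ) * W * W / v = τ * τ * W * W / v + τ * W * (W / v) := by ring
      have h9 : τ * W * (W / v) ≤ τ * W * 1 := by
        apply mul_le_mul_of_nonneg_left _ (by positivity)
        rw [div_le_one hvpos]; exact hWv
      linarith
    linarith
  -- the set of relevant starting points
  set J : Finset (ZMod v) := (Finset.range (b - a + W)).image (fun i : ℕ => ((b : ZMod v) - 1 - (i : ZMod v)))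
    with hJ
  have hJcard : (J.card : ℝ) ≤ (b : ℝ) - a + W := by
    have h1 : J.card ≤ b - a + W := by
      rw [hJ]
      exact Finset.card_image_le.trans (by rw [Finset.card_range])
    have h2 : (J.card : ℝ) ≤ ((b - a + W : ℕ) : ℝ) := by exact_mod_cast h1
    rw [Nat.cast_add, Nat.cast_sub hab] at h2
    exact h2
  set I := T.filter (fun t => a ≤ t.val ∧ t.val < b) with hI
  have hP : (W : ℝ) * I.card ≤ ∑ x ∈ J, (win T W x : ℝ) := by
    have h1 : W * I.card ≤ ∑ x ∈ J, win T W x := by
      have h2 : ∀ t ∈ I, W = (J.filter (fun x => (t - x).val < W)).card := by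
        intro t ht
        rw [hI, Finset.mem_filter] at ht
        have h00 := card_val_lt W hW t
        conv_lhs => rw [← h00]
        congr 1
        ext x
        rw [Finset.mem_filter, Finset.mem_filter]
        constructor
        · rintro ⟨-, hx⟩
          refine ⟨?_, hx⟩
          rw [hJ, Finset.mem_image]
          refine ⟨(b - 1 - t.val) + (t - x).val, ?_, ?_⟩
          · rw [Finset.mem_range]; omega
          · have e1 : ((b - 1 - t.val : ℕ) : ZMod v) = (b : ZMod v) - 1 - t := by
              rw [Nat.cast_sub (by omega), Nat.cast_sub (by omega), ZMod.natCast_zmod_val]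
              simp
            push_cast
            rw [e1, ZMod.natCast_zmod_val]
            ring
        · rintro ⟨-, hx⟩
          exact ⟨Finset.mem_univ _, hx⟩
      calc W * I.card = ∑ t ∈ I, W := by rw [Finset.sum_const, smul_eq_mul, mul_comm]
        _ = ∑ t ∈ I, (J.filter (fun x => (t - x).val < W)).card := Finset.sum_congr rfl h2
        _ = ∑ x ∈ J, (I.filter (fun t => (t - x).val < W)).card := by
            simp_rw [Finset.card_filter]
            rw [Finset.sum_comm]
        _ ≤ ∑ x ∈ J, win T W x := by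
            apply Finset.sum_le_sum
            intro x _
            unfold win
            apply Finset.card_le_card
            intro t ht
            rw [Finset.mem_filter] at ht ⊢
            exact ⟨(Finset.mem_filter.1 ht.1).1, ht.2⟩
    exact_mod_cast h1
  have hCS : (∑ x ∈ J, ((win T W x : ℝ) - μ)) ^ 2 ≤ J.card * (2 * τ * W) := by
    refine (sq_sum_le_card_mul_sum_sq (s := J) (f := fun x => (win T W x : ℝ) - μ)).trans ?_
    apply mul_le_mul_of_nonneg_left _ (Nat.cast_nonneg _)
    refine le_trans ?_ hvar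
    exact Finset.sum_le_sum_of_subset_of_nonneg (Finset.subset_univ _)
      (fun x _ _ => sq_nonneg _)
  have hsumJ : ∑ x ∈ J, ((win T W x : ℝ) - μ) = ∑ x ∈ J, (win T W x : ℝ) - J.card * μ := by
    rw [Finset.sum_sub_distrib, Finset.sum_const, nsmul_eq_mul]
  by_contra hcon
  rw [not_le] at hcon
  have hμ0 : 0 ≤ μ := by rw [hμ]; positivity
  have h3 : (J.card : ℝ) * μ ≤ ((b : ℝ) - a + W) * μ := mul_le_mul_of_nonneg_right hJcard hμ0
  have h4 : ((b : ℝ) - a + W) * μ = W * (((b : ℝ) - a + W) * τ / v) := by rw [hμ]; ring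
  have h5 : W * y < ∑ x ∈ J, ((win T W x : ℝ) - μ) := by
    rw [hsumJ]
    have : W * (((b : ℝ) - a + W) * τ / v + y) < W * I.card := mul_lt_mul_of_pos_left hcon hWpos
    rw [mul_add] at this
    linarith
  have h6 : (W * y) ^ 2 < (∑ x ∈ J, ((win T W x : ℝ) - μ)) ^ 2 :=
    pow_lt_pow_left₀ h5 (by positivity) (by norm_num)
  have h7 : (J.card : ℝ) * (2 * τ * W) ≤ ((b : ℝ) - a + W) * (2 * τ * W) :=
    mul_le_mul_of_nonneg_right hJcard (by positivity)
  have h8 : (W * y) ^ 2 < ((b : ℝ) - a + W) * (2 * τ * W) := by linarith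
  have h9 : ((b : ℝ) - a + W) * (2 * τ * W) ≤ y ^ 2 * W * W := by
    have := mul_le_mul_of_nonneg_right hy2 hWpos.le
    linarith
  have h10 : (W * y) ^ 2 = y ^ 2 * W * W := by ring
  linarith

end Pool.Agent.Lib.MP_2a564b_nt.Near
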