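import Mathlib
import Pool.Agent.Lib.MP_2a564b_nt.NearF
set_option autoImplicit false

namespace Pool.Agent.Lib.MP_2a564b_nt.Near

open Finset

/-- Sum of the representatives of `T`. -/
theorem val_sum {v : ℕ} [NeZero v] (T : Finset (ZMod v)) (hT : SidonMod T)
    (hτ : v ≤ T.card * T.card + T.card) (W : ℕ) (hW1 : 1 ≤ W) (hW : W ≤ v)
    (y : ℝ) (hy : 0 ≤ y) (hy2 : 2 * ((v : ℝ) + W) * T.card ≤ y ^ 2 * W) :
    (∑ t ∈ T, (t.val : ℝ)) ≤ T.card * ((v : ℝ) / 2 + W) + v * y := by
  classical
  have hvpos : (0 : ℝ) < v := by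
    have := NeZero.pos v
    exact_mod_cast this
  have hτ0 : (0 : ℝ) ≤ T.card := Nat.cast_nonneg _
  have h1 : ∀ t ∈ T, (t.val : ℝ) = ∑ i ∈ Finset.range v, (if i < t.val then (1 : ℝ) else 0) := by
    intro t _
    rw [← Finset.sum_filter, Finset.sum_const, nsmul_eq_mul, mul_one]
    have : (Finset.range v).filter (fun i => i < t.val) = Finset.range t.val := by
      ext i
      rw [Finset.mem_filter, Finset.mem_range, Finset.mem_range]
      have := ZMod.val_lt t
      omega
    rw [this, Finset.card_range]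
  rw [Finset.sum_congr rfl h1, Finset.sum_comm]
  have h2 : ∀ i ∈ Finset.range v, (∑ t ∈ T, (if i < t.val then (1 : ℝ) else 0)) ≤
      ((v : ℝ) - (i + 1 : ℕ) + W) * T.card / v + y := by
    intro i hi
    rw [Finset.mem_range] at hi
    have h3 := interval_bound T hT hτ W hW1 hW (i + 1) v (by omega) y hy (by
      refine le_trans ?_ hy2
      apply mul_le_mul_of_nonneg_right _ hτ0
      have : (0 : ℝ) ≤ ((i + 1 : ℕ) : ℝ) := Nat.cast_nonneg _
      linarith)
    refine le_trans (le_of_eq ?_) h3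
    rw [← Finset.sum_filter, Finset.sum_const, nsmul_eq_mul, mul_one]
    congr 2
    ext t
    rw [Finset.mem_filter, Finset.mem_filter]
    have := ZMod.val_lt t
    constructor
    · rintro ⟨ht, h⟩
      exact ⟨ht, by omega, this⟩
    · rintro ⟨ht, h, -⟩
      exact ⟨ht, by omega⟩
  refine (Finset.sum_le_sum h2).trans ?_
  rw [Finset.sum_add_distrib, Finset.sum_const, Finset.card_range, nsmul_eq_mul]
  have h4 : ∑ i ∈ Finset.range v, ((v : ℝ) - (i + 1 : ℕ) + W) * T.card / v ≤
      T.card * ((v : ℝ) / 2 + W) := by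
    have h5 : ∑ i ∈ Finset.range v, ((v : ℝ) - (i + 1 : ℕ) + W) = (v : ℝ) * v - (v * (v + 1) / 2) + v * W := by
      rw [Finset.sum_add_distrib, Finset.sum_sub_distrib, Finset.sum_const, Finset.sum_const,
        Finset.card_range, nsmul_eq_mul, nsmul_eq_mul]
      have h6 : ∀ n : ℕ, (∑ i ∈ Finset.range n, ((i + 1 : ℕ) : ℝ)) = (n : ℝ) * (n + 1) / 2 := by
        intro n
        induction n with
        | zero => simp
        | succ n ih =>
          rw [Finset.sum_range_succ, ih]
          push_cast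
          ring
      rw [h6]
    rw [← Finset.sum_div, ← Finset.sum_mul, h5, div_le_iff₀ hvpos]
    nlinarith [mul_nonneg hτ0 hvpos.le]
  linarith

/-- The largest element of a Sidon set of naturals. -/
theorem sidon_max (S : Finset ℕ)
    (hS : ∀ a ∈ S, ∀ b ∈ S, ∀ c ∈ S, ∀ d ∈ S, a ≠ b → (a : ℤ) - b = (c : ℤ) - d → a = c ∧ b = d)
    (M : ℕ) (hM : ∀ s ∈ S, s ≤ M) : S.card * S.card ≤ 2 * M + S.card := by
  classical
  have h1 : S.offDiag.card ≤ ((Finset.Icc (-(M : ℤ)) M).erase 0).card := by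
    apply Finset.card_le_card_of_injOn (fun p => (p.1 : ℤ) - p.2)
    · intro p hp
      rw [Finset.mem_coe, Finset.mem_offDiag] at hp
      rw [Finset.mem_coe, Finset.mem_erase, Finset.mem_Icc]
      have h2 := hM p.1 hp.1
      have h3 := hM p.2 hp.2.1
      refine ⟨?_, ?_, ?_⟩
      · intro h0
        apply hp.2.2
        have h4 : (p.1 : ℤ) - p.2 = 0 := h0
        omega
      · change -(M : ℤ) ≤ (p.1 : ℤ) - p.2
        omega
      · change (p.1 : ℤ) - p.2 ≤ M
        omega
    · intro p hp q hq hpq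
      rw [Finset.mem_coe, Finset.mem_offDiag] at hp hq
      have := hS p.1 hp.1 p.2 hp.2.1 q.1 hq.1 q.2 hq.2.1 hp.2.2 hpq
      exact Prod.ext this.1 this.2
  rw [Finset.offDiag_card, Finset.card_erase_of_mem (by rw [Finset.mem_Icc]; omega),
    Int.card_Icc] at h1
  have := Nat.le_mul_self S.card
  omega

/-- Lower bound for the sum of a Sidon set of naturals. -/
theorem sidon_sum (m : ℕ) : ∀ (S : Finset ℕ)
    (_ : ∀ a ∈ S, ∀ b ∈ S, ∀ c ∈ S, ∀ d ∈ S, a ≠ b → (a : ℤ) - b = (c : ℤ) - d → a = c ∧ b = d),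
    S.card = m → (m : ℤ) ^ 3 - m ≤ 6 * ∑ s ∈ S, (s : ℤ) := by
  classical
  induction m with
  | zero =>
    intro S _ hc
    rw [Finset.card_eq_zero] at hc
    subst hc
    simp
  | succ m ih =>
    intro S hS hc
    have hne : S.Nonempty := by
      rw [← Finset.card_pos]; omega
    set M := S.max' hne with hM
    have hMS : M ∈ S := Finset.max'_mem S hne
    have h1 := sidon_max S hS M (fun s hs => Finset.le_max' S s hs)
    have h2 := ih (S.erase M) (fun a ha b hb c hc' d hd => hS a (Finset.mem_of_mem_erase ha) b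
      (Finset.mem_of_mem_erase hb) c (Finset.mem_of_mem_erase hc') d (Finset.mem_of_mem_erase hd))
      (by rw [Finset.card_erase_of_mem hMS]; omega)
    rw [← Finset.add_sum_erase S _ hMS]
    rw [hc] at h1
    have h3 : ((m : ℤ) + 1) * (m + 1) ≤ 2 * M + (m + 1) := by exact_mod_cast h1
    push_cast
    nlinarith

/-- The partial involution. -/
theorem inv_exists {v : ℕ} [NeZero v] {T H : Finset (ZMod v)} (h : PD T H) (z : ZMod v)
    (hz : -z ∉ T) :
    ∃ g : ZMod v → ZMod v, (∀ t ∈ T, z + t ∉ H → g t ∈ T) ∧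
      (∀ t ∈ T, z + t ∉ H → z + t + g t ∈ T) ∧
      (∀ t ∈ T, ∀ s ∈ T, z + t ∉ H → z + s ∉ H → g t = g s → t = s) ∧
      (∀ t ∈ T, ∀ s ∈ T, z + t ∉ H → z + s ∉ H → t ≠ s →
        z + t + g t = z + s + g s → s = g t) := by
  classical
  have hne : ∀ t ∈ T, z + t ≠ 0 := by
    intro t ht h0
    apply hz
    have : t = -z := by rw [eq_neg_iff_add_eq_zero, add_comm]; exact h0
    rw [← this]; exact ht
  have hex : ∀ t, t ∈ T → z + t ∉ H → ∃ s ∈ T, z + t + s ∈ T := by
    intro t ht hH
    obtain ⟨a, ha, b, hb, hab⟩ := cover h (z + t) (hne t ht) hH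
    refine ⟨b, hb, ?_⟩
    have : z + t + b = a := by rw [← hab]; ring
    rw [this]; exact ha
  choose! g hg1 hg2 using hex
  refine ⟨g, hg1, hg2, ?_, ?_⟩
  · intro t ht s hs hHt hHs hgg
    by_contra hts
    have h3 := hg2 t ht hHt
    have h4 := hg2 s hs hHs
    rw [hgg] at h3
    have hne3 : z + t + g s ≠ z + s + g s := by
      intro hc
      apply hts
      have := add_right_cancel hc
      exact add_left_cancel this
    have := h.sidon _ h3 _ h4 t ht s hs hne3 (by ring)
    have h5 : z + g s = 0 := by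
      have e1 := this.1
      have : z + g s = (z + t + g s) - t := by ring
      rw [this, e1, sub_self]
    exact hne (g s) (hg1 s hs hHs) h5
  · intro t ht s hs hHt hHs hts heq
    have := h.sidon t ht s hs (g s) (hg1 s hs hHs) (g t) (hg1 t ht hHt) hts (by
      have : t - s = (z + t + g t) - (z + s + g s) + (g s - g t) := by ring
      rw [this, heq, sub_self, zero_add])
    exact this.2

end Pool.Agent.Lib.MP_2a564b_nt.Near
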