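import Mathlib
import Pool.Agent.Lib.MP_2a564b_nt.NearE
import Pool.Agent.Lib.MP_2a564b_nt.NearG
set_option autoImplicit false

namespace Pool.Agent.Lib.MP_2a564b_nt.Near

open Finset

theorem arith_aux (V g c S1 P X Y ga gv Sg : ℤ) (h7 : c ≤ 6 * S1) (h8 : S1 ≤ P)
    (h9 : X + Y = P + ga + gv) (h10 : X ≤ Sg) (h11 : Y ≤ Sg) (h12 : 0 ≤ ga) (h13 : V * g = gv) :
    6 * (V * g) + c ≤ 12 * Sg := by
  rw [h13]
  linarith

/-- The conflict count. -/
theorem core {v : ℕ} [NeZero v] {T H : Finset (ZMod v)} (hpd : PD T H) (he : ∀ z, e T H z ≤ 2)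
    (B : Finset ℕ) (hB : ∀ a ∈ B, ∀ b ∈ B, ∀ c ∈ B, ∀ d ∈ B, a + b = c + d →
      (a = c ∧ b = d) ∨ (a = d ∧ b = c))
    (a : ℕ) (ha : a ∈ B) (haT : (a : ZMod v) ∉ T)
    (D : ℕ) (hD : (T.filter (fun t => t.val ∉ B)).card ≤ D) :
    ∃ g m : ℕ, T.card ≤ g + 2 + 4 * D + a ∧ g ≤ 2 * m ∧
      6 * ((v : ℤ) * g) + ((m : ℤ) ^ 3 - m) ≤ 12 * ∑ t ∈ T, (t.val : ℤ) := by
  classical
  set z : ZMod v := -(a : ZMod v) with hz
  have hzT : -z ∉ T := by rw [hz, neg_neg]; exact haT
  obtain ⟨f, hf1, hf2, hf3, hf4⟩ := inv_exists hpd z hzT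
  set G := T.filter (fun t => z + t ∉ H ∧ t.val ∈ B ∧ (f t).val ∈ B ∧ (z + t + f t).val ∈ B ∧
    a ≤ t.val) with hG
  -- the counting part
  have hfib : ∀ (P : Finset (ZMod v)), (∀ t ∈ P, t ∈ T ∧ z + t ∉ H) → ∀ b : ZMod v,
      (P.filter (fun t => z + t + f t = b)).card ≤ 2 := by
    intro P hP b
    rcases (P.filter (fun t => z + t + f t = b)).eq_empty_or_nonempty with h0 | ⟨t0, ht0⟩
    · rw [h0]; simp
    · have hsub : P.filter (fun t => z + t + f t = b) ⊆ {t0, f t0} := by
        intro s hs
        rw [Finset.mem_filter] at hs ht0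
        rw [Finset.mem_insert, Finset.mem_singleton]
        by_cases hst : s = t0
        · exact Or.inl hst
        · right
          exact hf4 t0 (hP t0 ht0.1).1 s (hP s hs.1).1 (hP t0 ht0.1).2 (hP s hs.1).2
            (Ne.symm hst) (by rw [ht0.2, hs.2])
      exact (Finset.card_le_card hsub).trans Finset.card_le_two
  have hcount : T.card ≤ G.card + 2 + 4 * D + a := by
    have hcov : T ⊆ G ∪ (T.filter (fun t => z + t ∈ H) ∪ (T.filter (fun t => t.val ∉ B) ∪
        (T.filter (fun t => z + t ∉ H ∧ (f t).val ∉ B) ∪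
        (T.filter (fun t => z + t ∉ H ∧ (z + t + f t).val ∉ B) ∪
        T.filter (fun t => t.val < a))))) := by
      intro t ht
      simp only [hG, Finset.mem_union, Finset.mem_filter, ht, true_and]
      by_cases h1 : z + t ∈ H
      · tauto
      by_cases h2 : t.val ∈ B
      · by_cases h3 : (f t).val ∈ B
        · by_cases h4 : (z + t + f t).val ∈ B
          · rcases Nat.lt_or_ge t.val a with h5 | h5
            · tauto
            · tauto
          · tauto
        · tauto
      · tauto
    have hb1 : (T.filter (fun t => z + t ∈ H)).card ≤ 2 := he z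
    have hb3 : (T.filter (fun t => z + t ∉ H ∧ (f t).val ∉ B)).card ≤ D := by
      refine le_trans ?_ hD
      apply Finset.card_le_card_of_injOn f
      · intro t ht
        rw [Finset.mem_coe, Finset.mem_filter] at ht
        rw [Finset.mem_coe, Finset.mem_filter]
        exact ⟨hf1 t ht.1 ht.2.1, ht.2.2⟩
      · intro t ht s hs hts
        rw [Finset.mem_coe, Finset.mem_filter] at ht hs
        exact hf3 t ht.1 s hs.1 ht.2.1 hs.2.1 hts
    have hb4 : (T.filter (fun t => z + t ∉ H ∧ (z + t + f t).val ∉ B)).card ≤ 2 * D := by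
      have h5 := Finset.card_le_mul_card_image_of_maps_to
        (s := T.filter (fun t => z + t ∉ H ∧ (z + t + f t).val ∉ B))
        (t := T.filter (fun t => t.val ∉ B)) (f := fun t => z + t + f t) (by
          intro t ht
          rw [Finset.mem_filter] at ht
          rw [Finset.mem_filter]
          exact ⟨hf2 t ht.1 ht.2.1, ht.2.2⟩) 2 (by
          intro b _
          apply hfib
          intro t ht
          rw [Finset.mem_filter] at ht
          exact ⟨ht.1, ht.2.1⟩)
      exact h5.trans (Nat.mul_le_mul_left 2 hD)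
    have hb5 : (T.filter (fun t => t.val < a)).card ≤ a := by
      rw [← Finset.card_range a]
      conv_lhs => rw [Finset.card_range]
      apply Finset.card_le_card_of_injOn (fun t => t.val)
      · intro t ht
        rw [Finset.mem_coe, Finset.mem_filter] at ht
        rw [Finset.mem_coe, Finset.mem_range]
        exact ht.2
      · intro t _ s _ hts
        exact ZMod.val_injective v hts
    have h6 := Finset.card_le_card hcov
    have h7 := Finset.card_union_le G (T.filter (fun t => z + t ∈ H) ∪ (T.filter (fun t => t.val ∉ B) ∪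
        (T.filter (fun t => z + t ∉ H ∧ (f t).val ∉ B) ∪
        (T.filter (fun t => z + t ∉ H ∧ (z + t + f t).val ∉ B) ∪
        T.filter (fun t => t.val < a)))))
    have h8 := Finset.card_union_le (T.filter (fun t => z + t ∈ H)) (T.filter (fun t => t.val ∉ B) ∪
        (T.filter (fun t => z + t ∉ H ∧ (f t).val ∉ B) ∪
        (T.filter (fun t => z + t ∉ H ∧ (z + t + f t).val ∉ B) ∪
        T.filter (fun t => t.val < a))))
    have h9 := Finset.card_union_le (T.filter (fun t => t.val ∉ B))
        (T.filter (fun t => z + t ∉ H ∧ (f t).val ∉ B) ∪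
        (T.filter (fun t => z + t ∉ H ∧ (z + t + f t).val ∉ B) ∪
        T.filter (fun t => t.val < a)))
    have h10 := Finset.card_union_le (T.filter (fun t => z + t ∉ H ∧ (f t).val ∉ B))
        (T.filter (fun t => z + t ∉ H ∧ (z + t + f t).val ∉ B) ∪ T.filter (fun t => t.val < a))
    have h11 := Finset.card_union_le (T.filter (fun t => z + t ∉ H ∧ (z + t + f t).val ∉ B))
        (T.filter (fun t => t.val < a))
    omega
  -- the key identity
  have hkey : ∀ t ∈ G, t.val + (f t).val = (z + t + f t).val + a + v := by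
    intro t ht
    rw [hG, Finset.mem_filter] at ht
    obtain ⟨htT, htH, h1, h2, h3, h4⟩ := ht
    have hcong : ((t.val + (f t).val : ℕ) : ZMod v) = (((z + t + f t).val + a : ℕ) : ZMod v) := by
      push_cast
      rw [ZMod.natCast_zmod_val, ZMod.natCast_zmod_val, ZMod.natCast_zmod_val, hz]
      ring
    have hmod := (ZMod.natCast_eq_natCast_iff _ _ _).1 hcong
    have hdvd := (Nat.modEq_iff_dvd).1 hmod
    obtain ⟨j, hj⟩ := hdvd
    have e1 := ZMod.val_lt t
    have e2 := ZMod.val_lt (f t)
    have e3 := ZMod.val_lt (z + t + f t)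
    push_cast at hj
    have hvp : (0 : ℤ) < v := by exact_mod_cast NeZero.pos v
    have i1 : (t.val : ℤ) < v := by exact_mod_cast e1
    have i2 : ((f t).val : ℤ) < v := by exact_mod_cast e2
    have i3 : ((z + t + f t).val : ℤ) < v := by exact_mod_cast e3
    have i4 : (a : ℤ) ≤ t.val := by exact_mod_cast h4
    have i5 : (0 : ℤ) ≤ (f t).val := Int.natCast_nonneg _
    have i6 : (0 : ℤ) ≤ (z + t + f t).val := Int.natCast_nonneg _
    have i7 : (0 : ℤ) ≤ (a : ℤ) := Int.natCast_nonneg _
    have hj1 : -2 < j := by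
      by_contra hc
      rw [not_lt] at hc
      nlinarith
    have hj2 : j < 1 := by
      by_contra hc
      rw [not_lt] at hc
      nlinarith
    have hj3 : j = -1 ∨ j = 0 := by omega
    rcases hj3 with hj3 | hj3
    · subst hj3
      have : ((t.val + (f t).val : ℕ) : ℤ) = (((z + t + f t).val + a + v : ℕ) : ℤ) := by
        push_cast
        linarith
      exact_mod_cast this
    · exfalso
      subst hj3
      have h5 : t.val + (f t).val = (z + t + f t).val + a := by
        have : ((t.val + (f t).val : ℕ) : ℤ) = (((z + t + f t).val + a : ℕ) : ℤ) := by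
          push_cast
          linarith
        exact_mod_cast this
      rcases hB _ h1 _ h2 _ h3 _ ha h5 with ⟨-, h6⟩ | ⟨h6, -⟩
      · apply haT
        have : (a : ZMod v) = f t := by rw [← h6, ZMod.natCast_zmod_val]
        rw [this]; exact hf1 t htT htH
      · apply haT
        have : (a : ZMod v) = t := by rw [← h6, ZMod.natCast_zmod_val]
        rw [this]; exact htT
  have hGP : ∀ t ∈ G, t ∈ T ∧ z + t ∉ H := by
    intro t ht
    rw [hG, Finset.mem_filter] at ht
    exact ⟨ht.1, ht.2.1⟩
  set S : Finset ℕ := G.image (fun t => (z + t + f t).val) with hS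
  refine ⟨G.card, S.card, hcount, ?_, ?_⟩
  · have h5 := Finset.card_le_mul_card_image_of_maps_to (s := G) (t := S)
      (f := fun t => (z + t + f t).val) (fun t ht => Finset.mem_image_of_mem _ ht) 2 (by
        intro b _
        have h6 := hfib G hGP (b : ZMod v)
        refine le_trans (Finset.card_le_card ?_) h6
        intro t ht
        rw [Finset.mem_filter] at ht ⊢
        refine ⟨ht.1, ?_⟩
        rw [← ht.2, ZMod.natCast_zmod_val])
    exact h5
  · have hsid : ∀ a ∈ S, ∀ b ∈ S, ∀ c ∈ S, ∀ d ∈ S, a ≠ b → (a : ℤ) - b = (c : ℤ) - d →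
        a = c ∧ b = d := by
      intro x hx y hy x' hx' y' hy' hxy heq
      rw [hS, Finset.mem_image] at hx hy hx' hy'
      obtain ⟨t1, ht1, rfl⟩ := hx
      obtain ⟨t2, ht2, rfl⟩ := hy
      obtain ⟨t3, ht3, rfl⟩ := hx'
      obtain ⟨t4, ht4, rfl⟩ := hy'
      have h5 : (z + t1 + f t1) - (z + t2 + f t2) = (z + t3 + f t3) - (z + t4 + f t4) := by
        have h50 := congrArg (fun w : ℤ => (w : ZMod v)) heq
        simp only [Int.cast_sub, Int.cast_natCast, ZMod.natCast_zmod_val] at h50
        exact h50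
      have h6 := hpd.sidon _ (hf2 t1 (hGP t1 ht1).1 (hGP t1 ht1).2) _
        (hf2 t2 (hGP t2 ht2).1 (hGP t2 ht2).2) _ (hf2 t3 (hGP t3 ht3).1 (hGP t3 ht3).2) _
        (hf2 t4 (hGP t4 ht4).1 (hGP t4 ht4).2) (fun hc => hxy (congrArg ZMod.val hc)) h5
      exact ⟨congrArg ZMod.val h6.1, congrArg ZMod.val h6.2⟩
    have h7 := sidon_sum S.card S hsid rfl
    have h8 : ∑ s ∈ S, (s : ℤ) ≤ ∑ t ∈ G, ((z + t + f t).val : ℤ) := by
      rw [← Finset.sum_fiberwise_of_maps_to (s := G) (t := S)
        (g := fun t => (z + t + f t).val) (fun t ht => Finset.mem_image_of_mem _ ht)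
        (fun t => ((z + t + f t).val : ℤ))]
      apply Finset.sum_le_sum
      intro s hs
      rw [hS, Finset.mem_image] at hs
      obtain ⟨t, ht, rfl⟩ := hs
      exact Finset.single_le_sum (f := fun t => ((z + t + f t).val : ℤ))
        (fun i _ => Int.natCast_nonneg _) (Finset.mem_filter.2 ⟨ht, rfl⟩)
    have h9 : ∑ t ∈ G, ((t.val : ℤ) + (f t).val) =
        ∑ t ∈ G, (((z + t + f t).val : ℤ) + a + v) := by
      apply Finset.sum_congr rfl
      intro t ht
      exact_mod_cast hkey t ht
    rw [Finset.sum_add_distrib, Finset.sum_add_distrib, Finset.sum_add_distrib, Finset.sum_const,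
      Finset.sum_const, nsmul_eq_mul, nsmul_eq_mul] at h9
    have h10 : ∑ t ∈ G, (t.val : ℤ) ≤ ∑ t ∈ T, (t.val : ℤ) :=
      Finset.sum_le_sum_of_subset_of_nonneg (fun t ht => (hGP t ht).1)
        (fun i _ _ => Int.natCast_nonneg _)
    have h11 : ∑ t ∈ G, ((f t).val : ℤ) ≤ ∑ t ∈ T, (t.val : ℤ) := by
      rw [← Finset.sum_image (g := f) (f := fun t : ZMod v => (t.val : ℤ)) (s := G)]
      · apply Finset.sum_le_sum_of_subset_of_nonneg
        · intro s hs
          rw [Finset.mem_image] at hs
          obtain ⟨t, ht, rfl⟩ := hs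
          exact hf1 t (hGP t ht).1 (hGP t ht).2
        · intro i _ _
          exact Int.natCast_nonneg _
      · intro t ht s hs hts
        exact hf3 t (hGP t ht).1 s (hGP s hs).1 (hGP t ht).2 (hGP s hs).2 hts
    exact arith_aux _ _ _ _ _ _ _ _ _ _ h7 h8 h9 h10 h11
      (mul_nonneg (Int.natCast_nonneg _) (Int.natCast_nonneg _)) (mul_comm _ _)

end Pool.Agent.Lib.MP_2a564b_nt.Near
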