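import Mathlib
import Pool.Agent.Lib.MP_2a564b_nt.NearH
set_option autoImplicit false

namespace Pool.Agent.Lib.MP_2a564b_nt.Near

open Finset

theorem card_icc_erase (k : ℕ) : ((Finset.Icc (-(k : ℤ)) (k : ℤ)).erase 0).card = 2 * k := by
  rw [Finset.card_erase_of_mem (by rw [Finset.mem_Icc]; constructor <;> omega), Int.card_Icc]
  omega

/-- collisions modulo `v` -/
theorem coll {v : ℕ} [NeZero v] (T : Finset (ZMod v)) (B : Finset ℕ)
    (hB : ∀ a ∈ B, ∀ b ∈ B, ∀ c ∈ B, ∀ d ∈ B, a + b = c + d →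
      (a = c ∧ b = d) ∨ (a = d ∧ b = c)) (M : ℕ) (hM : ∀ b ∈ B, b ≤ M)
    (hBT : ∀ b ∈ B, (b : ZMod v) ∈ T) :
    B.card * B.card ≤ T.card * (B.card + 2 * (M / v)) := by
  classical
  set P := B.offDiag.filter (fun p => ((p.1 : ℕ) : ZMod v) = (p.2 : ZMod v)) with hP
  have hvp : (0 : ℤ) < v := by exact_mod_cast NeZero.pos v
  have hPc : P.card ≤ 2 * (M / v) := by
    have hc := card_icc_erase (M / v)
    rw [← hc]
    have hdiv : ∀ p ∈ P, ∃ j : ℤ, (p.1 : ℤ) - p.2 = v * j := by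
      intro p hp
      rw [hP, Finset.mem_filter] at hp
      have h1 := (ZMod.natCast_eq_natCast_iff _ _ _).1 hp.2.symm
      obtain ⟨j, hj⟩ := (Nat.modEq_iff_dvd).1 h1
      exact ⟨j, hj⟩
    choose! j hj using hdiv
    apply Finset.card_le_card_of_injOn j
    · intro p hp
      have hp' := hj p hp
      rw [Finset.mem_coe, hP, Finset.mem_filter, Finset.mem_offDiag] at hp
      have h1 := hM p.1 hp.1.1
      have h2 := hM p.2 hp.1.2.1
      rw [Finset.mem_coe, Finset.mem_erase, Finset.mem_Icc]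
      have hdm : ((M / v : ℕ) : ℤ) = (M : ℤ) / v := by push_cast; rfl
      rw [hdm]
      refine ⟨?_, ?_, ?_⟩
      · intro h0
        rw [h0, mul_zero] at hp'
        apply hp.1.2.2
        omega
      · have : -j p ≤ (M : ℤ) / v := by
          rw [Int.le_ediv_iff_mul_le hvp]
          have : -j p * v = (p.2 : ℤ) - p.1 := by linarith [hp']
          rw [this]
          omega
        linarith
      · rw [Int.le_ediv_iff_mul_le hvp]
        have : j p * v = (p.1 : ℤ) - p.2 := by linarith [hp']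
        rw [this]
        omega
    · intro p hp q hq hpq
      have hp' := hj p hp
      have hq' := hj q hq
      rw [hpq, ← hq'] at hp'
      rw [Finset.mem_coe, hP, Finset.mem_filter, Finset.mem_offDiag] at hp hq
      have h3 : p.1 + q.2 = q.1 + p.2 := by omega
      rcases hB _ hp.1.1 _ hq.1.2.1 _ hq.1.1 _ hp.1.2.1 h3 with ⟨h4, h5⟩ | ⟨h4, -⟩
      · exact Prod.ext h4 h5.symm
      · exact absurd h4 hp.1.2.2
  have h1 : B.card = ∑ t ∈ T, (B.filter (fun b => ((b : ℕ) : ZMod v) = t)).card :=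
    Finset.card_eq_sum_card_fiberwise (fun b hb => hBT b hb)
  have h2 : ∑ t ∈ T, (B.filter (fun b => ((b : ℕ) : ZMod v) = t)).card ^ 2 ≤
      B.card + P.card := by
    have h3 : ∀ t ∈ T, (B.filter (fun b => ((b : ℕ) : ZMod v) = t)).card ^ 2 =
        (B.filter (fun b => ((b : ℕ) : ZMod v) = t)).card +
        (P.filter (fun p => ((p.1 : ℕ) : ZMod v) = t)).card := by
      intro t _
      have : P.filter (fun p => ((p.1 : ℕ) : ZMod v) = t) =
          (B.filter (fun b => ((b : ℕ) : ZMod v) = t)).offDiag := by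
        ext p
        simp only [hP, Finset.mem_filter, Finset.mem_offDiag]
        constructor
        · rintro ⟨⟨⟨h1, h2, h3⟩, h4⟩, h5⟩
          exact ⟨⟨h1, h5⟩, ⟨h2, by rw [← h4]; exact h5⟩, h3⟩
        · rintro ⟨⟨h1, h5⟩, ⟨h2, h6⟩, h3⟩
          exact ⟨⟨⟨h1, h2, h3⟩, by rw [h5, h6]⟩, h5⟩
      rw [this, Finset.offDiag_card, sq]
      have := Nat.le_mul_self (B.filter (fun b => ((b : ℕ) : ZMod v) = t)).card
      omega
    rw [Finset.sum_congr rfl h3, Finset.sum_add_distrib, ← h1]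
    apply Nat.add_le_add_left
    rw [← Finset.card_eq_sum_card_fiberwise (f := fun p : ℕ × ℕ => ((p.1 : ℕ) : ZMod v)) (s := P)
      (t := T)]
    intro p hp
    rw [Finset.mem_coe, hP, Finset.mem_filter, Finset.mem_offDiag] at hp
    exact hBT _ hp.1.1
  have h4 := sq_sum_le_card_mul_sum_sq (s := T)
    (f := fun t => (B.filter (fun b => ((b : ℕ) : ZMod v) = t)).card)
  rw [← h1] at h4
  calc B.card * B.card = B.card ^ 2 := by ring
    _ ≤ T.card * ∑ t ∈ T, (B.filter (fun b => ((b : ℕ) : ZMod v) = t)).card ^ 2 := h4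
    _ ≤ T.card * (B.card + P.card) := Nat.mul_le_mul_left _ h2
    _ ≤ _ := Nat.mul_le_mul_left _ (Nat.add_le_add_left hPc _)

/-- first lower bound for `τ` -/
theorem lowτ (N S τ v K M : ℝ) (hN : 10 ^ 21 ≤ N) (hS : 0.9999 * N ≤ S) (hSN : S ≤ N)
    (hM : M ≤ 1.0001 * N ^ 2) (hτ : 3 ≤ τ) (hv : τ * τ + 1 ≤ v + τ)
    (hK : K * v ≤ M) (hK0 : 0 ≤ K)
    (hc : S * S ≤ τ * (S + 2 * K)) : 0.9998 * N - 19 ≤ τ := by
  have hNp : 0 < N := by linarith
  have hvpos : 0 < v := by nlinarith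
  have h7 : 7 * τ ≤ 3 * v := by nlinarith
  have hKτ : 7 * (τ * K) ≤ 3 * M := by nlinarith
  have h8 : N / 8 ≤ τ := by
    by_contra hlt
    rw [not_le] at hlt
    have e1 : S * S ≤ τ * S + 2 * (τ * K) := by linarith
    have e2 : (0.9999 * N) * (0.9999 * N) ≤ S * S :=
      mul_le_mul hS hS (by positivity) (by linarith)
    have e3 : τ * S ≤ N / 8 * N := mul_le_mul hlt.le hSN (by linarith) (by positivity)
    nlinarith
  have h9 : τ * K ≤ 9.01 * N := by
    have e1 : (τ - 1) * τ ≤ v := by nlinarith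
    have e2 : N / 9 ≤ τ - 1 := by linarith
    have e3 : (τ - 1) * τ * K ≤ M := le_trans (mul_le_mul_of_nonneg_right e1 hK0) (by linarith)
    have e4 : N / 9 * (τ * K) ≤ 1.0001 * N ^ 2 := by
      have : N / 9 * (τ * K) ≤ (τ - 1) * (τ * K) :=
        mul_le_mul_of_nonneg_right e2 (by positivity)
      linarith
    have e5 : N * (τ * K) ≤ N * (9.01 * N) := by nlinarith
    exact le_of_mul_le_mul_left e5 hNp
  by_contra hlt
  rw [not_le] at hlt
  have e1 : S * S ≤ τ * S + 2 * (τ * K) := by linarith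
  have e2 : (0.9999 * N) * (0.9999 * N) ≤ S * S :=
    mul_le_mul hS hS (by positivity) (by linarith)
  have e3 : τ * S ≤ (0.9998 * N - 19) * N := mul_le_mul hlt.le hSN (by linarith) (by linarith)
  nlinarith

theorem final_arith (N τ v W D g m a Sg : ℝ) (hN : 10 ^ 21 ≤ N) (hτl : 0.9998 * N - 19 ≤ τ)
    (hτh : τ ≤ 1.0015 * N) (hv2 : v ≤ τ * τ + τ) (hv0 : 0 ≤ v)
    (hW : W ≤ N ^ 2 / 4000) (hD : D ≤ 0.0035 * N) (ha : a ≤ N / 10 ^ 6)
    (hg : τ ≤ g + 2 + 4 * D + a) (hm : g ≤ 2 * m)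
    (hsum : 6 * (v * g) + (m ^ 3 - m) ≤ 12 * Sg)
    (hSg : Sg ≤ τ * (v / 2 + W) + v * (N / 1000)) : False := by
  have hNp : 0 < N := by linarith
  have h1 : τ * τ ≤ 1.00301 * N ^ 2 := by nlinarith
  have hvN : v ≤ 1.0031 * N ^ 2 := by nlinarith
  have hgN : 0.985 * N ≤ g := by linarith
  have hmN : 0.4925 * N ≤ m := by linarith
  have hm3 : 0.119 * N ^ 3 ≤ m ^ 3 - m := by
    have e1 : (0.4925 * N) ^ 2 ≤ m ^ 2 := pow_le_pow_left₀ (by positivity) hmN 2
    have e2 : m ^ 3 - m = m * (m ^ 2 - 1) := by ring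
    have e3 : 0.2425 * N ^ 2 ≤ m ^ 2 - 1 := by nlinarith
    rw [e2]
    calc 0.119 * N ^ 3 ≤ (0.4925 * N) * (0.2425 * N ^ 2) := by nlinarith [pow_pos hNp 3]
      _ ≤ m * (m ^ 2 - 1) := mul_le_mul hmN e3 (by positivity) (by linarith)
  have h2 : v * (τ - g) ≤ v * (0.01401 * N) := by
    apply mul_le_mul_of_nonneg_left _ hv0
    linarith
  have h3 : v * (0.01401 * N) ≤ 1.0031 * N ^ 2 * (0.01401 * N) :=
    mul_le_mul_of_nonneg_right hvN (by positivity)
  have h4 : τ * W ≤ 1.0015 * N * (N ^ 2 / 4000) := by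
    have : 0 ≤ τ := by linarith
    calc τ * W ≤ τ * (N ^ 2 / 4000) := mul_le_mul_of_nonneg_left hW this
      _ ≤ 1.0015 * N * (N ^ 2 / 4000) := mul_le_mul_of_nonneg_right hτh (by positivity)
  have h5 : v * (N / 1000) ≤ 1.0031 * N ^ 2 * (N / 1000) :=
    mul_le_mul_of_nonneg_right hvN (by positivity)
  have h6 : m ^ 3 - m ≤ 6 * (v * (τ - g)) + 12 * (τ * W) + 12 * (v * (N / 1000)) := by
    have e1 : 12 * Sg ≤ 6 * (v * τ) + 12 * (τ * W) + 12 * (v * (N / 1000)) := by nlinarith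
    have e2 : 6 * (v * (τ - g)) = 6 * (v * τ) - 6 * (v * g) := by ring
    linarith
  have h7 : 0 < N ^ 3 := pow_pos hNp 3
  have h8 : 1.0031 * N ^ 2 * (0.01401 * N) = 1.0031 * 0.01401 * N ^ 3 := by ring
  have h9 : 1.0015 * N * (N ^ 2 / 4000) = 1.0015 / 4000 * N ^ 3 := by ring
  have h10 : 1.0031 * N ^ 2 * (N / 1000) = 1.0031 / 1000 * N ^ 3 := by ring
  rw [h8] at h3
  rw [h9] at h4
  rw [h10] at h5
  norm_num at h3 h4 h5
  nlinarith

end Pool.Agent.Lib.MP_2a564b_nt.Near
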