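import Mathlib
import Pool.Agent.Lib.MP_2a564b_nt.NearI
set_option autoImplicit false

namespace Pool.Agent.Lib.MP_2a564b_nt.Near

open Finset

theorem hy2_arith (N X τ W : ℝ) (hN : 10 ^ 21 ≤ N) (hX : X ≤ 1.01 * N ^ 2)
    (hτ : 10 ^ 10 * τ ≤ N ^ 2) (hτ0 : 0 ≤ τ) (hW : N ^ 2 / 4001 ≤ W) :
    2 * X * τ ≤ (N / 1000) ^ 2 * W := by
  have hNp : 0 < N := by linarith
  have h1 : X * τ ≤ 1.01 * N ^ 2 * (N ^ 2 / 10 ^ 10) := by
    calc X * τ ≤ 1.01 * N ^ 2 * τ := mul_le_mul_of_nonneg_right hX hτ0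
      _ ≤ 1.01 * N ^ 2 * (N ^ 2 / 10 ^ 10) := by
        apply mul_le_mul_of_nonneg_left _ (by positivity)
        linarith
  have h2 : (N / 1000) ^ 2 * (N ^ 2 / 4001) ≤ (N / 1000) ^ 2 * W :=
    mul_le_mul_of_nonneg_left hW (by positivity)
  have h3 : 0 < N ^ 4 := by positivity
  have h4 : 1.01 * N ^ 2 * (N ^ 2 / 10 ^ 10) = 1.01 / 10 ^ 10 * N ^ 4 := by ring
  have h5 : (N / 1000) ^ 2 * (N ^ 2 / 4001) = 1 / (1000 ^ 2 * 4001) * N ^ 4 := by ring
  rw [h4] at h1
  rw [h5] at h2
  norm_num at h1 h2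
  nlinarith

theorem crude_τ (N τ v : ℝ) (hN : 10 ^ 21 ≤ N) (hv1 : τ * τ + 1 ≤ v + τ)
    (hv : v ≤ N ^ 3) : 10 ^ 10 * τ ≤ N ^ 2 := by
  have hNp : 0 < N := by linarith
  by_contra hcon
  rw [not_le] at hcon
  have h1 : 10 ^ 11 * N ≤ τ := by
    have : 10 ^ 21 * N ≤ N ^ 2 := by nlinarith
    linarith
  have h2 : τ / 2 ≤ τ - 1 := by linarith
  have h3 : τ * (τ / 2) ≤ τ * (τ - 1) := mul_le_mul_of_nonneg_left h2 (by linarith)
  have h4 : N ^ 2 * (10 ^ 11 * N) ≤ (10 ^ 10 * τ) * τ :=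
    mul_le_mul hcon.le h1 (by positivity) (by linarith)
  have h5 : 0 < N ^ 3 := by positivity
  nlinarith

theorem hi_τ (N X τ v : ℝ) (hN : 10 ^ 21 ≤ N) (hX : X ≤ 1.00036 * N ^ 2)
    (h : 0.9999 * N ≤ X * τ / v + N / 1000) (hτ : 3 ≤ τ) (hv1 : τ * τ + 1 ≤ v + τ) :
    τ ≤ 1.0015 * N := by
  have hNp : 0 < N := by linarith
  have hvp : 0 < v := by nlinarith
  have h1 : 0.9989 * N ≤ X * τ / v := by linarith
  rw [le_div_iff₀ hvp] at h1
  have h2 : X * τ ≤ 1.00036 * N ^ 2 * τ := mul_le_mul_of_nonneg_right hX (by linarith)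
  have h3 : N * (0.9989 * v) ≤ N * (1.00036 * N * τ) := by nlinarith
  have h4 := le_of_mul_le_mul_left h3 hNp
  have h5 : τ * (0.9989 * (τ - 1)) ≤ τ * (1.00036 * N) := by nlinarith
  have h6 := le_of_mul_le_mul_left h5 (by linarith)
  nlinarith

theorem hi_τ' (N τ v M : ℝ) (hN : 10 ^ 21 ≤ N) (hM : M ≤ 1.0001 * N ^ 2) (hvM : v ≤ M)
    (hv1 : τ * τ + 1 ≤ v + τ) : τ ≤ 1.0015 * N := by
  have hNp : 0 < N := by linarith
  by_contra hcon
  rw [not_le] at hcon
  have h1 : (1.0015 * N) * (1.0014 * N) ≤ τ * (τ - 1) :=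
    mul_le_mul hcon.le (by linarith) (by positivity) (by linarith)
  nlinarith

theorem lo_v (N τ v : ℝ) (hN : 10 ^ 21 ≤ N) (hτl : 0.9998 * N - 19 ≤ τ)
    (hv1 : τ * τ + 1 ≤ v + τ) : 0.9995 * N ^ 2 ≤ v := by
  have hNp : 0 < N := by linarith
  have h1 : (0.9998 * N - 19) * (0.9998 * N - 20) ≤ τ * (τ - 1) :=
    mul_le_mul hτl (by linarith) (by linarith) (by linarith)
  nlinarith

theorem hi_D (N τ v X : ℝ) (hN : 10 ^ 21 ≤ N) (hτl : 3 ≤ τ) (hτh : τ ≤ 1.0015 * N)
    (hv : 0.9995 * N ^ 2 ≤ v) (hX : X ≤ 0.00086 * N ^ 2) :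
    X * τ / v + N / 1000 ≤ 0.00187 * N := by
  have hNp : 0 < N := by linarith
  have hvp : 0 < v := by nlinarith
  have h1 : X * τ ≤ 0.00086 * N ^ 2 * (1.0015 * N) := by
    calc X * τ ≤ 0.00086 * N ^ 2 * τ := mul_le_mul_of_nonneg_right hX (by linarith)
      _ ≤ _ := mul_le_mul_of_nonneg_left hτh (by positivity)
  have h2 : X * τ / v ≤ 0.000865 * N := by
    rw [div_le_iff₀ hvp]
    have : 0.000865 * N * (0.9995 * N ^ 2) ≤ 0.000865 * N * v :=
      mul_le_mul_of_nonneg_left hv (by positivity)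
    have h3 : 0 < N ^ 3 := by positivity
    nlinarith
  linarith

/-- transfer of the solution count -/
theorem r_transfer {v : ℕ} [NeZero v] (T : Finset (ZMod v)) (A : Finset ℕ)
    (hA : ∀ a ∈ A, a < v) (hAT : ∀ a ∈ A, (a : ZMod v) ∈ T) (z : ℤ) :
    ((A ×ˢ A).filter (fun p => (p.2 : ℤ) - 2 * p.1 = z)).card ≤ r T (z : ZMod v) := by
  classical
  unfold r
  apply Finset.card_le_card_of_injOn (fun p => ((p.1 : ℕ) : ZMod v))
  · intro p hp
    rw [Finset.mem_coe, Finset.mem_filter, Finset.mem_product] at hp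
    rw [Finset.mem_coe, Finset.mem_filter]
    refine ⟨hAT _ hp.1.1, ?_⟩
    have : (z : ZMod v) + 2 * ((p.1 : ℕ) : ZMod v) = ((p.2 : ℕ) : ZMod v) := by
      rw [← hp.2]; push_cast; ring
    rw [this]
    exact hAT _ hp.1.2
  · intro p hp q hq hpq
    rw [Finset.mem_coe, Finset.mem_filter, Finset.mem_product] at hp hq
    have h1 : p.1 = q.1 := by
      have := congrArg ZMod.val hpq
      simp only at this
      rwa [ZMod.val_natCast_of_lt (hA _ hp.1.1), ZMod.val_natCast_of_lt (hA _ hq.1.1)] at this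
    have h2 : p.2 = q.2 := by
      have e1 := hp.2
      have e2 := hq.2
      rw [h1] at e1
      omega
    exact Prod.ext h1 h2

/-- The number of elements of `T` without representative in `B`, against the number of elements
of `B` beyond `v`. -/
theorem D_bound {v : ℕ} [NeZero v] (T : Finset (ZMod v)) (B : Finset ℕ) :
    (T.filter (fun t => t.val ∉ B)).card + (B.filter (fun b => ((b : ℕ) : ZMod v) ∈ T)).card ≤
      T.card + ((B.filter (fun b => ((b : ℕ) : ZMod v) ∈ T)).filter (fun b => v ≤ b)).card := by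
  classical
  set B1 := B.filter (fun b => ((b : ℕ) : ZMod v) ∈ T) with hB1
  have h1 : (B1.filter (fun b => v ≤ b)).card + (B1.filter (fun b => ¬ v ≤ b)).card = B1.card :=
    Finset.card_filter_add_card_filter_not _
  have h2 : (T.filter (fun t => t.val ∈ B)).card + (T.filter (fun t => ¬ t.val ∈ B)).card =
      T.card := Finset.card_filter_add_card_filter_not _
  have h3 : (B1.filter (fun b => ¬ v ≤ b)).card ≤ (T.filter (fun t => t.val ∈ B)).card := by
    apply Finset.card_le_card_of_injOn (fun b => ((b : ℕ) : ZMod v))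
    · intro b hb
      rw [Finset.mem_coe, Finset.mem_filter, hB1, Finset.mem_filter, not_le] at hb
      rw [Finset.mem_coe, Finset.mem_filter, ZMod.val_natCast_of_lt hb.2]
      exact ⟨hb.1.2, hb.1.1⟩
    · intro b hb c hc hbc
      rw [Finset.mem_coe, Finset.mem_filter, not_le] at hb hc
      have := congrArg ZMod.val hbc
      simp only at this
      rwa [ZMod.val_natCast_of_lt hb.2, ZMod.val_natCast_of_lt hc.2] at this
  omega

/-- **Main theorem.** -/
theorem main (A : Finset ℕ) (z1 z2 : ℤ) (h12 : z1 ≠ z2)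
    (h1 : 3 ≤ ((A ×ˢ A).filter (fun p => (p.2 : ℤ) - 2 * p.1 = z1)).card)
    (h2 : 2 ≤ ((A ×ˢ A).filter (fun p => (p.2 : ℤ) - 2 * p.1 = z2)).card) :
    ∃ N0 : ℕ, ∀ B : Finset ℕ, A ⊆ B →
      (∀ a ∈ B, ∀ b ∈ B, ∀ c ∈ B, ∀ d ∈ B, a + b = c + d → (a = c ∧ b = d) ∨ (a = d ∧ b = c)) →
      N0 ≤ B.card → (∀ b ∈ B, 10000 * b ≤ 10001 * B.card ^ 2) →
      ∀ (v : ℕ) (T : Finset (ZMod v)), v ≤ B.card ^ 3 → IsPlaneSet v T →
      10000 * (B.filter (fun b => ((b : ℕ) : ZMod v) ∈ T)).card ≤ 9999 * B.card := by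
  classical
  refine ⟨10 ^ 21 + 10 ^ 6 * (A.sup id + 1) + (z1 - z2).natAbs, ?_⟩
  intro B hAB hB hN0 hBM v T hv3 hT
  by_contra hcon
  rw [not_le] at hcon
  have hv0 : v ≠ 0 := by
    obtain ⟨-, n, hn, h | h | h⟩ := hT
    · rw [h.1]; exact Nat.succ_ne_zero _
    · have := h.1
      intro h0
      rw [h0] at this
      nlinarith
    · rw [h.1]
      exact Nat.mul_ne_zero (by omega) (by omega)
  have : NeZero v := ⟨hv0⟩
  obtain ⟨H, hpd, he, hτ3, hv1, hv2, hexact⟩ := plane_facts hT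
  set B1 := B.filter (fun b => ((b : ℕ) : ZMod v) ∈ T) with hB1
  set M : ℕ := 10001 * B.card ^ 2 / 10000 with hM
  have hBM' : ∀ b ∈ B, b ≤ M := by
    intro b hb
    rw [hM, Nat.le_div_iff_mul_le (by norm_num)]
    have := hBM b hb
    omega
  -- real versions
  have hNr : (10 : ℝ) ^ 21 ≤ (B.card : ℝ) := by
    have h3 : 10 ^ 21 ≤ B.card := by omega
    exact_mod_cast h3
  have hNp : (0 : ℝ) < B.card := by linarith
  have hSr : 0.9999 * (B.card : ℝ) ≤ (B1.card : ℝ) := by
    have h3 : (9999 : ℝ) * (B.card : ℝ) < 10000 * (B1.card : ℝ) := by exact_mod_cast hcon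
    linarith
  have hSN : (B1.card : ℝ) ≤ (B.card : ℝ) := by
    exact_mod_cast Finset.card_le_card (Finset.filter_subset _ B)
  have hMr : (M : ℝ) ≤ 1.0001 * (B.card : ℝ) ^ 2 := by
    have h3 : M * 10000 ≤ 10001 * B.card ^ 2 := Nat.div_mul_le_self _ _
    have h4 : (M : ℝ) * 10000 ≤ 10001 * (B.card : ℝ) ^ 2 := by exact_mod_cast h3
    linarith
  have hτ3r : (3 : ℝ) ≤ (T.card : ℝ) := by exact_mod_cast hτ3
  have hv1r : (T.card : ℝ) * T.card + 1 ≤ (v : ℝ) + T.card := by
    have h3 : T.card * T.card + 1 ≤ v + T.card := hv1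
    exact_mod_cast h3
  have hv2r : (v : ℝ) ≤ (T.card : ℝ) * T.card + T.card := by exact_mod_cast hv2
  have hv3r : (v : ℝ) ≤ (B.card : ℝ) ^ 3 := by exact_mod_cast hv3
  have hvp : (0 : ℝ) < v := by exact_mod_cast Nat.pos_of_ne_zero hv0
  -- lower bound for τ
  have hτl : 0.9998 * (B.card : ℝ) - 19 ≤ (T.card : ℝ) := by
    have hcoll := coll T B1 (fun a ha b hb c hc d hd => hB a (Finset.mem_filter.1 ha).1 b
      (Finset.mem_filter.1 hb).1 c (Finset.mem_filter.1 hc).1 d (Finset.mem_filter.1 hd).1) M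
      (fun b hb => hBM' b (Finset.mem_filter.1 hb).1) (fun b hb => (Finset.mem_filter.1 hb).2)
    have h3 : ((M / v : ℕ) : ℝ) * v ≤ M := by
      have := Nat.div_mul_le_self M v
      exact_mod_cast this
    refine lowτ (B.card : ℝ) (B1.card : ℝ) (T.card : ℝ) (v : ℝ) ((M / v : ℕ) : ℝ) (M : ℝ) hNr hSr
      hSN hMr hτ3r hv1r h3 (Nat.cast_nonneg _) ?_
    exact_mod_cast hcoll
  have hvlo := lo_v _ _ _ hNr hτl hv1r
  -- the window
  set W : ℕ := B.card ^ 2 / 4000 with hW
  have hWr : (W : ℝ) ≤ (B.card : ℝ) ^ 2 / 4000 := by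
    have h3 : W * 4000 ≤ B.card ^ 2 := Nat.div_mul_le_self _ _
    have h4 : (W : ℝ) * 4000 ≤ (B.card : ℝ) ^ 2 := by exact_mod_cast h3
    linarith
  have hWr2 : (B.card : ℝ) ^ 2 / 4001 ≤ (W : ℝ) := by
    have h3 : B.card ^ 2 < (W + 1) * 4000 := by
      have := Nat.lt_div_mul_add (a := B.card ^ 2) (b := 4000) (by norm_num)
      rw [← hW] at this
      omega
    have h4 : (B.card : ℝ) ^ 2 < ((W : ℝ) + 1) * 4000 := by exact_mod_cast h3
    nlinarith
  have hW1 : 1 ≤ W := by
    have : (1 : ℝ) ≤ (W : ℝ) := by nlinarith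
    exact_mod_cast this
  have hWv : W ≤ v := by
    have : (W : ℝ) ≤ (v : ℝ) := by nlinarith
    exact_mod_cast this
  have hcrude := crude_τ _ _ _ hNr hv1r hv3r
  have hy0 : (0 : ℝ) ≤ (B.card : ℝ) / 1000 := by positivity
  -- upper bound for τ
  have hτh : (T.card : ℝ) ≤ 1.0015 * (B.card : ℝ) := by
    rcases Nat.lt_or_ge M v with hMv | hMv
    · have h3 := interval_bound T hpd.sidon hv2 W hW1 hWv 0 (M + 1) (by omega)
        ((B.card : ℝ) / 1000) hy0 (by
          refine hy2_arith _ _ _ _ hNr ?_ hcrude (by linarith) hWr2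
          push_cast
          nlinarith)
      refine hi_τ (B.card : ℝ) (((M + 1 : ℕ) : ℝ) - ((0 : ℕ) : ℝ) + W) (T.card : ℝ) (v : ℝ) hNr ?_
        (le_trans hSr (le_trans ?_ h3)) hτ3r hv1r
      · push_cast
        nlinarith
      · have h4 : B1.card ≤ (T.filter (fun t => 0 ≤ t.val ∧ t.val < M + 1)).card := by
          apply Finset.card_le_card_of_injOn (fun b => ((b : ℕ) : ZMod v))
          · intro b hb
            rw [Finset.mem_coe, hB1, Finset.mem_filter] at hb
            have h5 := hBM' b hb.1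
            rw [Finset.mem_coe, Finset.mem_filter, ZMod.val_natCast_of_lt (by omega)]
            exact ⟨hb.2, Nat.zero_le _, by omega⟩
          · intro b hb c hc hbc
            rw [Finset.mem_coe, hB1, Finset.mem_filter] at hb hc
            have h5 := hBM' b hb.1
            have h6 := hBM' c hc.1
            have := congrArg ZMod.val hbc
            simp only at this
            rwa [ZMod.val_natCast_of_lt (by omega), ZMod.val_natCast_of_lt (by omega)] at this
        exact_mod_cast h4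
    · have hvM : (v : ℝ) ≤ (M : ℝ) := by exact_mod_cast hMv
      exact hi_τ' _ _ _ _ hNr hMr hvM hv1r
  -- the number D
  set D := (T.filter (fun t => t.val ∉ B)).card with hD
  have hDr : (D : ℝ) ≤ 0.0035 * (B.card : ℝ) := by
    have h3 := D_bound T B
    rw [← hD, ← hB1] at h3
    have h4 : (D : ℝ) + B1.card ≤ T.card + ((B1.filter (fun b => v ≤ b)).card : ℝ) := by
      exact_mod_cast h3
    have h5 : ((B1.filter (fun b => v ≤ b)).card : ℝ) ≤ 0.00187 * (B.card : ℝ) := by
      rcases Nat.lt_or_ge M v with hMv | hMv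
      · have : (B1.filter (fun b => v ≤ b)) = ∅ := by
          rw [Finset.filter_eq_empty_iff]
          intro b hb hvb
          have h6 := hBM' b (Finset.mem_filter.1 hb).1
          omega
        rw [this]
        simp
        positivity
      · have hvM : (v : ℝ) ≤ (M : ℝ) := by exact_mod_cast hMv
        have hsub : ((M - v + 1 : ℕ) : ℝ) = (M : ℝ) - v + 1 := by
          rw [Nat.cast_add, Nat.cast_sub hMv]; simp
        have h6 := interval_bound T hpd.sidon hv2 W hW1 hWv 0 (M - v + 1) (by omega)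
          ((B.card : ℝ) / 1000) hy0 (by
            refine hy2_arith _ _ _ _ hNr ?_ hcrude (by linarith) hWr2
            rw [hsub]
            push_cast
            nlinarith)
        have h7 : ((B1.filter (fun b => v ≤ b)).card : ℝ) ≤
            ((T.filter (fun t => 0 ≤ t.val ∧ t.val < M - v + 1)).card : ℝ) := by
          have hM2v : M < 2 * v := by
            have : (M : ℝ) < 2 * (v : ℝ) := by nlinarith
            exact_mod_cast this
          have hval : ∀ b ∈ B1.filter (fun b => v ≤ b), ((b : ℕ) : ZMod v).val = b - v := by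
            intro b hb
            rw [Finset.mem_filter] at hb
            have h8 := hBM' b (Finset.mem_filter.1 hb.1).1
            rw [ZMod.val_natCast, Nat.mod_eq_sub_mod hb.2, Nat.mod_eq_of_lt (by omega)]
          have h8 : (B1.filter (fun b => v ≤ b)).card ≤
              (T.filter (fun t => 0 ≤ t.val ∧ t.val < M - v + 1)).card := by
            apply Finset.card_le_card_of_injOn (fun b => ((b : ℕ) : ZMod v))
            · intro b hb
              have h9 := hval b hb
              rw [Finset.mem_coe, Finset.mem_filter] at hb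
              have h10 := hBM' b (Finset.mem_filter.1 hb.1).1
              rw [Finset.mem_coe, Finset.mem_filter]
              refine ⟨(Finset.mem_filter.1 hb.1).2, Nat.zero_le _, ?_⟩
              change ((b : ℕ) : ZMod v).val < M - v + 1
              rw [h9]
              omega
            · intro b hb c hc hbc
              have h9 := hval b hb
              have h10 := hval c hc
              rw [Finset.mem_coe, Finset.mem_filter] at hb hc
              have h11 : ((b : ℕ) : ZMod v).val = ((c : ℕ) : ZMod v).val := congrArg ZMod.val hbc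
              rw [h9, h10] at h11
              omega
          exact_mod_cast h8
        refine h7.trans (h6.trans ?_)
        refine hi_D _ _ _ _ hNr hτ3r hτh hvlo ?_
        rw [hsub]
        push_cast
        nlinarith
    linarith
  -- an element of A outside T
  have hNv : B.card ≤ v := by
    have : (B.card : ℝ) ≤ (v : ℝ) := by nlinarith
    exact_mod_cast this
  have hAv : ∀ a ∈ A, a < v := by
    intro a ha
    have h3 : a ≤ A.sup id := Finset.le_sup (f := id) ha
    omega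
  have hex : ∃ a ∈ A, (a : ZMod v) ∉ T := by
    by_contra hno
    push Not at hno
    have h3 := r_transfer T A hAv hno z1
    have h4 := r_transfer T A hAv hno z2
    have h30 : 30 ≤ v := by
      have : (30 : ℝ) ≤ (v : ℝ) := by nlinarith
      exact_mod_cast this
    refine hexact h30 (z1 : ZMod v) (z2 : ZMod v) ?_ (h1.trans h3) (h2.trans h4)
    intro heq
    have h5 : ((z1 - z2 : ℤ) : ZMod v) = 0 := by push_cast; rw [heq, sub_self]
    rw [ZMod.intCast_zmod_eq_zero_iff_dvd] at h5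
    have h6 := Int.natAbs_dvd_natAbs.2 h5
    rw [Int.natAbs_natCast] at h6
    have h7 := Nat.le_of_dvd (Int.natAbs_pos.2 (sub_ne_zero.2 h12)) h6
    omega
  obtain ⟨a, haA, haT⟩ := hex
  have har : (a : ℝ) ≤ (B.card : ℝ) / 10 ^ 6 := by
    have h3 : a ≤ A.sup id := Finset.le_sup (f := id) haA
    have h4 : 10 ^ 6 * a ≤ B.card := by omega
    have h5 : (10 : ℝ) ^ 6 * a ≤ B.card := by exact_mod_cast h4
    linarith
  obtain ⟨g, m, hg, hm, hsum⟩ := core hpd he B hB a (hAB haA) haT D le_rfl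
  have hSg := val_sum T hpd.sidon hv2 W hW1 hWv ((B.card : ℝ) / 1000) hy0 (by
    have hvN : (v : ℝ) + W ≤ 1.01 * (B.card : ℝ) ^ 2 := by nlinarith
    exact hy2_arith _ _ _ _ hNr hvN hcrude (by linarith) hWr2)
  refine final_arith (B.card : ℝ) (T.card : ℝ) (v : ℝ) (W : ℝ) (D : ℝ) (g : ℝ) (m : ℝ) (a : ℝ)
    (∑ t ∈ T, (t.val : ℝ)) hNr hτl hτh hv2r hvp.le hWr hDr har ?_ ?_ ?_ hSg
  · exact_mod_cast hg
  · exact_mod_cast hm
  · exact_mod_cast hsum

end Pool.Agent.Lib.MP_2a564b_nt.Near
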