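import Pool.Agent.Lib.MP_2a564b_nt.Variance
import Pool.Agent.Lib.MP_2a564b_nt.Field
import Pool.Agent.Lib.MP_2a564b_nt.Arith

set_option autoImplicit false

/-!
# A generator some given power of which lies on the line
-/

namespace Pool.Agent.Lib.MP_2a564b_nt

open Finset

theorem castHom_eq_val {N d : ℕ} [NeZero N] (h : d ∣ N) (x : ZMod N) :
    ZMod.castHom h (ZMod d) x = ((x.val : ℕ) : ZMod d) := by
  rw [ZMod.castHom_apply, ZMod.natCast_val]

/-- A dense Sidon set in `ZMod (n0 * N1)` contains an element in a given class modulo `n0` which is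
coprime to `N1`, if `N1` has few prime factors, all of them large. -/
theorem exists_exponent {n0 N1 q m : ℕ} [NeZero n0] [NeZero N1] [NeZero (n0 * N1)]
    (hcop : Nat.Coprime n0 N1) (B : Finset (ZMod (n0 * N1)))
    (hB : ∀ a ∈ B, ∀ b ∈ B, ∀ c ∈ B, ∀ d ∈ B, a + b = c + d →
      (a = c ∧ b = d) ∨ (a = d ∧ b = c))
    (hq : B.card = q) (hN : n0 * N1 ≤ q ^ 2)
    (hl : ∀ l ∈ N1.primeFactors, m + 1 ≤ l) (hw : 2 * N1.primeFactors.card ≤ m)
    (hbig : (n0 * (m + 2)) ^ 2 < q) (j0 : ZMod n0) :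
    ∃ x ∈ B, ((x.val : ℕ) : ZMod n0) = j0 ∧ ∀ l ∈ N1.primeFactors, ¬ l ∣ x.val := by
  classical
  by_contra hcon
  push Not at hcon
  have hn0 : (0 : ℝ) < n0 := by exact_mod_cast Nat.pos_of_ne_zero (NeZero.ne n0)
  have hq0 : (0 : ℝ) < q := by exact_mod_cast lt_of_le_of_lt (Nat.zero_le _) hbig
  set r : ℝ := Real.sqrt q with hr
  have hr0 : 0 < r := Real.sqrt_pos.2 hq0
  have hrr : r * r = q := Real.mul_self_sqrt hq0.le
  have hrbig : (n0 : ℝ) * (m + 2) < r := by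
    rw [hr]
    apply Real.lt_sqrt_of_sq_lt
    exact_mod_cast hbig
  have hcardN : Fintype.card (ZMod (n0 * N1)) ≤ B.card ^ 2 := by
    rw [ZMod.card, hq]
    exact hN
  -- the big fibre
  set S0 : Finset (ZMod (n0 * N1)) := B.filter fun x =>
    (ZMod.castHom (Dvd.intro N1 rfl : n0 ∣ n0 * N1) (ZMod n0)).toAddMonoidHom x = j0 with hS0
  have h0 := fiber_card_sub_sq_le
    (ZMod.castHom (Dvd.intro N1 rfl : n0 ∣ n0 * N1) (ZMod n0)).toAddMonoidHom
    (ZMod.ringHom_surjective _) B hB hcardN j0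
  rw [← hS0, ZMod.card, hq] at h0
  have h0' : (q : ℝ) / n0 - r ≤ S0.card := by
    have h1 : |(S0.card : ℝ) - q / n0| ≤ r := Real.abs_le_sqrt h0
    have h2 := (abs_le.1 h1).1
    linarith
  -- the small fibres
  have h1 : ∀ l ∈ N1.primeFactors, ∃ T : Finset (ZMod (n0 * N1)),
      (∀ x ∈ S0, l ∣ x.val → x ∈ T) ∧ (T.card : ℝ) ≤ q / (n0 * (m + 1)) + r := by
    intro l hlP
    have hlp := Nat.mem_primeFactors.1 hlP
    have hlpos : 0 < l := hlp.1.pos
    have : NeZero (n0 * l) := ⟨mul_ne_zero (NeZero.ne n0) hlpos.ne'⟩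
    have hcl : Nat.Coprime n0 l := Nat.Coprime.coprime_dvd_right hlp.2.1 hcop
    have hdvd : n0 * l ∣ n0 * N1 := Nat.mul_dvd_mul_left n0 hlp.2.1
    obtain ⟨k, hk1, hk2⟩ := Nat.chineseRemainder hcl j0.val 0
    refine ⟨B.filter fun x => (ZMod.castHom hdvd (ZMod (n0 * l))).toAddMonoidHom x =
      ((k : ℕ) : ZMod (n0 * l)), ?_, ?_⟩
    · intro x hx hlx
      rw [hS0, mem_filter] at hx
      rw [mem_filter]
      refine ⟨hx.1, ?_⟩
      have h2 : ZMod.castHom (Dvd.intro N1 rfl : n0 ∣ n0 * N1) (ZMod n0) x = j0 := hx.2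
      change ZMod.castHom hdvd (ZMod (n0 * l)) x = _
      rw [castHom_eq_val] at h2 ⊢
      rw [ZMod.natCast_eq_natCast_iff]
      refine (Nat.modEq_and_modEq_iff_modEq_mul hcl).1 ⟨?_, ?_⟩
      · refine Nat.ModEq.trans ?_ hk1.symm
        rw [← ZMod.natCast_eq_natCast_iff, h2]
        exact (ZMod.natCast_zmod_val j0).symm
      · refine Nat.ModEq.trans ?_ hk2.symm
        exact (Nat.modEq_zero_iff_dvd).2 hlx
    · have h3 := fiber_card_sub_sq_le (ZMod.castHom hdvd (ZMod (n0 * l))).toAddMonoidHom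
        (ZMod.ringHom_surjective _) B hB hcardN ((k : ℕ) : ZMod (n0 * l))
      rw [ZMod.card, hq] at h3
      have h4 := Real.abs_le_sqrt h3
      rw [← hr] at h4
      have h5 := (abs_le.1 h4).2
      have h6 : (q : ℝ) / ((n0 * l : ℕ) : ℝ) ≤ q / (n0 * (m + 1)) := by
        push_cast
        have h7 : ((m : ℝ) + 1) ≤ l := by exact_mod_cast hl l hlP
        apply div_le_div_of_nonneg_left hq0.le
        · positivity
        · exact mul_le_mul_of_nonneg_left h7 hn0.le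
      linarith
  choose! T hT1 hT2 using h1
  have h2 : S0 ⊆ N1.primeFactors.biUnion T := by
    intro x hx
    have hx' := hx
    rw [hS0, mem_filter] at hx
    have h3 : ZMod.castHom (Dvd.intro N1 rfl : n0 ∣ n0 * N1) (ZMod n0) x = j0 := hx.2
    rw [castHom_eq_val] at h3
    obtain ⟨l, hlP, hlx⟩ := hcon x hx.1 h3
    rw [mem_biUnion]
    exact ⟨l, hlP, hT1 l hlP x hx' hlx⟩
  have h3 : (S0.card : ℝ) ≤ ∑ l ∈ N1.primeFactors, ((T l).card : ℝ) := by
    have h4 := (Finset.card_le_card h2).trans Finset.card_biUnion_le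
    exact_mod_cast h4
  have h4 : ∑ l ∈ N1.primeFactors, ((T l).card : ℝ) ≤
      ∑ _l ∈ N1.primeFactors, (q / (n0 * (m + 1)) + r) := Finset.sum_le_sum hT2
  rw [Finset.sum_const, nsmul_eq_mul] at h4
  have h5 : (2 : ℝ) * (N1.primeFactors.card : ℝ) ≤ m := by exact_mod_cast hw
  have h6 : (N1.primeFactors.card : ℝ) * (q / (n0 * (m + 1)) + r) ≤
      (m / 2) * (q / (n0 * (m + 1)) + r) := by
    apply mul_le_mul_of_nonneg_right
    · linarith
    · positivity
  have h7 : ((m : ℝ) / 2) * (q / (n0 * (m + 1))) ≤ q / n0 / 2 := by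
    have h8 : ((m : ℝ) / 2) * (q / (n0 * (m + 1))) = (q / n0 / 2) * (m / (m + 1)) := by
      field_simp
    rw [h8]
    apply mul_le_of_le_one_right
    · positivity
    · rw [div_le_one (by positivity)]
      linarith
  have h8 : (q : ℝ) / n0 / 2 ≤ (m / 2 + 1) * r := by
    nlinarith
  have h9 : (q : ℝ) ≤ n0 * (m + 2) * r := by
    have h10 : (q : ℝ) = (q / n0 / 2) * (2 * n0) := by
      field_simp
    rw [h10]
    calc (q : ℝ) / n0 / 2 * (2 * n0) ≤ (m / 2 + 1) * r * (2 * n0) := by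
          apply mul_le_mul_of_nonneg_right h8
          positivity
      _ = n0 * (m + 2) * r := by ring
  nlinarith

/-- There is a generator `η` of the group of units with `η ^ c` in a given multiplicative Sidon
set with `p ^ m` nonzero elements. -/
theorem exists_generator {K : Type*} [Field K] [Fintype K] [DecidableEq K] {p m : ℕ}
    [Fact p.Prime] [CharP K p] (hm : m.Prime) (hpm : p ^ 4 ≤ m)
    (hbig : p ^ 4 * (m + 2) ^ 2 ≤ p ^ m) (hK : Fintype.card K = (p ^ m) ^ 2) {L : Finset K}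
    (hL0 : (0 : K) ∉ L) (hLcard : L.card = p ^ m)
    (hLs : ∀ a ∈ L, ∀ b ∈ L, ∀ c ∈ L, ∀ d ∈ L, a * b = c * d →
      (a = c ∧ b = d) ∨ (a = d ∧ b = c)) (c : ℤ) (hc0 : c ≠ 0) (hc : c.natAbs ≤ m) :
    ∃ η : Kˣ, orderOf η = (p ^ m) ^ 2 - 1 ∧ ((η ^ c : Kˣ) : K) ∈ L := by
  classical
  have hp : p.Prime := Fact.out
  have h2p : p ^ 2 ≤ m := (Nat.pow_le_pow_right hp.pos (by norm_num)).trans hpm
  have h4p : 4 ≤ p ^ 2 := by nlinarith [hp.two_le]
  set n0 := p ^ 2 - 1 with hn0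
  set N1 := cof p m with hN1
  have hn0pos : 0 < n0 := by omega
  have hqpos : 0 < p ^ m := pow_pos hp.pos m
  have hN : n0 * N1 = (p ^ m) ^ 2 - 1 := cof_mul p m hp.pos
  have hq4 : 2 ≤ p ^ m := hp.two_le.trans (Nat.le_self_pow hm.ne_zero p)
  have hNpos : 0 < n0 * N1 := by
    rw [hN]
    have : 2 ^ 2 ≤ (p ^ m) ^ 2 := Nat.pow_le_pow_left hq4 2
    omega
  have hN1pos : 0 < N1 := Nat.pos_of_mul_pos_left hNpos
  have : NeZero n0 := ⟨hn0pos.ne'⟩
  have : NeZero N1 := ⟨hN1pos.ne'⟩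
  have : NeZero (n0 * N1) := ⟨hNpos.ne'⟩
  have hcop : Nat.Coprime n0 N1 := cof_coprime hp hm h2p
  obtain ⟨ω, hω⟩ := IsCyclic.exists_generator (α := Kˣ)
  have hord : orderOf ω = n0 * N1 := by
    rw [orderOf_eq_card_of_forall_mem_zpowers hω, Nat.card_eq_fintype_card, Fintype.card_units,
      hK, hN]
  set B : Finset (ZMod (n0 * N1)) := univ.filter fun x =>
    ((ω ^ x.val : Kˣ) : K) ∈ L with hBdef
  have hinj : ∀ a b : ZMod (n0 * N1), (ω ^ a.val : Kˣ) = ω ^ b.val → a = b := by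
    intro a b h
    apply ZMod.val_injective
    refine pow_injOn_Iio_orderOf (x := ω) ?_ ?_ h
    · rw [Set.mem_Iio, hord]
      exact ZMod.val_lt a
    · rw [Set.mem_Iio, hord]
      exact ZMod.val_lt b
  have hmod : ∀ s : ℕ, ω ^ (s % (n0 * N1)) = ω ^ s := by
    intro s
    rw [← hord, pow_mod_orderOf]
  have hmul : ∀ a b : ZMod (n0 * N1), (ω ^ a.val * ω ^ b.val : Kˣ) = ω ^ (a + b).val := by
    intro a b
    rw [← pow_add, ZMod.val_add, hmod]
  have hsid : ∀ a ∈ B, ∀ b ∈ B, ∀ c ∈ B, ∀ d ∈ B, a + b = c + d →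
      (a = c ∧ b = d) ∨ (a = d ∧ b = c) := by
    intro a ha b hb c' hc' d hd h
    rw [hBdef, mem_filter] at ha hb hc' hd
    have h1 : ((ω ^ a.val : Kˣ) : K) * ((ω ^ b.val : Kˣ) : K) =
        ((ω ^ c'.val : Kˣ) : K) * ((ω ^ d.val : Kˣ) : K) := by
      rw [← Units.val_mul, ← Units.val_mul, hmul, hmul, h]
    rcases hLs _ ha.2 _ hb.2 _ hc'.2 _ hd.2 h1 with h2 | h2
    · left
      exact ⟨hinj _ _ (Units.ext h2.1), hinj _ _ (Units.ext h2.2)⟩
    · right
      exact ⟨hinj _ _ (Units.ext h2.1), hinj _ _ (Units.ext h2.2)⟩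
  have hcard : B.card = p ^ m := by
    rw [← hLcard]
    refine Finset.card_bij (fun x _ => ((ω ^ x.val : Kˣ) : K)) ?_ ?_ ?_
    · intro x hx
      rw [hBdef, mem_filter] at hx
      exact hx.2
    · intro a _ b _ h
      exact hinj _ _ (Units.ext h)
    · intro y hy
      have hy0 : y ≠ 0 := fun h => hL0 (h ▸ hy)
      obtain ⟨k, hk⟩ := mem_powers_iff_mem_zpowers.2 (hω (Units.mk0 y hy0))
      have hk' : ω ^ ((k : ℕ) : ZMod (n0 * N1)).val = Units.mk0 y hy0 := by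
        rw [ZMod.val_natCast, hmod]
        exact hk
      refine ⟨((k : ℕ) : ZMod (n0 * N1)), ?_, ?_⟩
      · rw [hBdef, mem_filter]
        refine ⟨mem_univ _, ?_⟩
        rw [hk']
        exact hy
      · rw [hk']
        rfl
  have hNle : n0 * N1 ≤ (p ^ m) ^ 2 := by omega
  have hbig' : (n0 * (m + 2)) ^ 2 < p ^ m := by
    refine lt_of_lt_of_le ?_ hbig
    have h1 : n0 ^ 2 < p ^ 4 := by
      have h2 : n0 < p ^ 2 := by omega
      calc n0 ^ 2 < (p ^ 2) ^ 2 := Nat.pow_lt_pow_left h2 (by norm_num)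
        _ = p ^ 4 := by rw [← pow_mul]
    rw [mul_pow]
    exact Nat.mul_lt_mul_of_pos_right h1 (by positivity)
  obtain ⟨x, hxB, hx0, hxl⟩ := exists_exponent (m := m) hcop B hsid hcard hNle
    (fun l hl => by
      have h1 := Nat.mem_primeFactors.1 hl
      exact cof_prime_le hp hm h2p h1.1 h1.2.1)
    (cof_card_primeFactors hp hm hpm) hbig' ((c : ℤ) : ZMod n0)
  have hxcop : Nat.Coprime x.val N1 := by
    refine Nat.Coprime.symm (Nat.coprime_of_dvd fun l hl hlN hlx => ?_)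
    exact hxl l (Nat.mem_primeFactors.2 ⟨hl, hlN, hN1pos.ne'⟩) hlx
  have hccop : Nat.Coprime c.natAbs N1 := by
    refine Nat.Coprime.symm (Nat.coprime_of_dvd fun l hl hlN hlx => ?_)
    have h1 := cof_prime_le hp hm h2p hl hlN
    have h2 := Nat.le_of_dvd (Int.natAbs_pos.2 hc0) hlx
    omega
  have hcunit : IsUnit ((c : ℤ) : ZMod N1) := by
    rw [ZMod.coe_int_isUnit_iff_isCoprime, Int.isCoprime_iff_nat_coprime, Int.natAbs_natCast]
    exact hccop.symm
  set s1 : ZMod N1 := ((x.val : ℕ) : ZMod N1) * ((c : ℤ) : ZMod N1)⁻¹ with hs1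
  have hs1c : s1 * ((c : ℤ) : ZMod N1) = ((x.val : ℕ) : ZMod N1) := by
    rw [hs1, mul_assoc, ZMod.inv_mul_of_unit _ hcunit, mul_one]
  obtain ⟨k, hk1, hk2⟩ := Nat.chineseRemainder hcop 1 s1.val
  have hk1' : ((k : ℕ) : ZMod n0) = 1 := by
    have h1 := (ZMod.natCast_eq_natCast_iff _ _ _).2 hk1
    simpa using h1
  have hk2' : ((k : ℕ) : ZMod N1) = s1 := by
    have h1 := (ZMod.natCast_eq_natCast_iff _ _ _).2 hk2
    rw [ZMod.natCast_zmod_val] at h1
    exact h1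
  have hkcop : Nat.Coprime (n0 * N1) k := by
    refine Nat.Coprime.mul_left ?_ ?_
    · rw [Nat.coprime_comm, ← ZMod.isUnit_iff_coprime, hk1']
      exact isUnit_one
    · rw [Nat.coprime_comm, ← ZMod.isUnit_iff_coprime, hk2']
      have h1 : IsUnit ((x.val : ℕ) : ZMod N1) := (ZMod.isUnit_iff_coprime _ _).2 hxcop
      rw [← hs1c] at h1
      exact isUnit_of_mul_isUnit_left h1
  refine ⟨ω ^ k, ?_, ?_⟩
  · rw [Nat.Coprime.orderOf_pow, hord, hN]
    rw [hord]
    exact hkcop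
  · have h1 : ((ω ^ k : Kˣ) ^ c : Kˣ) = ω ^ x.val := by
      rw [← zpow_natCast ω k, ← zpow_mul, ← zpow_natCast ω x.val, zpow_eq_zpow_iff_modEq, hord]
      push_cast
      refine (Int.modEq_and_modEq_iff_modEq_mul ?_).1 ⟨?_, ?_⟩
      · simpa using hcop
      · rw [← ZMod.intCast_eq_intCast_iff]
        push_cast
        rw [hk1', one_mul]
        exact hx0.symm
      · rw [← ZMod.intCast_eq_intCast_iff]
        push_cast
        rw [hk2', hs1c]
    rw [h1]
    rw [hBdef, mem_filter] at hxB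
    exact hxB.2

end Pool.Agent.Lib.MP_2a564b_nt
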