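import Mathlib

set_option autoImplicit false

/-!
# Distribution of a dense Sidon subset of a finite group in the fibres of a homomorphism
-/

namespace Pool.Agent.Lib.MP_2a564b_nt

open Finset

/-- The number of elements of a fibre of a surjective homomorphism. -/
theorem card_fiber_mul {G Q : Type*} [AddCommGroup G] [Fintype G] [AddCommGroup Q]
    [Fintype Q] [DecidableEq Q] (f : G →+ Q) (hf : Function.Surjective f) :
    Fintype.card G = Fintype.card Q * (univ.filter fun g : G => f g = 0).card := by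
  classical
  have h1 : Fintype.card G = ∑ j : Q, (univ.filter fun g : G => f g = j).card := by
    rw [← Finset.card_univ]
    exact Finset.card_eq_sum_card_fiberwise fun _ _ => Finset.mem_coe.2 (mem_univ _)
  have h2 : ∀ j : Q, (univ.filter fun g : G => f g = j).card =
      (univ.filter fun g : G => f g = 0).card := by
    intro j
    obtain ⟨g₀, hg₀⟩ := hf j
    symm
    refine Finset.card_bij (fun g _ => g + g₀) ?_ ?_ ?_
    · intro g hg
      rw [mem_filter] at hg ⊢
      refine ⟨mem_univ _, ?_⟩
      rw [map_add, hg.2, hg₀, zero_add]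
    · intro a _ b _ h
      exact add_right_cancel h
    · intro b hb
      rw [mem_filter] at hb
      refine ⟨b - g₀, ?_, sub_add_cancel _ _⟩
      rw [mem_filter]
      refine ⟨mem_univ _, ?_⟩
      rw [map_sub, hb.2, hg₀, sub_self]
  rw [h1, Finset.sum_congr rfl fun j _ => h2 j, Finset.sum_const, Finset.card_univ, smul_eq_mul]

/-- The number of pairs in a common fibre. -/
theorem sum_fiber_sq_le {G Q : Type*} [AddCommGroup G] [Fintype G] [DecidableEq G]
    [AddCommGroup Q] [Fintype Q] [DecidableEq Q] (f : G →+ Q) (B : Finset G)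
    (hB : ∀ a ∈ B, ∀ b ∈ B, ∀ c ∈ B, ∀ d ∈ B, a + b = c + d →
      (a = c ∧ b = d) ∨ (a = d ∧ b = c)) :
    ∑ j : Q, (B.filter fun x => f x = j).card ^ 2 + 1 ≤
      B.card + (univ.filter fun g : G => f g = 0).card := by
  set P : Finset (G × G) := (B ×ˢ B).filter fun x => f x.1 = f x.2 with hP
  have h1 : P.card = ∑ j : Q, (B.filter fun x => f x = j).card ^ 2 := by
    rw [Finset.card_eq_sum_card_fiberwise (f := fun x : G × G => f x.1) (t := univ)
      fun _ _ => Finset.mem_coe.2 (mem_univ _)]
    refine Finset.sum_congr rfl fun j _ => ?_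
    rw [sq, ← Finset.card_product]
    congr 1
    ext ⟨a, b⟩
    simp only [hP, mem_filter, mem_product]
    constructor
    · rintro ⟨⟨⟨ha, hb⟩, h⟩, hj⟩
      exact ⟨⟨ha, hj⟩, hb, by rw [← h, hj]⟩
    · rintro ⟨⟨ha, hj⟩, hb, hj'⟩
      exact ⟨⟨⟨ha, hb⟩, by rw [hj, hj']⟩, hj⟩
  set P' : Finset (G × G) := P.filter fun x => x.1 ≠ x.2 with hP'
  have h2 : P.card = B.card + P'.card := by
    rw [← Finset.card_filter_add_card_filter_not (s := P) (fun x => x.1 = x.2)]
    congr 1
    refine Finset.card_bij (fun x _ => x.1) ?_ ?_ ?_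
    · rintro ⟨a, b⟩ h
      simp only [hP, mem_filter, mem_product] at h
      exact h.1.1.1
    · rintro ⟨a, b⟩ h ⟨a', b'⟩ h' hab
      simp only [hP, mem_filter, mem_product] at h h' hab
      rw [← h.2, ← h'.2, hab]
    · intro b hb
      refine ⟨(b, b), ?_, rfl⟩
      simp only [hP, mem_filter, mem_product]
      exact ⟨⟨⟨hb, hb⟩, trivial⟩, trivial⟩
  have h3 : P'.card + 1 ≤ (univ.filter fun g : G => f g = 0).card := by
    have h4 : P'.card ≤ ((univ.filter fun g : G => f g = 0).erase 0).card := by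
      refine Finset.card_le_card_of_injOn (fun x => x.1 - x.2) ?_ ?_
      · rintro ⟨a, b⟩ h
        simp only [hP', hP, coe_filter, mem_filter, mem_product, Set.mem_ofPred_eq] at h
        simp only [coe_erase, coe_filter, Set.mem_sdiff, Set.mem_ofPred_eq, mem_univ, true_and,
          Set.mem_singleton_iff, map_sub]
        exact ⟨sub_eq_zero.2 h.1.2, sub_ne_zero.2 h.2⟩
      · rintro ⟨a, b⟩ h ⟨a', b'⟩ h' hab
        simp only [hP', hP, coe_filter, mem_filter, mem_product, Set.mem_ofPred_eq] at h h' hab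
        have h5 : a + b' = a' + b := by
          have h6 : a - b = a' - b' := hab
          rw [sub_eq_sub_iff_add_eq_add] at h6
          exact h6
        rcases hB a h.1.1.1 b' h'.1.1.2 a' h'.1.1.1 b h.1.1.2 h5 with h7 | h7
        · exact Prod.ext h7.1 h7.2.symm
        · exact absurd h7.1 h.2
    have h0 : (0 : G) ∈ univ.filter fun g : G => f g = 0 := by
      rw [mem_filter]
      exact ⟨mem_univ _, map_zero f⟩
    rw [Finset.card_erase_of_mem h0] at h4
    have h6 : 0 < (univ.filter fun g : G => f g = 0).card := Finset.card_pos.2 ⟨0, h0⟩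
    omega
  rw [← h1, h2]
  omega

/-- A Sidon set `B` in a group of order at most `|B| ^ 2` is well distributed in the fibres of any
surjective homomorphism. -/
theorem fiber_card_sub_sq_le {G Q : Type*} [AddCommGroup G] [Fintype G] [DecidableEq G]
    [AddCommGroup Q] [Fintype Q] [DecidableEq Q] (f : G →+ Q) (hf : Function.Surjective f)
    (B : Finset G)
    (hB : ∀ a ∈ B, ∀ b ∈ B, ∀ c ∈ B, ∀ d ∈ B, a + b = c + d →
      (a = c ∧ b = d) ∨ (a = d ∧ b = c))
    (hN : Fintype.card G ≤ B.card ^ 2) (j : Q) :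
    (((B.filter fun x => f x = j).card : ℝ) - B.card / Fintype.card Q) ^ 2 ≤ B.card := by
  have h1 := card_fiber_mul f hf
  have h2 := sum_fiber_sq_le f B hB
  set κ : ℕ := (univ.filter fun g : G => f g = 0).card with hκ
  set k : ℝ := (Fintype.card Q : ℝ) with hk
  have hk0 : 0 < k := by
    rw [hk]
    exact_mod_cast Fintype.card_pos
  have h3 : ∑ j : Q, (((B.filter fun x => f x = j).card : ℝ)) = B.card := by
    have h4 : B.card = ∑ j : Q, (B.filter fun x => f x = j).card :=
      Finset.card_eq_sum_card_fiberwise fun _ _ => Finset.mem_coe.2 (mem_univ _)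
    rw [h4]
    push_cast
    rfl
  have h5 : ∑ j : Q, (((B.filter fun x => f x = j).card : ℝ) - B.card / k) ^ 2 =
      ∑ j : Q, ((B.filter fun x => f x = j).card : ℝ) ^ 2 - (B.card : ℝ) ^ 2 / k := by
    have h6 : ∀ j : Q, (((B.filter fun x => f x = j).card : ℝ) - B.card / k) ^ 2 =
        ((B.filter fun x => f x = j).card : ℝ) ^ 2 -
          2 * (B.card / k) * ((B.filter fun x => f x = j).card : ℝ) + (B.card / k) ^ 2 := by
      intro j
      ring
    rw [Finset.sum_congr rfl fun j _ => h6 j, Finset.sum_add_distrib, Finset.sum_sub_distrib,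
      ← Finset.mul_sum, h3, Finset.sum_const, Finset.card_univ, nsmul_eq_mul]
    rw [← hk]
    field_simp
    ring
  have h7 : (((B.filter fun x => f x = j).card : ℝ) - B.card / k) ^ 2 ≤
      ∑ j : Q, (((B.filter fun x => f x = j).card : ℝ) - B.card / k) ^ 2 :=
    Finset.single_le_sum (f := fun j : Q =>
      (((B.filter fun x => f x = j).card : ℝ) - B.card / k) ^ 2)
      (fun _ _ => sq_nonneg _) (mem_univ j)
  refine h7.trans ?_
  rw [h5]
  have h8 : (∑ j : Q, ((B.filter fun x => f x = j).card : ℝ) ^ 2) + 1 ≤ B.card + κ := by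
    exact_mod_cast h2
  have h9 : (Fintype.card G : ℝ) = k * κ := by
    rw [h1]
    push_cast
    rfl
  have h10 : (κ : ℝ) ≤ (B.card : ℝ) ^ 2 / k := by
    rw [le_div_iff₀ hk0, mul_comm, ← h9]
    exact_mod_cast hN
  linarith

end Pool.Agent.Lib.MP_2a564b_nt
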